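import Pool.Agent.W171.LG.CloseR
import Pool.Agent.W171.LG.Core

/-! # Comparison of the two counting functions, groups `W₀ ⬝ ⟨D n ^ r⟩` -/

set_option autoImplicit false
set_option linter.unusedSectionVars false

namespace Pool.Agent.W171.LG

open NumberField Filter Topology Finset
open Pool.Agent.W401.Cheb
open Pool.Agent.H386R2.Artin (PP)
open Pool.Agent.H771R4.SE (Dat cntE)
open Pool.Agent.H981R3.LN (ql)

section
variable (F : IntermediateField ℚ QA) [NumberField F] [IsGalois ℚ F] (C : Set Gal(F/ℚ))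
  (W W0 : Subgroup ℚˣ) (k : ℕ) (D : ℚˣ)

lemma Sc_cntR (hW0 : W0.FG) (hk : k ≠ 0) : ∃ P1 : ℕ, ∀ r : ℕ, r ≠ 0 → ∀ d : Dat,
    (∀ (p : ℕ) (a : ZMod p), d.Q p a ↔ QR F C W0 k D r p a) → ∀ n : ℕ, n ≠ 0 → ∀ x : ℕ,
      |(Sc F C (W0 ⊔ Subgroup.zpowers (DR D r n)) k x : ℝ) - cntE d n x| ≤ P1 := by
  classical
  obtain ⟨P1, hP1, -⟩ := hQ_R F C W0 k D hW0
  refine ⟨P1, fun r hr d hd n hn x => ?_⟩
  rw [Sc_eq]
  unfold cntE
  set A := (range (x + 1)).filter (fun p : ℕ => p.Prime ∧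
    LC F C k (W0 ⊔ Subgroup.zpowers (DR D r n)) p) with hA
  set B := (range (x + 1)).filter (fun p : ℕ => p.Prime ∧ d.Q p (n : ZMod p)) with hB
  have hiff : ∀ p : ℕ, p.Prime → P1 ≤ p →
      (LC F C k (W0 ⊔ Subgroup.zpowers (DR D r n)) p ↔ d.Q p (n : ZMod p)) := by
    intro p hp hpP
    rw [hd, LC_iffR F C W0 k D r hk hr hp (hP1 p hp hpP) hn]
  have hAB : A ⊆ B ∪ range P1 := by
    intro p hp
    rw [hA, mem_filter] at hp
    rw [Finset.mem_union, Finset.mem_range]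
    by_cases h : p < P1
    · exact Or.inr h
    · left
      rw [hB, mem_filter]
      exact ⟨hp.1, hp.2.1, (hiff p hp.2.1 (not_lt.1 h)).1 hp.2.2⟩
  have hBA : B ⊆ A ∪ range P1 := by
    intro p hp
    rw [hB, mem_filter] at hp
    rw [Finset.mem_union, Finset.mem_range]
    by_cases h : p < P1
    · exact Or.inr h
    · left
      rw [hA, mem_filter]
      exact ⟨hp.1, hp.2.1, (hiff p hp.2.1 (not_lt.1 h)).2 hp.2.2⟩
  have h1 := (card_le_card hAB).trans (card_union_le _ _)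
  have h2 := (card_le_card hBA).trans (card_union_le _ _)
  rw [card_range] at h1 h2
  have h1' : (#A : ℝ) ≤ #B + P1 := by exact_mod_cast h1
  have h2' : (#B : ℝ) ≤ #A + P1 := by exact_mod_cast h2
  have h3 : |(#A : ℝ) - #B| ≤ P1 := by
    rw [abs_le]
    constructor <;> linarith
  refine le_trans (le_of_eq ?_) h3
  congr!

/-- **from Lenstra's problem to the counting problem** -/
theorem coreR (hC : ∀ σ ∈ C, ∀ τ : Gal(F/ℚ), τ * σ * τ⁻¹ ∈ C) (hW0 : W0.FG) (hk : k ≠ 0)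
    {r : ℕ} (hr : 0 < r) (hrk : ∀ l : ℕ, l.Prime → l ∣ r → ql k l ∣ r) :
    ∃ d : Dat, ∀ ε : ℝ, 0 < ε → ∃ P0 x0 : ℕ, ∀ n : ℕ, n ≠ 0 → Gen P0 n → ∀ x : ℕ, x0 ≤ x →
      ε * (Nat.primeCounting x : ℝ) < |(Sc F C (W0 ⊔ Subgroup.zpowers (DR D r n)) k x : ℝ) -
        (∑' e : ℕ, tW F C (W0 ⊔ Subgroup.zpowers (DR D r n)) k e) * (Nat.primeCounting x : ℝ)| →
      ε / 2 * (Nat.primeCounting x : ℝ) <
        |(cntE d n x : ℝ) - d.A * (Nat.primeCounting x : ℝ)| := by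
  classical
  have hRp : ∀ l ∈ r.primeFactors, l.Prime := fun l hl => Nat.prime_of_mem_primeFactors hl
  have hW1 : (W0 ⊔ Subgroup.zpowers D).FG := hW0.sup ⟨{D}, by simp [Subgroup.zpowers_eq_closure]⟩
  obtain ⟨d, hdA, hdQ⟩ := dat_R F C W0 k D r hW0 hr hrk _
    (lim_lenR F C k r.primeFactors hC hW1 hW0 hRp)
  obtain ⟨P1, hP1⟩ := Sc_cntR F C W0 k D hW0 hk
  refine ⟨d, fun ε hε => ?_⟩
  obtain ⟨P0, hP0⟩ := closeR F C k hW0 D hr hrk (ε / 4) (by positivity)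
  obtain ⟨x0, hx0⟩ := ((Filter.tendsto_atTop.mp (tendsto_natCast_atTop_atTop.comp
    Nat.tendsto_primeCounting) (4 * (P1 : ℝ) / ε))).exists_forall_of_atTop
  refine ⟨P0, x0, fun n hn hG x hx h => ?_⟩
  have h1 := hP0 n hn hG
  have h2 := hP1 r hr.ne' d hdQ n hn x
  have h3 := hx0 x hx
  simp only [Function.comp_apply] at h3
  rw [div_le_iff₀ hε] at h3
  rw [hdA]
  set W := W0 ⊔ Subgroup.zpowers (DR D r n) with hW
  set δ := ∑' e : ℕ, tW F C W k e with hδ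
  set A := ∑' e : ℕ, aR F C (W0 ⊔ Subgroup.zpowers D) W0 k r.primeFactors e with hA
  have hP : (0 : ℝ) ≤ (Nat.primeCounting x : ℝ) := Nat.cast_nonneg _
  have h4 : |(Sc F C W k x : ℝ) - δ * (Nat.primeCounting x : ℝ)| ≤
      |(Sc F C W k x : ℝ) - cntE d n x| + |(cntE d n x : ℝ) - A * (Nat.primeCounting x : ℝ)| +
        |(δ - A) * (Nat.primeCounting x : ℝ)| := by
    have e1 : (Sc F C W k x : ℝ) - δ * (Nat.primeCounting x : ℝ) =
        (((Sc F C W k x : ℝ) - cntE d n x) +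
          ((cntE d n x : ℝ) - A * (Nat.primeCounting x : ℝ))) -
          (δ - A) * (Nat.primeCounting x : ℝ) := by ring
    rw [e1]
    exact (abs_sub _ _).trans (add_le_add (abs_add_le _ _) le_rfl)
  have h5 : |(δ - A) * (Nat.primeCounting x : ℝ)| ≤ ε / 4 * (Nat.primeCounting x : ℝ) := by
    rw [abs_mul, abs_of_nonneg hP]
    gcongr
  linarith

end

/-- the hypothesis on `r` -/
lemma hrk_of {k r : ℕ} (h : ∀ l : ℕ, l.Prime → l ∣ r → l ^ (k.factorization l + 1) ∣ r) :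
    ∀ l : ℕ, l.Prime → l ∣ r → ql k l ∣ r := h

end Pool.Agent.W171.LG
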