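import Pool.Agent.W171.LG.MeanU

/-! # Uniformity in the exponent for the bases `2 m ^ r` -/

set_option autoImplicit false
set_option linter.unusedSectionVars false

namespace Pool.Agent.W171.LG

open NumberField Filter Topology Finset
open Pool.Agent.W401.Cheb
open Pool.Agent.H386R2.Artin (PP artinC)
open Pool.Agent.H771R4.SE (Dat)
open Pool.Agent.W171.EP (sG badC badG unif_int unif_primes)

open Classical in
/-- the admissible exponents -/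
def Wr (δ : ℝ) (L N r : ℕ) : Prop :=
  (#(r.primeFactors) : ℝ) ≤ (N : ℝ) ^ (1 / 4 : ℝ) ∧
    ∑ l ∈ r.primeFactors.filter (fun l => L < l), (1 / (l : ℝ)) ≤ δ

lemma hmean_two (C1 : ℝ) (hC1 : 0 < C1) (hmU : ∀ (δ : ℝ) (L : ℕ) (ε : ℝ), 0 < ε → ∃ x0 : ℕ,
    ∀ (N x : ℕ) (R : Finset ℕ), (∀ l ∈ R, l.Prime) → (#R : ℝ) ≤ (N : ℝ) ^ (1 / 4 : ℝ) →
      ∑ l ∈ (open Classical in R.filter (fun l => L < l)), (1 / (l : ℝ)) ≤ δ → x0 ≤ x → N ≤ x →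
      |sG (GR R) x - artinC * (Nat.primeCounting x : ℝ)| ≤
        (C1 * δ + ε) * (Nat.primeCounting x : ℝ)) (L : ℕ → ℕ) (k : ℕ) :
    ∃ x0 : ℕ, ∀ (N x : ℕ) (r : ℕ+), Wr (1 / (2 * C1 * (k + 1))) (L k) N r → x0 ≤ x → N ≤ x →
      |sG (datT r).G x - artinC * (Nat.primeCounting x : ℝ)| ≤
        1 / (k + 1 : ℝ) * (Nat.primeCounting x : ℝ) := by
  obtain ⟨x0, h⟩ := hmU (1 / (2 * C1 * (k + 1))) (L k) (1 / (2 * (k + 1))) (by positivity)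
  refine ⟨x0, fun N x r hW hx hN => ?_⟩
  have h1 := h N x (r : ℕ).primeFactors (fun l hl => (Nat.mem_primeFactors.1 hl).1) hW.1
    (by
      refine le_trans (le_of_eq ?_) hW.2
      congr!) hx hN
  rw [datT_G]
  refine h1.trans (le_of_eq ?_)
  congr 1
  field_simp
  norm_num

open Classical in
theorem fam_int (C : ℝ) (hC : 1 < C) (b : ℝ) (S : ℕ → Finset ℕ)
    (hall : ∀ (D : Dat) (ε : ℝ), 0 < ε → ∃ N₀ : ℕ, ∀ N : ℕ, N₀ ≤ N →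
        (#(badC D ε C b N \ S N) : ℝ) ≤ (N : ℝ) ^ (1 - b)) (ε : ℝ) (hε : 0 < ε) :
    ∃ δ : ℝ, 0 < δ ∧ ∀ L : ℕ, ∃ N₀ : ℕ, ∀ N : ℕ, N₀ ≤ N → ∀ r : ℕ+, Wr δ L N r →
      (#(badC (datT r) ε C b N \ S N) : ℝ) ≤ (N : ℝ) ^ (1 - b) := by
  obtain ⟨C1, hC1, hmU⟩ := mean_U
  by_contra hcon
  push Not at hcon
  have hk : ∀ k : ℕ, ∃ L : ℕ, ∀ N₀ : ℕ, ∃ N : ℕ, N₀ ≤ N ∧ ∃ r : ℕ+,
      Wr (1 / (2 * C1 * (k + 1))) L N r ∧
        (N : ℝ) ^ (1 - b) < (#(badC (datT r) ε C b N \ S N) : ℝ) :=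
    fun k => hcon _ (by positivity)
  choose L hL using hk
  obtain ⟨k, N₀, h⟩ := unif_int datT artinC hQ_two.choose datT_A (fun i => (datT_p0 i).le) 1
    (fun k N r => Wr (1 / (2 * C1 * (k + 1))) (L k) N r) (hmean_two C1 hC1 (by
      intro δ L' ε' hε'
      obtain ⟨x0, h⟩ := hmU δ L' ε' hε'
      refine ⟨x0, fun N x R a1 a2 a3 => h N x R a1 a2 ?_⟩
      refine le_trans (le_of_eq ?_) a3
      congr!) L) C hC b S hall ε hε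
  obtain ⟨N, hN, r, hW, hb⟩ := hL k N₀
  exact absurd (h N hN r hW) (not_le.2 hb)

theorem fam_primes (C : ℝ) (hC : 1 < C) (α θ' : ℝ)
    (hall : ∀ (D : Dat) (ε : ℝ), 0 < ε → ∃ N₀ : ℕ, ∀ y : ℕ,
      N₀ ≤ y → ∀ l : ℕ, 0 < l → Real.log l ≤ √y →
        (#(badG D ε (C * Real.log y) ((y : ℝ) ^ α) l y) : ℝ) ≤ 2 * (y : ℝ) ^ θ')
    (ε : ℝ) (hε : 0 < ε) :
    ∃ δ : ℝ, 0 < δ ∧ ∀ L : ℕ, ∃ N₀ : ℕ, ∀ y : ℕ, N₀ ≤ y → ∀ r : ℕ+, Wr δ L y r →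
      ∀ l : ℕ, 0 < l → Real.log l ≤ √y →
        (#(badG (datT r) ε (C * Real.log y) ((y : ℝ) ^ α) l y) : ℝ) ≤ 2 * (y : ℝ) ^ θ' := by
  classical
  obtain ⟨C1, hC1, hmU⟩ := mean_U
  by_contra hcon
  push Not at hcon
  have hk : ∀ k : ℕ, ∃ L : ℕ, ∀ N₀ : ℕ, ∃ y : ℕ, N₀ ≤ y ∧ ∃ r : ℕ+,
      Wr (1 / (2 * C1 * (k + 1))) L y r ∧ ∃ l : ℕ, 0 < l ∧ Real.log l ≤ √y ∧
        2 * (y : ℝ) ^ θ' < (#(badG (datT r) ε (C * Real.log y) ((y : ℝ) ^ α) l y) : ℝ) :=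
    fun k => hcon _ (by positivity)
  choose L hL using hk
  obtain ⟨k, N₀, h⟩ := unif_primes datT artinC hQ_two.choose datT_A (fun i => (datT_p0 i).le) 1
    (fun k N r => Wr (1 / (2 * C1 * (k + 1))) (L k) N r) (hmean_two C1 hC1 (by
      intro δ L' ε' hε'
      obtain ⟨x0, h⟩ := hmU δ L' ε' hε'
      refine ⟨x0, fun N x R a1 a2 a3 => h N x R a1 a2 ?_⟩
      refine le_trans (le_of_eq ?_) a3
      congr!) L) C hC α θ' hall ε hε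
  obtain ⟨y, hy, r, hW, l, hl, hll, hb⟩ := hL k N₀
  exact absurd (h y hy r hW l hl hll) (not_le.2 hb)

end Pool.Agent.W171.LG
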