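import Pool.Agent.W171.LG.Tail

/-! # Lenstra's density for generic `n` is close to the main term -/

set_option autoImplicit false
set_option linter.unusedSectionVars false

namespace Pool.Agent.W171.LG

open NumberField IntermediateField Filter Topology
open Pool.Agent.W401.Cheb
open Pool.Agent.H981R3.LN (ql Sk Qn Qn_dvd Qn_pos)
open Pool.Agent.H730R2.AA.Euler (mu_eq_prod summable_bound sqrt_le_totient)

/-- `n` has a prime factor `> P`, exactly once -/
def Gen (P n : ℕ) : Prop := ∃ p : ℕ, p.Prime ∧ P < p ∧ p ∣ n ∧ ¬ p ^ 2 ∣ n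

lemma not_pow_gen {D : ℚˣ} {n p : ℕ} (hp : p.Prime) (hD : Un p (D : ℚ)) (hn : n ≠ 0) (h1 : p ∣ n)
    (h2 : ¬ p ^ 2 ∣ n) {r : ℕ} (hr : r.Prime) (c : ℚ) : c ^ r ≠ ((Dn D n : ℚˣ) : ℚ) := by
  intro hc
  have : Fact p.Prime := ⟨hp⟩
  have hn0 : (n : ℚ) ≠ 0 := by exact_mod_cast hn
  have hc0 : c ≠ 0 := by
    rintro rfl
    rw [zero_pow hr.ne_zero] at hc
    exact (Dn D n).ne_zero hc.symm
  have e1 : padicValRat p ((Dn D n : ℚˣ) : ℚ) = 1 := by
    rw [Dn_val D hn, padicValRat.mul D.ne_zero hn0, (un_iff D.ne_zero).1 hD, zero_add,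
      padicValRat.of_nat]
    have h3 : padicValNat p n = 1 := by
      apply le_antisymm
      · by_contra hcon
        push Not at hcon
        exact h2 ((padicValNat_dvd_iff_le hn).2 hcon)
      · exact one_le_padicValNat_of_dvd hn h1
    rw [h3]
    rfl
  rw [← hc, padicValRat.pow] at e1
  have h4 : (r : ℤ) ∣ 1 := ⟨_, e1.symm⟩
  have h5 := Int.eq_one_of_dvd_one (by omega) h4
  have := hr.one_lt
  omega

section
variable (F : IntermediateField ℚ QA) [NumberField F] [IsGalois ℚ F] (C : Set Gal(F/ℚ))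
  (W W0 : Subgroup ℚˣ) (k : ℕ)

/-- the terms of Lenstra's density -/
noncomputable def tW (n : ℕ) : ℝ :=
  ((ArithmeticFunction.moebius n : ℤ) : ℝ) * (cE F C (Lf QA W (Qn k n)) : ℝ) /
    (Module.finrank ℚ (F ⊔ Lf QA W (Qn k n) : IntermediateField ℚ QA) : ℝ)

variable {W W0}

lemma tW_bound (hW : W.FG) {u : ℚˣ} (hu : u ∈ W)
    (hur : ∀ r : ℕ, r.Prime → r ≠ 2 → ∀ c : ℚ, c ^ r ≠ (u : ℚ)) (n : ℕ) :
    ‖tW F C W k n‖ ≤ 2 * (Nat.card Gal(F/ℚ) : ℝ) * (2 * (1 / (n : ℝ) ^ (3 / 2 : ℝ))) := by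
  rw [Real.norm_eq_abs]
  by_cases hs : Squarefree n
  · have hn : 0 < n := Nat.pos_of_ne_zero hs.ne_zero
    have hn0 : (0 : ℝ) < n := by exact_mod_cast hn
    unfold tW
    set Q := Qn k n with hQ
    have hQ0 : 0 < Q := Qn_pos k n
    have hnQ : n ∣ Q := Qn_dvd k n hs
    -- the odd part
    obtain ⟨e, he, he2, hne⟩ : ∃ e : ℕ, e ∣ n ∧ ¬ 2 ∣ e ∧ n ≤ 2 * e := by
      by_cases h2 : 2 ∣ n
      · obtain ⟨e, rfl⟩ := h2
        refine ⟨e, Dvd.intro_left 2 rfl, fun h => ?_, le_rfl⟩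
        obtain ⟨t, rfl⟩ := h
        have := hs 2 ⟨t, by ring⟩
        exact absurd (Nat.isUnit_iff.1 this) (by norm_num)
      · exact ⟨n, dvd_rfl, h2, by omega⟩
    set d := Module.finrank ℚ (F ⊔ Lf QA W Q : IntermediateField ℚ QA) with hd
    have hdt : Nat.totient Q * e ≤ d := low_deg F hW hu hur hQ0 (he.trans hnQ) he2
    have ht : Nat.totient n ≤ Nat.totient Q :=
      Nat.le_of_dvd (Nat.totient_pos.2 hQ0) (Nat.totient_dvd_of_dvd hnQ)
    have ht0 : 0 < Nat.totient n := Nat.totient_pos.2 hn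
    have h1 : |((ArithmeticFunction.moebius n : ℤ) : ℝ)| ≤ 1 := by
      exact_mod_cast ArithmeticFunction.abs_moebius_le_one (n := n)
    have h2 : (cE F C (Lf QA W Q) : ℝ) ≤ (Nat.card Gal(F/ℚ) : ℝ) := by
      exact_mod_cast cE_le F C _
    have h3 := sqrt_le_totient n hn
    have h4 : (n : ℝ) ≤ 2 * e := by exact_mod_cast hne
    have h5 : (Nat.totient Q : ℝ) * e ≤ d := by exact_mod_cast hdt
    have h5' : (Nat.totient n : ℝ) ≤ Nat.totient Q := by exact_mod_cast ht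
    have h6 : (0 : ℝ) < Nat.totient n := by exact_mod_cast ht0
    have h7 : (n : ℝ) ^ (3 / 2 : ℝ) = n * Real.sqrt n := by
      rw [show (3 / 2 : ℝ) = 1 + 1 / 2 by norm_num, Real.rpow_add hn0, Real.rpow_one,
        ← Real.sqrt_eq_rpow]
    have hs0 : 0 < Real.sqrt n := Real.sqrt_pos.mpr hn0
    have h8 : (n : ℝ) * Real.sqrt n ≤ 4 * (d : ℝ) := by
      calc (n : ℝ) * Real.sqrt n ≤ (2 * e) * (2 * Nat.totient n) := by gcongr
        _ ≤ (2 * e) * (2 * Nat.totient Q) := by gcongr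
        _ = 4 * (Nat.totient Q * e) := by ring
        _ ≤ _ := by gcongr
    have h9 : (0 : ℝ) < (d : ℝ) := by
      have : (0 : ℝ) < n * Real.sqrt n := by positivity
      linarith
    rw [abs_div, abs_of_pos h9, abs_mul, Nat.abs_cast, h7]
    rw [div_le_iff₀ h9]
    have hc0 : (0 : ℝ) ≤ cE F C (Lf QA W Q) := Nat.cast_nonneg _
    have hA0 : (0 : ℝ) ≤ Nat.card Gal(F/ℚ) := Nat.cast_nonneg _
    calc |((ArithmeticFunction.moebius n : ℤ) : ℝ)| * (cE F C (Lf QA W Q) : ℝ)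
        ≤ 1 * Nat.card Gal(F/ℚ) := by gcongr
      _ = Nat.card Gal(F/ℚ) := one_mul _
      _ = Nat.card Gal(F/ℚ) * (1 / (n * Real.sqrt n) * (n * Real.sqrt n)) := by field_simp
      _ ≤ Nat.card Gal(F/ℚ) * (1 / (n * Real.sqrt n) * (4 * (d : ℝ))) := by gcongr
      _ = _ := by ring
  · have h0 : tW F C W k n = 0 := by
      unfold tW
      rw [ArithmeticFunction.moebius_eq_zero_of_not_squarefree hs]
      simp
    rw [h0, abs_zero]
    positivity

lemma tW_eq (hW0 : W0.FG) {D : ℚˣ} {n p : ℕ} (hp : p.Prime) (hD : Un p (D : ℚ)) (hn : n ≠ 0)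
    (h1 : p ∣ n) (h2 : ¬ p ^ 2 ∣ n) {e : ℕ}
    (hd : ∀ _ : NumberField (F ⊔ Lf QA W0 (Qn k e) : IntermediateField ℚ QA),
      ¬ (p : ℤ) ∣ discr (F ⊔ Lf QA W0 (Qn k e) : IntermediateField ℚ QA)) :
    tW F C (W0 ⊔ Subgroup.zpowers (Dn D n)) k e = aT F C W0 k e := by
  have hQ0 : 0 < Qn k e := Qn_pos k e
  have hfin := supF_fin F hW0 hQ0
  have hN : NumberField (F ⊔ Lf QA W0 (Qn k e) : IntermediateField ℚ QA) :=
    { to_charZero := inferInstance, to_finiteDimensional := hfin }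
  have H : ∀ r : ℕ, r.Prime → r ∣ Qn k e → ∀ b : QA, b ∈ F ⊔ Lf QA W0 (Qn k e) →
      b ^ r ≠ algebraMap ℚ QA ((Dn D n : ℚˣ) : ℚ) :=
    fun r hr _ b hb => no_root_gen _ hp hD hn h1 h2 (hd hN) hr b hb
  unfold tW aT
  rw [cE_gen F C hW0 hQ0 H, deg_gen F hQ0 H]
  push_cast
  rw [mul_comm ((Module.finrank ℚ (F ⊔ Lf QA W0 (Qn k e) : IntermediateField ℚ QA) : ℝ))]

/-- **Lenstra's density for generic `n`** -/
theorem close (hW0 : W0.FG) (D : ℚˣ) (ε : ℝ) (hε : 0 < ε) : ∃ P0 : ℕ, ∀ n : ℕ, n ≠ 0 → Gen P0 n →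
    |(∑' e : ℕ, tW F C (W0 ⊔ Subgroup.zpowers (Dn D n)) k e) - ∑' e : ℕ, aT F C W0 k e| ≤ ε := by
  classical
  set c : ℝ := (Nat.card Gal(F/ℚ) : ℝ) with hc
  have hc0 : 0 ≤ c := Nat.cast_nonneg _
  set f : ℕ → ℝ := fun e => 3 * c * (2 * (1 / (e : ℝ) ^ (3 / 2 : ℝ))) with hf
  have hfs : Summable f := summable_bound.mul_left _
  have hf0 : ∀ e, 0 ≤ f e := fun e => by
    simp only [hf]
    positivity
  -- the tail of `f`
  have htail : Tendsto (fun z : ℕ => ∑' e : ℕ, f (e + z)) atTop (𝓝 0) := by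
    exact tendsto_sum_nat_add f
  obtain ⟨z, hz⟩ := ((Metric.tendsto_atTop.1 htail) ε hε)
  have hz' := hz z le_rfl
  rw [Real.dist_eq, sub_zero] at hz'
  have hDf : (Subgroup.zpowers D).FG := ⟨{D}, by simp [Subgroup.zpowers_eq_closure]⟩
  obtain ⟨E', hE', hU'⟩ := exists_unW hDf
  -- discriminants
  have hdisc : ∀ e : ℕ, ∃ B : ℕ, ∀ _ : NumberField (F ⊔ Lf QA W0 (Qn k e) : IntermediateField ℚ QA),
      ∀ p : ℕ, B < p → ¬ (p : ℤ) ∣ discr (F ⊔ Lf QA W0 (Qn k e) : IntermediateField ℚ QA) := by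
    intro e
    have hfin := supF_fin F hW0 (Qn_pos k e)
    have hN : NumberField (F ⊔ Lf QA W0 (Qn k e) : IntermediateField ℚ QA) :=
      { to_charZero := inferInstance, to_finiteDimensional := hfin }
    refine ⟨(discr (F ⊔ Lf QA W0 (Qn k e) : IntermediateField ℚ QA)).natAbs, fun _ p hp h => ?_⟩
    have h1 : p ∣ (discr (F ⊔ Lf QA W0 (Qn k e) : IntermediateField ℚ QA)).natAbs :=
      Int.natCast_dvd.1 h
    have h2 := Nat.le_of_dvd (Int.natAbs_pos.2 (discr_ne_zero _)) h1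
    omega
  choose B hB using hdisc
  refine ⟨E' + (Finset.range z).sup B, fun n hn hG => ?_⟩
  obtain ⟨p, hp, hPp, h1, h2⟩ := hG
  have : Fact p.Prime := ⟨hp⟩
  have hD : Un p (D : ℚ) := hU' p (fun h => by
    have := Nat.le_of_dvd hE' h
    omega) D (Subgroup.mem_zpowers D)
  set W := W0 ⊔ Subgroup.zpowers (Dn D n) with hW
  have hWfg : W.FG := hW0.sup ⟨{Dn D n}, by simp [Subgroup.zpowers_eq_closure]⟩
  have hu : Dn D n ∈ W := Subgroup.mem_sup_right (Subgroup.mem_zpowers _)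
  have hb := tW_bound F C k hWfg hu (fun r hr _ c => not_pow_gen hp hD hn h1 h2 hr c)
  have hts : Summable (tW F C W k) := Summable.of_norm_bounded (summable_bound.mul_left _) hb
  have has := aT_summable F C k hW0
  rw [← hts.tsum_sub has]
  have hzero : ∀ e < z, tW F C W k e - aT F C W0 k e = 0 := by
    intro e he
    rw [sub_eq_zero]
    refine tW_eq F C k hW0 hp hD hn h1 h2 fun hN => hB e hN p ?_
    have := Finset.le_sup (f := B) (Finset.mem_range.2 he)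
    omega
  have hdiff : ∀ e, ‖tW F C W k e - aT F C W0 k e‖ ≤ f e := by
    intro e
    refine (norm_sub_le _ _).trans ?_
    have := hb e
    have := aT_bound F C k hW0 e
    simp only [hf]
    linarith
  have hsum := hts.sub has
  rw [← hsum.sum_add_tsum_nat_add z, Finset.sum_eq_zero (fun e he => hzero e (Finset.mem_range.1 he)),
    zero_add, ← Real.norm_eq_abs]
  refine (tsum_of_norm_bounded ((summable_nat_add_iff z).2 hfs).hasSum fun e => hdiff (e + z)).trans ?_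
  exact (le_abs_self _).trans hz'.le

end

end Pool.Agent.W171.LG
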