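import Pool.Agent.W171.LG.GenericR
import Pool.Agent.W171.LG.Close

/-! # Lenstra's density for generic `n` is close to the main term, groups `W₀ ⬝ ⟨D n ^ r⟩` -/

set_option autoImplicit false
set_option linter.unusedSectionVars false

namespace Pool.Agent.W171.LG

open NumberField IntermediateField Filter Topology
open Pool.Agent.W401.Cheb
open Pool.Agent.H981R3.LN (ql Sk Qn Qn_dvd Qn_pos)
open Pool.Agent.H730R2.AA.Euler (mu_eq_prod summable_bound sqrt_le_totient)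

lemma qK_prime {r k e s : ℕ} (hr : r ≠ 0) (hs : s.Prime) (h : s ∣ qK r.primeFactors k e) :
    ¬ s ∣ r := by
  classical
  unfold qK at h
  rw [hs.prime.dvd_finsetProd_iff] at h
  obtain ⟨l, hl, hsl⟩ := h
  rw [Finset.mem_filter] at hl
  have hlp := Nat.prime_of_mem_primeFactors hl.1
  unfold ql at hsl
  have h1 : s = l := (Nat.prime_dvd_prime_iff_eq hs hlp).1 (hs.dvd_of_dvd_pow hsl)
  intro h2
  rw [h1] at h2
  exact hl.2 (Nat.mem_primeFactors.2 ⟨hlp, h2, hr⟩)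

lemma odd_part {n ρ : ℕ} (hn : Squarefree n) (hρ : 0 < ρ) :
    ∃ e : ℕ, e ∣ n ∧ (∀ s : ℕ, s.Prime → s ∣ e → ¬ s ∣ 2 * ρ) ∧ n ≤ 2 * ρ * e := by
  obtain ⟨e, he⟩ := Nat.gcd_dvd_left n (2 * ρ)
  refine ⟨e, Dvd.intro_left _ he.symm, fun s hs hse hs2 => ?_, ?_⟩
  · have h1 : s ∣ Nat.gcd n (2 * ρ) := by
      refine Nat.dvd_gcd ?_ hs2
      rw [he]
      exact hse.mul_left _
    have h2 : s * s ∣ n := by
      rw [he]
      exact mul_dvd_mul h1 hse
    exact hs.one_lt.ne' (Nat.isUnit_iff.1 (hn s h2))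
  · have h1 : Nat.gcd n (2 * ρ) ≤ 2 * ρ := Nat.le_of_dvd (by omega) (Nat.gcd_dvd_right _ _)
    calc n = Nat.gcd n (2 * ρ) * e := he
      _ ≤ _ := Nat.mul_le_mul_right _ h1

section
variable (F : IntermediateField ℚ QA) [NumberField F] [IsGalois ℚ F] (C : Set Gal(F/ℚ))
  {W W0 : Subgroup ℚˣ} (k : ℕ)

lemma tW_boundR (hW : W.FG) {u : ℚˣ} (hu : u ∈ W) {r : ℕ} (hr : 0 < r)
    (hur : ∀ s : ℕ, s.Prime → ¬ s ∣ r → ∀ c : ℚ, c ^ s ≠ (u : ℚ)) (n : ℕ) :
    ‖tW F C W k n‖ ≤ 2 * (r : ℝ) * (Nat.card Gal(F/ℚ) : ℝ) * (2 * (1 / (n : ℝ) ^ (3 / 2 : ℝ))) := by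
  rw [Real.norm_eq_abs]
  by_cases hs : Squarefree n
  · have hn : 0 < n := Nat.pos_of_ne_zero hs.ne_zero
    have hn0 : (0 : ℝ) < n := by exact_mod_cast hn
    unfold tW
    set Q := Qn k n with hQ
    have hQ0 : 0 < Q := Qn_pos k n
    have hnQ : n ∣ Q := Qn_dvd k n hs
    -- the odd part
    obtain ⟨e, he, he2, hne⟩ := odd_part hs hr
    set d := Module.finrank ℚ (F ⊔ Lf QA W Q : IntermediateField ℚ QA) with hd
    have hdt : Nat.totient Q * e ≤ d := low_degR F hW hu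
      (fun s hs hse c => hur s hs (fun h => he2 s hs hse (h.mul_left 2)) c) hQ0 (he.trans hnQ)
      (fun h => he2 2 Nat.prime_two h (Dvd.intro _ rfl))
    have ht : Nat.totient n ≤ Nat.totient Q :=
      Nat.le_of_dvd (Nat.totient_pos.2 hQ0) (Nat.totient_dvd_of_dvd hnQ)
    have ht0 : 0 < Nat.totient n := Nat.totient_pos.2 hn
    have h1 : |((ArithmeticFunction.moebius n : ℤ) : ℝ)| ≤ 1 := by
      exact_mod_cast ArithmeticFunction.abs_moebius_le_one (n := n)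
    have h2 : (cE F C (Lf QA W Q) : ℝ) ≤ (Nat.card Gal(F/ℚ) : ℝ) := by
      exact_mod_cast cE_le F C _
    have h3 := sqrt_le_totient n hn
    have h4 : (n : ℝ) ≤ 2 * (r : ℝ) * e := by exact_mod_cast hne
    have h5 : (Nat.totient Q : ℝ) * e ≤ d := by exact_mod_cast hdt
    have h5' : (Nat.totient n : ℝ) ≤ Nat.totient Q := by exact_mod_cast ht
    have h6 : (0 : ℝ) < Nat.totient n := by exact_mod_cast ht0
    have h7 : (n : ℝ) ^ (3 / 2 : ℝ) = n * Real.sqrt n := by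
      rw [show (3 / 2 : ℝ) = 1 + 1 / 2 by norm_num, Real.rpow_add hn0, Real.rpow_one,
        ← Real.sqrt_eq_rpow]
    have hs0 : 0 < Real.sqrt n := Real.sqrt_pos.mpr hn0
    have h8 : (n : ℝ) * Real.sqrt n ≤ 4 * (r : ℝ) * (d : ℝ) := by
      calc (n : ℝ) * Real.sqrt n ≤ (2 * (r : ℝ) * e) * (2 * Nat.totient n) := by gcongr
        _ ≤ (2 * (r : ℝ) * e) * (2 * Nat.totient Q) := by gcongr
        _ = 4 * (r : ℝ) * (Nat.totient Q * e) := by ring
        _ ≤ _ := by gcongr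
    have hr0 : (0 : ℝ) < r := by exact_mod_cast hr
    have h9 : (0 : ℝ) < (d : ℝ) := by
      have h10 : (0 : ℝ) < 4 * (r : ℝ) * (d : ℝ) := lt_of_lt_of_le (by positivity) h8
      exact (pos_iff_pos_of_mul_pos h10).1 (by positivity)
    rw [abs_div, abs_of_pos h9, abs_mul, Nat.abs_cast, h7]
    rw [div_le_iff₀ h9]
    have hc0 : (0 : ℝ) ≤ cE F C (Lf QA W Q) := Nat.cast_nonneg _
    have hA0 : (0 : ℝ) ≤ Nat.card Gal(F/ℚ) := Nat.cast_nonneg _
    calc |((ArithmeticFunction.moebius n : ℤ) : ℝ)| * (cE F C (Lf QA W Q) : ℝ)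
        ≤ 1 * Nat.card Gal(F/ℚ) := by gcongr
      _ = Nat.card Gal(F/ℚ) := one_mul _
      _ = Nat.card Gal(F/ℚ) * (1 / (n * Real.sqrt n) * (n * Real.sqrt n)) := by field_simp
      _ ≤ Nat.card Gal(F/ℚ) * (1 / (n * Real.sqrt n) * (4 * (r : ℝ) * (d : ℝ))) := by gcongr
      _ = _ := by ring
  · have h0 : tW F C W k n = 0 := by
      unfold tW
      rw [ArithmeticFunction.moebius_eq_zero_of_not_squarefree hs]
      simp
    rw [h0, abs_zero]
    positivity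

lemma tW_eqR (hW0 : W0.FG) {D : ℚˣ} {r n p : ℕ} (hr : r ≠ 0)
    (hrk : ∀ l : ℕ, l.Prime → l ∣ r → ql k l ∣ r) (hp : p.Prime) (hD : Un p (D : ℚ)) (hn : n ≠ 0)
    (h1 : p ∣ n) (h2 : ¬ p ^ 2 ∣ n) {e : ℕ}
    (hd : ∀ _ : NumberField (F ⊔ L2 (W0 ⊔ Subgroup.zpowers D) W0 k r.primeFactors e :
      IntermediateField ℚ QA), ¬ (p : ℤ) ∣ discr (F ⊔ L2 (W0 ⊔ Subgroup.zpowers D) W0 k
        r.primeFactors e : IntermediateField ℚ QA)) :
    tW F C (W0 ⊔ Subgroup.zpowers (DR D r n)) k e =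
      aR F C (W0 ⊔ Subgroup.zpowers D) W0 k r.primeFactors e := by
  have hW1 : (W0 ⊔ Subgroup.zpowers D).FG := hW0.sup ⟨{D}, by simp [Subgroup.zpowers_eq_closure]⟩
  have hQ0 : 0 < qK r.primeFactors k e := qK_pos _ k e
  have hfin := L2_fin F k r.primeFactors hW1 hW0 e
  have hN : NumberField (F ⊔ L2 (W0 ⊔ Subgroup.zpowers D) W0 k r.primeFactors e :
      IntermediateField ℚ QA) :=
    { to_charZero := inferInstance, to_finiteDimensional := hfin }
  obtain ⟨α, hα⟩ := IsAlgClosed.exists_pow_nat_eq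
    (algebraMap ℚ QA ((DR D r n : ℚˣ) : ℚ)) hQ0
  have hroot : ∀ z : QA, z ^ qK r.primeFactors k e = 1 →
      z ∈ L2 (W0 ⊔ Subgroup.zpowers D) W0 k r.primeFactors e := by
    intro z hz
    refine root_L2 k r.primeFactors ?_
    rw [← qJK r.primeFactors k e, mul_comm, pow_mul, hz, one_pow]
  have H : ∀ s : ℕ, s.Prime → s ∣ qK r.primeFactors k e → ∀ b : QA,
      b ∈ F ⊔ L2 (W0 ⊔ Subgroup.zpowers D) W0 k r.primeFactors e →
      b ^ s ≠ algebraMap ℚ QA ((DR D r n : ℚˣ) : ℚ) :=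
    fun s hs hsq b hb => no_root_genR _ hp hD hn h1 h2 (hd hN) hs (qK_prime hr hs hsq) b hb
  unfold tW aR
  rw [Lf_R hrk hn hα, cE_genL F C hfin hQ0 hroot hα H, deg_genL F hQ0 hroot hα H]
  push_cast
  rw [mul_comm ((Module.finrank ℚ (F ⊔ L2 (W0 ⊔ Subgroup.zpowers D) W0 k r.primeFactors e :
    IntermediateField ℚ QA) : ℝ))]

/-- **Lenstra's density for generic `n`** -/
theorem closeR (hW0 : W0.FG) (D : ℚˣ) {r : ℕ} (hr : 0 < r)
    (hrk : ∀ l : ℕ, l.Prime → l ∣ r → ql k l ∣ r) (ε : ℝ) (hε : 0 < ε) :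
    ∃ P0 : ℕ, ∀ n : ℕ, n ≠ 0 → Gen P0 n →
    |(∑' e : ℕ, tW F C (W0 ⊔ Subgroup.zpowers (DR D r n)) k e) -
      ∑' e : ℕ, aR F C (W0 ⊔ Subgroup.zpowers D) W0 k r.primeFactors e| ≤ ε := by
  classical
  have hRp : ∀ l ∈ r.primeFactors, l.Prime := fun l hl => Nat.prime_of_mem_primeFactors hl
  have hW1 : (W0 ⊔ Subgroup.zpowers D).FG := hW0.sup ⟨{D}, by simp [Subgroup.zpowers_eq_closure]⟩
  set c : ℝ := (Nat.card Gal(F/ℚ) : ℝ) with hc
  have hc0 : 0 ≤ c := Nat.cast_nonneg _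
  set ρ : ℝ := ((∏ l ∈ r.primeFactors, l : ℕ) : ℝ) with hρ
  have hρ0 : 0 ≤ ρ := Nat.cast_nonneg _
  set f : ℕ → ℝ := fun e => (2 * (r : ℝ) * c + c * ρ) * (2 * (1 / (e : ℝ) ^ (3 / 2 : ℝ))) with hf
  have hfs : Summable f := summable_bound.mul_left _
  -- the tail of `f`
  have htail : Tendsto (fun z : ℕ => ∑' e : ℕ, f (e + z)) atTop (𝓝 0) := by
    exact tendsto_sum_nat_add f
  obtain ⟨z, hz⟩ := ((Metric.tendsto_atTop.1 htail) ε hε)
  have hz' := hz z le_rfl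
  rw [Real.dist_eq, sub_zero] at hz'
  have hDf : (Subgroup.zpowers D).FG := ⟨{D}, by simp [Subgroup.zpowers_eq_closure]⟩
  obtain ⟨E', hE', hU'⟩ := exists_unW hDf
  -- discriminants
  have hdisc : ∀ e : ℕ, ∃ B : ℕ, ∀ _ : NumberField (F ⊔ L2 (W0 ⊔ Subgroup.zpowers D) W0 k
      r.primeFactors e : IntermediateField ℚ QA),
      ∀ p : ℕ, B < p → ¬ (p : ℤ) ∣ discr (F ⊔ L2 (W0 ⊔ Subgroup.zpowers D) W0 k
      r.primeFactors e : IntermediateField ℚ QA) := by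
    intro e
    have hfin := L2_fin F k r.primeFactors hW1 hW0 e
    have hN : NumberField (F ⊔ L2 (W0 ⊔ Subgroup.zpowers D) W0 k
      r.primeFactors e : IntermediateField ℚ QA) :=
      { to_charZero := inferInstance, to_finiteDimensional := hfin }
    refine ⟨(discr (F ⊔ L2 (W0 ⊔ Subgroup.zpowers D) W0 k
      r.primeFactors e : IntermediateField ℚ QA)).natAbs, fun _ p hp h => ?_⟩
    have h1 : p ∣ (discr (F ⊔ L2 (W0 ⊔ Subgroup.zpowers D) W0 k
      r.primeFactors e : IntermediateField ℚ QA)).natAbs :=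
      Int.natCast_dvd.1 h
    have h2 := Nat.le_of_dvd (Int.natAbs_pos.2 (discr_ne_zero _)) h1
    omega
  choose B hB using hdisc
  refine ⟨E' + (Finset.range z).sup B, fun n hn hG => ?_⟩
  obtain ⟨p, hp, hPp, h1, h2⟩ := hG
  have : Fact p.Prime := ⟨hp⟩
  have hD : Un p (D : ℚ) := hU' p (fun h => by
    have := Nat.le_of_dvd hE' h
    omega) D (Subgroup.mem_zpowers D)
  set W := W0 ⊔ Subgroup.zpowers (DR D r n) with hW
  have hWfg : W.FG := hW0.sup ⟨{DR D r n}, by simp [Subgroup.zpowers_eq_closure]⟩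
  have hu : DR D r n ∈ W := Subgroup.mem_sup_right (Subgroup.mem_zpowers _)
  have hb := tW_boundR F C k hWfg hu hr (fun s hs hsr c => not_pow_genR hp hD hn h1 h2 hs hsr c)
  have hts : Summable (tW F C W k) := Summable.of_norm_bounded (summable_bound.mul_left _) hb
  have has := aR_summable F C k r.primeFactors hW1 hW0 hRp
  rw [← hts.tsum_sub has]
  have hzero : ∀ e < z, tW F C W k e -
      aR F C (W0 ⊔ Subgroup.zpowers D) W0 k r.primeFactors e = 0 := by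
    intro e he
    rw [sub_eq_zero]
    refine tW_eqR F C k hW0 hr.ne' hrk hp hD hn h1 h2 fun hN => hB e hN p ?_
    have := Finset.le_sup (f := B) (Finset.mem_range.2 he)
    omega
  have hdiff : ∀ e, ‖tW F C W k e -
      aR F C (W0 ⊔ Subgroup.zpowers D) W0 k r.primeFactors e‖ ≤ f e := by
    intro e
    refine (norm_sub_le _ _).trans ?_
    have := hb e
    have := aR_bound F C k r.primeFactors hW1 hW0 hRp e
    simp only [hf]
    linarith
  have hsum := hts.sub has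
  rw [← hsum.sum_add_tsum_nat_add z, Finset.sum_eq_zero (fun e he => hzero e (Finset.mem_range.1 he)),
    zero_add, ← Real.norm_eq_abs]
  refine (tsum_of_norm_bounded ((summable_nat_add_iff z).2 hfs).hasSum fun e => hdiff (e + z)).trans ?_
  exact (le_abs_self _).trans hz'.le

end

end Pool.Agent.W171.LG
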