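import Mathlib

/-! # The fields generated by the roots of the elements of a subgroup of `kˣ` -/

set_option autoImplicit false

namespace Pool.Agent.W171.LG

open IntermediateField

variable {k Ω : Type*} [Field k] [Field Ω] [Algebra k Ω]

/-- the set of the `q`-th roots of the elements of `W` -/
def RtS (Ω : Type*) [Field Ω] [Algebra k Ω] (W : Subgroup kˣ) (q : ℕ) : Set Ω :=
  {z | ∃ w ∈ W, z ^ q = algebraMap k Ω (w : k)}

/-- the field generated by the `q`-th roots of the elements of `W` -/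
noncomputable def Lf (Ω : Type*) [Field Ω] [Algebra k Ω] (W : Subgroup kˣ) (q : ℕ) :
    IntermediateField k Ω := adjoin k (RtS Ω W q)

lemma Lf_mono {W W' : Subgroup kˣ} (h : W ≤ W') (q : ℕ) : Lf Ω W q ≤ Lf Ω W' q :=
  adjoin.mono _ _ _ fun _ ⟨w, hw, hz⟩ => ⟨w, h hw, hz⟩

lemma Lf_normal [Normal k Ω] (W : Subgroup kˣ) (q : ℕ) : Normal k (Lf Ω W q) := by
  rw [normal_iff_forall_map_le]
  intro σ
  unfold Lf
  rw [adjoin_map]
  apply adjoin.mono
  rintro _ ⟨z, ⟨w, hw, hz⟩, rfl⟩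
  refine ⟨w, hw, ?_⟩
  rw [← map_pow, hz, AlgHom.commutes]

/-- the roots lie in the field generated by the roots of the generators -/
lemma root_mem [IsAlgClosed Ω] (S : Set kˣ) {q : ℕ} (hq : 0 < q) (E : IntermediateField k Ω)
    (h1 : ∀ z : Ω, z ^ q = 1 → z ∈ E)
    (hS : ∀ w ∈ S, ∀ z : Ω, z ^ q = algebraMap k Ω (w : k) → z ∈ E) {w : kˣ}
    (hw : w ∈ Subgroup.closure S) : ∀ z : Ω, z ^ q = algebraMap k Ω (w : k) → z ∈ E := by
  induction hw using Subgroup.closure_induction with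
  | mem w hw => exact hS w hw
  | one =>
    intro z hz
    exact h1 z (by rw [hz]; simp)
  | mul a b _ _ iha ihb =>
    intro z hz
    obtain ⟨x, hx⟩ := IsAlgClosed.exists_pow_nat_eq (algebraMap k Ω (a : k)) hq
    have ha : algebraMap k Ω (a : k) ≠ 0 := by
      rw [Ne, map_eq_zero]
      exact a.ne_zero
    have hx0 : x ≠ 0 := by
      rintro rfl
      rw [zero_pow hq.ne'] at hx
      exact ha hx.symm
    have h2 : (z / x) ^ q = algebraMap k Ω (b : k) := by
      rw [div_pow, hz, hx]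
      rw [Units.val_mul, map_mul]
      field_simp
    have h3 := E.mul_mem (ihb _ h2) (iha _ hx)
    rwa [div_mul_cancel₀ _ hx0] at h3
  | inv a _ iha =>
    intro z hz
    have h2 : (z⁻¹) ^ q = algebraMap k Ω (a : k) := by
      rw [inv_pow, hz, ← map_inv₀]
      congr 1
      simp
    have h3 := E.inv_mem (iha _ h2)
    rwa [inv_inv] at h3

/-- the roots of `X ^ q - a` -/
lemma finite_roots {q : ℕ} (hq : 0 < q) (a : Ω) : {z : Ω | z ^ q = a}.Finite := by
  classical
  refine Set.Finite.subset (Polynomial.nthRoots q a).toFinset.finite_toSet fun z hz => ?_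
  rw [Finset.mem_coe, Multiset.mem_toFinset, Polynomial.mem_nthRoots hq]
  exact hz

lemma Lf_le_finite [IsAlgClosed Ω] (S : Set kˣ) {q : ℕ} (hq : 0 < q) :
    Lf Ω (Subgroup.closure S) q ≤
      adjoin k ({z : Ω | z ^ q = 1} ∪ ⋃ w ∈ S, {z : Ω | z ^ q = algebraMap k Ω (w : k)}) := by
  unfold Lf
  rw [adjoin_le_iff]
  rintro z ⟨w, hw, hz⟩
  refine root_mem S hq _ ?_ ?_ hw z hz
  · intro z hz
    exact subset_adjoin _ _ (Or.inl hz)
  · intro w hw z hz
    refine subset_adjoin _ _ (Or.inr ?_)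
    rw [Set.mem_iUnion₂]
    exact ⟨w, hw, hz⟩

lemma Lf_fin [IsAlgClosed Ω] {W : Subgroup kˣ} (hW : W.FG) {q : ℕ} (hq : 0 < q) :
    FiniteDimensional k (Lf Ω W q) := by
  obtain ⟨S, hS⟩ := hW
  have h1 := Lf_le_finite (Ω := Ω) (S : Set kˣ) hq
  rw [hS] at h1
  have h2 : ({z : Ω | z ^ q = 1} ∪ ⋃ w ∈ (S : Set kˣ), {z : Ω | z ^ q = algebraMap k Ω (w : k)}).Finite := by
    refine (finite_roots hq 1).union ?_
    exact S.finite_toSet.biUnion fun w _ => finite_roots hq _
  have h3 : FiniteDimensional k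
      (adjoin k ({z : Ω | z ^ q = 1} ∪ ⋃ w ∈ (S : Set kˣ), {z : Ω | z ^ q = algebraMap k Ω (w : k)})) := by
    have := h2.to_subtype
    refine finiteDimensional_adjoin fun z hz => ?_
    rcases hz with hz | hz
    · refine IsIntegral.of_pow hq ?_
      rw [hz]
      exact isIntegral_one
    · rw [Set.mem_iUnion₂] at hz
      obtain ⟨w, _, hz⟩ := hz
      refine IsIntegral.of_pow hq ?_
      rw [hz]
      exact isIntegral_algebraMap
  exact Module.Finite.of_injective (inclusion h1).toLinearMap (inclusion_injective h1)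

/-- the subfield of `Ω` fixed by an automorphism of `K` -/
noncomputable def fxd (K : IntermediateField k Ω) (ρ : K ≃ₐ[k] K) : IntermediateField k Ω :=
  lift (fixedField (Subgroup.zpowers ρ))

lemma mem_fxd {K : IntermediateField k Ω} {ρ : K ≃ₐ[k] K} (y : K) : (y : Ω) ∈ fxd K ρ ↔ ρ y = y := by
  unfold fxd
  rw [mem_lift, mem_fixedField_iff]
  constructor
  · intro h
    exact h ρ (Subgroup.mem_zpowers ρ)
  · intro hy f hf
    have h1 : Subgroup.zpowers ρ ≤ MulAction.stabilizer _ y := by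
      rw [Subgroup.zpowers_le]
      exact hy
    exact h1 hf

lemma fix_iff_le {K : IntermediateField k Ω} {ρ : K ≃ₐ[k] K} {E : IntermediateField k Ω}
    (hE : E ≤ K) : (∀ y : K, (y : Ω) ∈ E → ρ y = y) ↔ E ≤ fxd K ρ := by
  constructor
  · intro h y hy
    exact (mem_fxd (⟨y, hE hy⟩ : K)).2 (h _ hy)
  · intro h y hy
    exact (mem_fxd y).1 (h hy)

lemma fix_sup {K : IntermediateField k Ω} {ρ : K ≃ₐ[k] K} {E E' : IntermediateField k Ω}
    (hE : E ≤ K) (hE' : E' ≤ K) : (∀ y : K, (y : Ω) ∈ E ⊔ E' → ρ y = y) ↔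
      (∀ y : K, (y : Ω) ∈ E → ρ y = y) ∧ (∀ y : K, (y : Ω) ∈ E' → ρ y = y) := by
  rw [fix_iff_le (sup_le hE hE'), fix_iff_le hE, fix_iff_le hE', sup_le_iff]

lemma fix_Lf {K : IntermediateField k Ω} {ρ : K ≃ₐ[k] K} {W : Subgroup kˣ} {q : ℕ}
    (hE : Lf Ω W q ≤ K) : (∀ y : K, (y : Ω) ∈ Lf Ω W q → ρ y = y) ↔
      (∀ y : K, (∃ w ∈ W, y ^ q = algebraMap k K (w : k)) → ρ y = y) := by
  rw [fix_iff_le hE]
  unfold Lf at hE ⊢
  rw [adjoin_le_iff] at hE ⊢
  constructor
  · rintro h y ⟨w, hw, hy⟩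
    refine (mem_fxd y).1 (h ⟨w, hw, ?_⟩)
    have := congrArg (fun z : K => (z : Ω)) hy
    exact this
  · rintro h y ⟨w, hw, hy⟩
    have hyK := hE ⟨w, hw, hy⟩
    refine (mem_fxd (⟨y, hyK⟩ : K)).2 (h _ ⟨w, hw, ?_⟩)
    apply Subtype.ext
    exact hy

/-- the compositum of `F` with two fields of roots -/
noncomputable def Kf (F : IntermediateField k Ω) (W1 W0 : Subgroup kˣ) (q1 q0 : ℕ) :
    IntermediateField k Ω := F ⊔ (Lf Ω W1 q1 ⊔ Lf Ω W0 q0)

lemma Kf_normal [Normal k Ω] (F : IntermediateField k Ω) [Normal k F] (W1 W0 : Subgroup kˣ)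
    (q1 q0 : ℕ) : Normal k (Kf F W1 W0 q1 q0) := by
  have := Lf_normal (Ω := Ω) W1 q1
  have := Lf_normal (Ω := Ω) W0 q0
  unfold Kf
  infer_instance

lemma Kf_gal [Normal k Ω] [CharZero k] (F : IntermediateField k Ω) [Normal k F]
    (W1 W0 : Subgroup kˣ) (q1 q0 : ℕ) : IsGalois k (Kf F W1 W0 q1 q0) := by
  have := Kf_normal F W1 W0 q1 q0
  exact ⟨⟩

lemma Kf_fin [IsAlgClosed Ω] (F : IntermediateField k Ω) [FiniteDimensional k F]
    {W1 W0 : Subgroup kˣ} (h1 : W1.FG) (h0 : W0.FG) {q1 q0 : ℕ} (hq1 : 0 < q1) (hq0 : 0 < q0) :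
    FiniteDimensional k (Kf F W1 W0 q1 q0) := by
  have := Lf_fin (Ω := Ω) h1 hq1
  have := Lf_fin (Ω := Ω) h0 hq0
  unfold Kf
  infer_instance

section count
variable (F E : IntermediateField k Ω)

/-- restriction of automorphisms of `F ⊔ E` to `F` -/
noncomputable def res [Normal k F] : ((F ⊔ E : IntermediateField k Ω) ≃ₐ[k] (F ⊔ E : IntermediateField k Ω)) →* (F ≃ₐ[k] F) :=
  letI : Algebra F (F ⊔ E : IntermediateField k Ω) := (inclusion le_sup_left).toRingHom.toAlgebra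
  haveI : IsScalarTower k F (F ⊔ E : IntermediateField k Ω) :=
    IsScalarTower.of_algebraMap_eq fun x => ((inclusion le_sup_left).commutes x).symm
  AlgEquiv.restrictNormalHom F

lemma res_spec [Normal k F] (τ : ((F ⊔ E : IntermediateField k Ω) ≃ₐ[k] (F ⊔ E : IntermediateField k Ω))) (y : F) :
    ((res F E τ y : F) : Ω) = (τ (inclusion le_sup_left y) : Ω) := by
  let : Algebra F (F ⊔ E : IntermediateField k Ω) := (inclusion le_sup_left).toRingHom.toAlgebra
  have : IsScalarTower k F (F ⊔ E : IntermediateField k Ω) :=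
    IsScalarTower.of_algebraMap_eq fun x => ((inclusion le_sup_left).commutes x).symm
  have h := AlgEquiv.restrictNormal_commutes τ F y
  exact congrArg (fun z : (F ⊔ E : IntermediateField k Ω) => (z : Ω)) h

/-- an automorphism fixing `F` and `E` is trivial -/
lemma eq_one_of_fix (ρ : ((F ⊔ E : IntermediateField k Ω) ≃ₐ[k] (F ⊔ E : IntermediateField k Ω)))
    (hF : ∀ y : (F ⊔ E : IntermediateField k Ω), (y : Ω) ∈ F → ρ y = y)
    (hE : ∀ y : (F ⊔ E : IntermediateField k Ω), (y : Ω) ∈ E → ρ y = y) : ρ = 1 := by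
  have h1 : F ⊔ E ≤ fxd _ ρ := by
    rw [← fix_iff_le le_rfl, fix_sup le_sup_left le_sup_right]
    exact ⟨hF, hE⟩
  ext y
  rw [(mem_fxd y).1 (h1 y.2)]
  rfl

/-- restriction of the automorphisms which are trivial on `E` -/
theorem card_res [FiniteDimensional k F] [Normal k F]
    [FiniteDimensional k (F ⊔ E : IntermediateField k Ω)] [IsGalois k (F ⊔ E : IntermediateField k Ω)]
    (C : Set (F ≃ₐ[k] F)) :
    Nat.card {τ : ((F ⊔ E : IntermediateField k Ω) ≃ₐ[k] (F ⊔ E : IntermediateField k Ω)) //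
      res F E τ ∈ C ∧ ∀ y : (F ⊔ E : IntermediateField k Ω), (y : Ω) ∈ E → τ y = y} =
    Nat.card {σ : F ≃ₐ[k] F // σ ∈ C ∧ ∀ y : F, (y : Ω) ∈ E → σ y = y} := by
  set K := (F ⊔ E : IntermediateField k Ω) with hK
  set EK : IntermediateField k K := E.comap K.val with hEK
  have hres : ∀ (τ : K ≃ₐ[k] K), (∀ y : K, (y : Ω) ∈ E → τ y = y) →
      ∀ y : F, (y : Ω) ∈ E → res F E τ y = y := by
    intro τ hτ y hy
    apply Subtype.ext
    rw [res_spec, hτ _ (by exact hy)]
    rfl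
  refine Nat.card_congr (Equiv.ofBijective
    (fun τ => ⟨res F E τ.1, τ.2.1, hres τ.1 τ.2.2⟩) ⟨?_, ?_⟩)
  · rintro ⟨τ, h1, h2⟩ ⟨τ', h1', h2'⟩ h
    rw [Subtype.mk.injEq] at h ⊢
    have h3 : τ'⁻¹ * τ = 1 := by
      apply eq_one_of_fix
      · intro y hy
        have h4 : τ y = τ' y := by
          apply Subtype.ext
          have h5 := res_spec F E τ ⟨y, hy⟩
          have h6 := res_spec F E τ' ⟨y, hy⟩
          rw [h] at h5
          exact (h5.symm.trans h6)
        rw [AlgEquiv.mul_apply, h4]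
        exact τ'.symm_apply_apply y
      · intro y hy
        rw [AlgEquiv.mul_apply, h2 y hy]
        have h4 := h2' y hy
        exact τ'.symm_apply_eq.2 h4.symm
    exact (inv_mul_eq_one.1 h3).symm
  · rintro ⟨σ, h1, h2⟩
    set H' := (fixingSubgroup EK).map (res F E) with hH'
    have h3 : σ ∈ H' := by
      rw [← fixingSubgroup_fixedField H', IntermediateField.mem_fixingSubgroup_iff]
      intro y hy
      apply h2
      rw [mem_fixedField_iff] at hy
      have h4 : inclusion (le_sup_left : F ≤ K) y ∈ fixedField (fixingSubgroup EK) := by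
        rw [mem_fixedField_iff]
        intro τ hτ
        have h5 := hy (res F E τ) (Subgroup.mem_map_of_mem _ hτ)
        apply Subtype.ext
        have h6 := res_spec F E τ y
        rw [h5] at h6
        exact h6.symm
      rw [IsGalois.fixedField_fixingSubgroup] at h4
      exact h4
    obtain ⟨τ, hτ, hτσ⟩ := h3
    refine ⟨⟨τ, by rw [hτσ]; exact h1, ?_⟩, ?_⟩
    · intro y hy
      exact (IntermediateField.mem_fixingSubgroup_iff _ _).1 hτ y hy
    · rw [Subtype.mk.injEq]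
      exact hτσ

end count

end Pool.Agent.W171.LG
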