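import Pool.Agent.W171.LG.Kum
import Pool.Agent.W171.LG.Fields

/-! # Degrees of composites with one radical extension -/

set_option autoImplicit false

namespace Pool.Agent.W171.LG

open IntermediateField Polynomial

section gen
variable {k Ω : Type*} [Field k] [Field Ω] [Algebra k Ω]

/-- the degree of `K₀(α)` -/
theorem finrank_sup_adjoin (K0 : IntermediateField k Ω) (α : Ω) (hα : IsIntegral K0 α) :
    Module.finrank k (K0 ⊔ adjoin k {α} : IntermediateField k Ω) =
      Module.finrank k K0 * (minpoly K0 α).natDegree := by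
  rw [← restrictScalars_adjoin_eq_sup]
  have h1 : Module.finrank k K0 * Module.finrank K0 (adjoin K0 {α} : IntermediateField K0 Ω) =
      Module.finrank k (adjoin K0 {α} : IntermediateField K0 Ω) := Module.finrank_mul_finrank _ _ _
  rw [adjoin.finrank hα] at h1
  exact h1.symm

/-- the degree of `K₀(α)` for a radical `α` -/
theorem finrank_radical [IsAlgClosed Ω] (K0 : IntermediateField k Ω) {q : ℕ} (hq : 0 < q) {ζ : K0}
    (hζ : IsPrimitiveRoot ζ q) {α : Ω} {u : k} (hu : u ≠ 0) (hα : α ^ q = algebraMap k Ω u)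
    (H : ∀ r : ℕ, r.Prime → r ∣ q → ∀ b : K0, b ^ r ≠ algebraMap k K0 u) :
    Module.finrank k (K0 ⊔ adjoin k {α} : IntermediateField k Ω) = Module.finrank k K0 * q := by
  have hα' : α ^ q = algebraMap K0 Ω (algebraMap k K0 u) := by
    rw [← IsScalarTower.algebraMap_apply]
    exact hα
  have hint : IsIntegral K0 α := by
    refine IsIntegral.of_pow hq ?_
    rw [hα']
    exact isIntegral_algebraMap
  rw [finrank_sup_adjoin K0 α hint]
  congr 1
  refine deg_root hq hζ (u := algebraMap k K0 u) ?_ hα' H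
  rwa [Ne, map_eq_zero]

/-- the field of roots of `⟨u⟩` and of roots of unity -/
theorem Lf_zpowers [IsAlgClosed Ω] (u : kˣ) {a b : ℕ} (ha : 0 < a) (hb : 0 < b)
    (hab : Nat.Coprime a b) {ζ : Ω} (hζ : IsPrimitiveRoot ζ (a * b)) {α : Ω}
    (hα : α ^ a = algebraMap k Ω (u : k)) :
    Lf Ω (Subgroup.zpowers u) a ⊔ Lf Ω (⊥ : Subgroup kˣ) b = adjoin k {ζ} ⊔ adjoin k {α} := by
  have hα0 : α ≠ 0 := by
    rintro rfl
    rw [zero_pow ha.ne'] at hα
    exact u.ne_zero ((map_eq_zero _).1 hα.symm)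
  have hζ0 : ζ ≠ 0 := hζ.ne_zero (Nat.mul_pos ha hb).ne'
  have : NeZero (a * b) := ⟨(Nat.mul_pos ha hb).ne'⟩
  have hroot : ∀ z : Ω, z ^ (a * b) = 1 → z ∈ adjoin k {ζ} := by
    intro z hz
    obtain ⟨i, _, hi⟩ := hζ.eq_pow_of_pow_eq_one hz
    rw [← hi]
    exact pow_mem (mem_adjoin_simple_self k ζ) i
  apply le_antisymm
  · rw [sup_le_iff]
    constructor
    · unfold Lf
      rw [adjoin_le_iff]
      rintro z ⟨w, hw, hz⟩
      rw [Subgroup.zpowers_eq_closure] at hw
      refine root_mem {u} ha _ ?_ ?_ hw z hz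
      · intro z hz
        refine (le_sup_left : adjoin k {ζ} ≤ _) (hroot z ?_)
        rw [pow_mul, hz, one_pow]
      · intro w hw z hz
        rw [Set.mem_singleton_iff] at hw
        subst hw
        have h1 : (z / α) ^ (a * b) = 1 := by
          rw [pow_mul, div_pow, hz, hα, div_self, one_pow]
          rw [Ne, map_eq_zero]
          exact w.ne_zero
        have h2 : z = (z / α) * α := by field_simp
        rw [h2]
        exact mul_mem ((le_sup_left : adjoin k {ζ} ≤ _) (hroot _ h1))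
          ((le_sup_right : adjoin k {α} ≤ _) (mem_adjoin_simple_self k α))
    · unfold Lf
      rw [adjoin_le_iff]
      rintro z ⟨w, hw, hz⟩
      rw [Subgroup.mem_bot] at hw
      subst hw
      refine (le_sup_left : adjoin k {ζ} ≤ _) (hroot z ?_)
      rw [mul_comm, pow_mul, hz, Units.val_one, map_one, one_pow]
  · rw [sup_le_iff, adjoin_simple_le_iff, adjoin_simple_le_iff]
    constructor
    · have h1 : ζ ^ b ∈ Lf Ω (Subgroup.zpowers u) a := by
        refine subset_adjoin k _ ⟨1, one_mem _, ?_⟩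
        rw [← pow_mul, mul_comm, hζ.pow_eq_one, Units.val_one, map_one]
      have h2 : ζ ^ a ∈ Lf Ω (⊥ : Subgroup kˣ) b := by
        refine subset_adjoin k _ ⟨1, one_mem _, ?_⟩
        rw [← pow_mul, hζ.pow_eq_one, Units.val_one, map_one]
      have h3 : ζ = (ζ ^ a) ^ (Nat.gcdA a b) * (ζ ^ b) ^ (Nat.gcdB a b) := by
        rw [← zpow_natCast, ← zpow_natCast, ← zpow_mul, ← zpow_mul, ← zpow_add₀ hζ0,
          ← Nat.gcd_eq_gcd_ab, hab]
        simp
      rw [h3]
      exact mul_mem (zpow_mem ((le_sup_right : Lf Ω (⊥ : Subgroup kˣ) b ≤ _) h2) _)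
        (zpow_mem ((le_sup_left : Lf Ω (Subgroup.zpowers u) a ≤ _) h1) _)
    · exact (le_sup_left : Lf Ω (Subgroup.zpowers u) a ≤ _)
        (subset_adjoin k _ ⟨u, Subgroup.mem_zpowers u, hα⟩)

end gen

end Pool.Agent.W171.LG
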