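import Pool.Agent.W401.Cheb.Main

/-! # Frobenius elements and power residues -/

set_option autoImplicit false
set_option linter.unusedSectionVars false

namespace Pool.Agent.W171.LG

open NumberField Filter Topology Finset
open Pool.Agent.W401.Cheb

/-- reduction of a rational number modulo `p` -/
def rd (p : ℕ) (w : ℚ) : ZMod p := (w.num : ZMod p) * ((w.den : ℕ) : ZMod p)⁻¹

/-- `p` divides neither the numerator nor the denominator -/
def Un (p : ℕ) (w : ℚ) : Prop := (w.num : ZMod p) ≠ 0 ∧ ((w.den : ℕ) : ZMod p) ≠ 0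

section
variable {K : Type} [Field K] [NumberField K] [IsGalois ℚ K] {p : ℕ} [Fact p.Prime]

lemma prim_map {k : Type} [Field k] (φ : 𝓞 K →+* k) {ζ : 𝓞 K} {q : ℕ} (_hq : 0 < q)
    (hk : (q : k) ≠ 0) (hζ : IsPrimitiveRoot ζ q) : IsPrimitiveRoot (φ ζ) q := by
  have : NeZero (q : k) := ⟨hk⟩
  have : NeZero (q : 𝓞 K) := ⟨by
    intro h
    apply hk
    have := congrArg φ h
    simpa using this⟩
  rw [← Polynomial.isRoot_cyclotomic_iff] at hζ ⊢
  rw [Polynomial.IsRoot.def] at hζ ⊢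
  have h1 : Polynomial.cyclotomic q k = (Polynomial.cyclotomic q (𝓞 K)).map φ := by
    rw [Polynomial.map_cyclotomic]
  rw [h1, Polynomial.eval_map, Polynomial.eval₂_hom, hζ, map_zero]

lemma pow_p_sub_one {x : AlgebraicClosure (ZMod p)} (hx : x ≠ 0) : x ^ p = x ↔ x ^ (p - 1) = 1 := by
  have hp : 1 ≤ p := (Fact.out : p.Prime).one_lt.le
  constructor
  · intro h
    have h1 : x ^ (p - 1) * x = 1 * x := by
      rw [← pow_succ, Nat.sub_add_cancel hp, h, one_mul]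
    exact mul_right_cancel₀ hx h1
  · intro h
    calc x ^ p = x ^ (p - 1) * x := by rw [← pow_succ, Nat.sub_add_cancel hp]
      _ = x := by rw [h, one_mul]

/-- the value of a homomorphism at a root of a rational number -/
lemma phi_root (φ : 𝓞 K →+* AlgebraicClosure (ZMod p)) {q : ℕ} (hq : 0 < q) {w : ℚ}
    (hw : Un p w) {z : K} (hz : z ^ q = (w : K)) :
    ∃ y : 𝓞 K, (y : K) = (w.den : K) * z ∧ φ y ≠ 0 ∧
      (q ∣ p - 1 → (φ y ^ (p - 1) = 1 ↔ rd p w ^ ((p - 1) / q) = 1)) := by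
  have hp : p.Prime := Fact.out
  have hd : (w.den : K) ≠ 0 := by exact_mod_cast w.den_ne_zero
  have hyq : ((w.den : K) * z) ^ q = ((w.num * (w.den : ℤ) ^ (q - 1) : ℤ) : K) := by
    rw [mul_pow, hz]
    have h1 : (w : K) = (w.num : K) / (w.den : K) := Rat.cast_def w
    obtain ⟨r, rfl⟩ : ∃ r, q = r + 1 := ⟨q - 1, by omega⟩
    rw [h1, Nat.add_sub_cancel]
    push_cast
    field_simp
    ring
  have hint : IsIntegral ℤ ((w.den : K) * z) := by
    refine IsIntegral.of_pow hq ?_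
    rw [hyq]
    exact isIntegral_algebraMap (R := ℤ) (A := K) (x := w.num * (w.den : ℤ) ^ (q - 1))
  obtain ⟨y, hy⟩ : ∃ y : 𝓞 K, (y : K) = (w.den : K) * z := ⟨⟨_, hint⟩, rfl⟩
  have hy1 : y ^ q = ((w.num * (w.den : ℤ) ^ (q - 1) : ℤ) : 𝓞 K) := by
    apply RingOfIntegers.coe_injective
    rw [map_pow, map_intCast]
    change (y : K) ^ q = _
    rw [hy, hyq]
  have hy2 : φ y ^ q = algebraMap (ZMod p) (AlgebraicClosure (ZMod p))
      ((w.num : ZMod p) * ((w.den : ℕ) : ZMod p) ^ (q - 1)) := by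
    rw [← map_pow, hy1, map_intCast, map_mul, map_pow, map_intCast, map_natCast]
    push_cast
    ring
  have hne : ((w.num : ZMod p) * ((w.den : ℕ) : ZMod p) ^ (q - 1)) ≠ 0 :=
    mul_ne_zero hw.1 (pow_ne_zero _ hw.2)
  have hφ0 : φ y ≠ 0 := by
    intro h
    rw [h, zero_pow hq.ne'] at hy2
    exact hne ((map_eq_zero _).1 hy2.symm)
  refine ⟨y, hy, hφ0, fun hqp => ?_⟩
  obtain ⟨t, ht⟩ := hqp
  have e1 : (p - 1) / q = t := by rw [ht, Nat.mul_div_cancel_left _ hq]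
  have e2 : φ y ^ (p - 1) = algebraMap (ZMod p) (AlgebraicClosure (ZMod p)) (rd p w ^ t) := by
    rw [ht, pow_mul, hy2, ← map_pow]
    congr 1
    have h3 : ((w.den : ℕ) : ZMod p) ^ (q * t) = 1 := by
      rw [← ht]
      exact ZMod.pow_card_sub_one_eq_one hw.2
    have h4 : ((w.den : ℕ) : ZMod p) ^ ((q - 1) * t) = (((w.den : ℕ) : ZMod p)⁻¹) ^ t := by
      rw [inv_pow]
      refine eq_inv_of_mul_eq_one_left ?_
      rw [← pow_add, ← h3]
      congr 1
      obtain ⟨r, rfl⟩ : ∃ r, q = r + 1 := ⟨q - 1, by omega⟩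
      rw [Nat.add_sub_cancel]
      ring
    unfold rd
    rw [mul_pow, ← pow_mul, h4, mul_pow]
  rw [e1, e2]
  constructor
  · intro h
    exact (algebraMap (ZMod p) (AlgebraicClosure (ZMod p))).injective (by rw [h, map_one])
  · intro h
    rw [h, map_one]

lemma hasFrob_fix {φ : 𝓞 K →+* AlgebraicClosure (ZMod p)} {τ : Gal(K/ℚ)} (hτ : HasFrob p φ τ)
    {y : 𝓞 K} (h0 : φ y ≠ 0) (h : τ (y : K) = y) : φ y ^ (p - 1) = 1 := by
  rw [← pow_p_sub_one h0, ← hτ y]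
  congr 1
  apply RingOfIntegers.coe_injective
  exact h

/-- **Frobenius elements and power residues.** -/
theorem frob_root {q : ℕ} (hq : 0 < q) (hpq : ((q : ℕ) : AlgebraicClosure (ZMod p)) ≠ 0) {ζ : K}
    (hζ : IsPrimitiveRoot ζ q) {φ : 𝓞 K →+* AlgebraicClosure (ZMod p)} {τ : Gal(K/ℚ)}
    (hτ : HasFrob p φ τ) (S : Set ℚ) (hS1 : 1 ∈ S) (hS : ∀ w ∈ S, Un p w)
    (hroot : ∀ w ∈ S, ∃ z : K, z ^ q = (w : K)) :
    (∀ z : K, (∃ w ∈ S, z ^ q = (w : K)) → τ z = z) ↔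
      (q ∣ p - 1 ∧ ∀ w ∈ S, rd p w ^ ((p - 1) / q) = 1) := by
  have hζi : IsIntegral ℤ ζ := hζ.isIntegral hq
  obtain ⟨ξ, hξ⟩ : ∃ ξ : 𝓞 K, (ξ : K) = ζ := ⟨⟨ζ, hζi⟩, rfl⟩
  have hξp : IsPrimitiveRoot ξ q := by
    refine IsPrimitiveRoot.of_map_of_injective (f := algebraMap (𝓞 K) K) ?_
      RingOfIntegers.coe_injective
    change IsPrimitiveRoot (ξ : K) q
    rw [hξ]
    exact hζ
  have hφξ := prim_map φ hq hpq hξp
  have hφξ0 : φ ξ ≠ 0 := hφξ.ne_zero hq.ne'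
  constructor
  · intro h
    have h1 : τ ζ = ζ := h ζ ⟨1, hS1, by rw [hζ.pow_eq_one]; simp⟩
    have h2 : φ ξ ^ (p - 1) = 1 := hasFrob_fix hτ hφξ0 (by rw [hξ]; exact h1)
    have h3 : q ∣ p - 1 := hφξ.dvd_of_pow_eq_one _ h2
    refine ⟨h3, fun w hw => ?_⟩
    obtain ⟨z, hz⟩ := hroot w hw
    obtain ⟨y, hy, hy0, hy1⟩ := phi_root φ hq (hS w hw) hz
    rw [← hy1 h3]
    refine hasFrob_fix hτ hy0 ?_
    rw [hy, map_mul, map_natCast, h z ⟨w, hw, hz⟩]
  · rintro ⟨h3, h⟩ z ⟨w, hw, hz⟩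
    obtain ⟨y, hy, hy0, hy1⟩ := phi_root φ hq (hS w hw) hz
    have h4 : φ y ^ (p - 1) = 1 := (hy1 h3).2 (h w hw)
    have h5 : φ (τ • y) = φ y := by rw [hτ y, (pow_p_sub_one hy0).2 h4]
    have hwK : (w : K) ≠ 0 := by
      have := (hS w hw).1
      intro hc
      apply this
      have h6 : w = 0 := by exact_mod_cast hc
      rw [h6]
      simp
    have hz0 : z ≠ 0 := by
      rintro rfl
      rw [zero_pow hq.ne'] at hz
      exact hwK hz.symm
    have h6 : (τ z / z) ^ q = 1 := by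
      rw [div_pow, ← map_pow, hz]
      rw [map_ratCast]
      exact div_self hwK
    have : NeZero q := ⟨hq.ne'⟩
    obtain ⟨i, _, hi⟩ := hζ.eq_pow_of_pow_eq_one h6
    have h7 : τ z = ζ ^ i * z := by
      rw [hi]
      field_simp
    have h8 : τ • y = ξ ^ i * y := by
      apply RingOfIntegers.coe_injective
      rw [map_mul, map_pow]
      change τ (y : K) = (ξ : K) ^ i * (y : K)
      rw [hy, map_mul, map_natCast, h7, hξ]
      ring
    rw [h8, map_mul, map_pow] at h5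
    have h9 : φ ξ ^ i = 1 := by
      have : φ ξ ^ i * φ y = 1 * φ y := by rw [h5, one_mul]
      exact mul_right_cancel₀ hy0 this
    have h10 : q ∣ i := hφξ.dvd_of_pow_eq_one _ h9
    rw [h7, (hζ.pow_eq_one_iff_dvd i).2 h10, one_mul]

end

end Pool.Agent.W171.LG
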