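import Pool.Agent.W171.LG.GF
import Pool.Agent.W171.LG.Trans
import Pool.Agent.W171.LG.Fields

/-! # Densities of primes with a Frobenius condition and power residue conditions -/

set_option autoImplicit false
set_option linter.unusedSectionVars false

namespace Pool.Agent.W171.LG

open NumberField Filter Topology Finset IntermediateField
open Pool.Agent.W401.Cheb

/-- the algebraic numbers -/
abbrev QA : Type := AlgebraicClosure ℚ

/-- `p ≡ 1 mod q` and all elements of `W` are `q`-th powers modulo `p` -/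
def PW (W : Subgroup ℚˣ) (q p : ℕ) : Prop :=
  q ∣ p - 1 ∧ ∀ w ∈ W, rd p (w : ℚ) ^ ((p - 1) / q) = 1

lemma nQA : Normal ℚ QA :=
  @IsAlgClosure.normal ℚ (AlgebraicClosure ℚ) _ _ (AlgebraicClosure.instAlgebra ℚ) inferInstance

/-- restriction of automorphisms to `F` -/
noncomputable def resQ (F E : IntermediateField ℚ QA) [hF : IsGalois ℚ F] :
    Gal((F ⊔ E : IntermediateField ℚ QA)/ℚ) →* Gal(F/ℚ) :=
  @res ℚ QA _ _ _ F E (inferInstance : Normal ℚ F)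

lemma resQ_spec (F E : IntermediateField ℚ QA) [hF : IsGalois ℚ F]
    (τ : Gal((F ⊔ E : IntermediateField ℚ QA)/ℚ)) (y : F) :
    ((resQ F E τ y : F) : QA) = (τ (inclusion le_sup_left y) : QA) :=
  @res_spec ℚ QA _ _ _ F E (inferInstance : Normal ℚ F) τ y

section
variable (F : IntermediateField ℚ QA) [NumberField F] [IsGalois ℚ F] (C : Set Gal(F/ℚ))
  (W1 W0 : Subgroup ℚˣ) (q1 q0 : ℕ)

lemma Kf_nf (h1 : W1.FG) (h0 : W0.FG) (hq1 : 0 < q1) (hq0 : 0 < q0) :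
    NumberField (Kf F W1 W0 q1 q0) :=
  have : FiniteDimensional ℚ F := NumberField.to_finiteDimensional
  { to_charZero := inferInstance
    to_finiteDimensional := Kf_fin F h1 h0 hq1 hq0 }

lemma Kf_galQ : IsGalois ℚ (Kf F W1 W0 q1 q0) :=
  have : Normal ℚ QA := nQA
  have hF : Normal ℚ F := inferInstance
  @Kf_gal ℚ QA _ _ _ this _ F hF W1 W0 q1 q0

/-- the Frobenius condition in the compositum -/
def Xs : Set Gal(Kf F W1 W0 q1 q0/ℚ) :=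
  {τ | resQ F (Lf QA W1 q1 ⊔ Lf QA W0 q0) τ ∈ C ∧
    ∀ y : Kf F W1 W0 q1 q0, (y : QA) ∈ Lf QA W1 q1 ⊔ Lf QA W0 q0 → τ y = y}

lemma mem_Xs (τ : Gal(Kf F W1 W0 q1 q0/ℚ)) : τ ∈ Xs F C W1 W0 q1 q0 ↔
    resQ F (Lf QA W1 q1 ⊔ Lf QA W0 q0) τ ∈ C ∧
      (∀ y : Kf F W1 W0 q1 q0, (∃ w ∈ W1, y ^ q1 = ((w : ℚ) : Kf F W1 W0 q1 q0)) → τ y = y) ∧
      (∀ y : Kf F W1 W0 q1 q0, (∃ w ∈ W0, y ^ q0 = ((w : ℚ) : Kf F W1 W0 q1 q0)) → τ y = y) := by
  have h1 : Lf QA W1 q1 ≤ Kf F W1 W0 q1 q0 := le_sup_left.trans le_sup_right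
  have h0 : Lf QA W0 q0 ≤ Kf F W1 W0 q1 q0 := le_sup_right.trans le_sup_right
  have e := fix_sup (ρ := τ) h1 h0
  have e1 := fix_Lf (ρ := τ) h1
  have e0 := fix_Lf (ρ := τ) h0
  unfold Xs
  rw [Set.mem_ofPred_eq]
  constructor
  · rintro ⟨a, b⟩
    obtain ⟨b1, b0⟩ := e.1 b
    exact ⟨a, e1.1 b1, e0.1 b0⟩
  · rintro ⟨a, b1, b0⟩
    exact ⟨a, e.2 ⟨e1.2 b1, e0.2 b0⟩⟩

lemma fix_conj {K : Type} [Field K] [NumberField K] {W : Subgroup ℚˣ} {q : ℕ}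
    {σ : Gal(K/ℚ)} (h : ∀ y : K, (∃ w ∈ W, y ^ q = ((w : ℚ) : K)) → σ y = y) (τ : Gal(K/ℚ)) :
    ∀ y : K, (∃ w ∈ W, y ^ q = ((w : ℚ) : K)) → (τ * σ * τ⁻¹) y = y := by
  rintro y ⟨w, hw, hy⟩
  rw [AlgEquiv.mul_apply, AlgEquiv.mul_apply]
  rw [h (τ⁻¹ y) ⟨w, hw, by rw [← map_pow, hy, map_ratCast]⟩]
  exact τ.apply_symm_apply y

lemma Xs_conj (hC : ∀ σ ∈ C, ∀ τ : Gal(F/ℚ), τ * σ * τ⁻¹ ∈ C) [NumberField (Kf F W1 W0 q1 q0)] :
    ∀ σ ∈ Xs F C W1 W0 q1 q0, ∀ τ, τ * σ * τ⁻¹ ∈ Xs F C W1 W0 q1 q0 := by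
  intro σ hσ τ
  rw [mem_Xs] at hσ ⊢
  obtain ⟨a, b1, b0⟩ := hσ
  refine ⟨?_, fix_conj b1 τ, fix_conj b0 τ⟩
  have h1 := hC _ a (resQ F (Lf QA W1 q1 ⊔ Lf QA W0 q0) τ)
  have h2 := map_mul (resQ F (Lf QA W1 q1 ⊔ Lf QA W0 q0)) (τ * σ) τ⁻¹
  have h3 := map_mul (resQ F (Lf QA W1 q1 ⊔ Lf QA W0 q0)) τ σ
  have h4 := map_inv (resQ F (Lf QA W1 q1 ⊔ Lf QA W0 q0)) τ
  rw [h3, h4] at h2
  exact h2 ▸ h1

end

/-- all elements of `W` are units at `p` -/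
def UnW (W : Subgroup ℚˣ) (p : ℕ) : Prop := ∀ w ∈ W, Un p (w : ℚ)

lemma un_iff {p : ℕ} [hp : Fact p.Prime] {w : ℚ} (hw : w ≠ 0) : Un p w ↔ padicValRat p w = 0 := by
  unfold Un
  rw [Ne, Ne, ZMod.intCast_zmod_eq_zero_iff_dvd, ZMod.natCast_eq_zero_iff, padicValRat_def]
  have hn : w.num ≠ 0 := Rat.num_ne_zero.2 hw
  have hd : w.den ≠ 0 := w.den_ne_zero
  have h1 : (padicValInt p w.num = 0) ↔ ¬ (p : ℤ) ∣ w.num := by
    rw [padicValInt.eq_zero_iff]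
    constructor
    · rintro (h | h | h)
      · exact absurd h hp.out.one_lt.ne'
      · exact absurd h hn
      · exact h
    · intro h
      exact Or.inr (Or.inr h)
  have h2 : (padicValNat p w.den = 0) ↔ ¬ p ∣ w.den := by
    rw [padicValNat.eq_zero_iff]
    constructor
    · rintro (h | h | h)
      · exact absurd h hp.out.one_lt.ne'
      · exact absurd h hd
      · exact h
    · intro h
      exact Or.inr (Or.inr h)
  constructor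
  · rintro ⟨a, b⟩
    rw [h1.2 a, h2.2 b]
    simp
  · intro h
    have h3 : (padicValInt p w.num : ℤ) = padicValNat p w.den := by linarith
    have h3' : padicValInt p w.num = padicValNat p w.den := by exact_mod_cast h3
    have hcop : Nat.Coprime w.num.natAbs w.den := w.reduced
    by_cases h4 : (p : ℤ) ∣ w.num
    · exfalso
      have h5 : ¬ p ∣ w.den := by
        intro h6
        have h7 := Nat.dvd_gcd (Int.natCast_dvd.1 h4) h6
        rw [hcop] at h7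
        exact hp.out.one_lt.ne' (Nat.dvd_one.1 h7)
      rw [← h2, ← h3', h1] at h5
      exact h5 h4
    · refine ⟨h4, ?_⟩
      rw [← h1, h3', h2] at h4
      exact h4

lemma unW_closure {S : Set ℚˣ} {p : ℕ} [hp : Fact p.Prime] (h : ∀ w ∈ S, Un p (w : ℚ)) :
    UnW (Subgroup.closure S) p := by
  intro w hw
  induction hw using Subgroup.closure_induction with
  | mem w hw => exact h w hw
  | one =>
    rw [un_iff (Units.ne_zero _)]
    simp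
  | mul a b _ _ iha ihb =>
    rw [un_iff (Units.ne_zero _)] at iha ihb ⊢
    rw [Units.val_mul, padicValRat.mul a.ne_zero b.ne_zero, iha, ihb, add_zero]
  | inv a _ iha =>
    rw [un_iff (Units.ne_zero _)] at iha ⊢
    rw [Units.val_inv_eq_inv_val, padicValRat.inv, iha, neg_zero]

lemma exists_unW {W : Subgroup ℚˣ} (hW : W.FG) : ∃ D : ℕ, 0 < D ∧
    ∀ (p : ℕ) [Fact p.Prime], ¬ p ∣ D → UnW W p := by
  obtain ⟨S, rfl⟩ := hW
  refine ⟨∏ s ∈ S, ((s : ℚ).num.natAbs * (s : ℚ).den), ?_, ?_⟩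
  · refine Finset.prod_pos fun s _ => Nat.mul_pos ?_ (s : ℚ).den_pos
    rw [Int.natAbs_pos]
    exact Rat.num_ne_zero.2 s.ne_zero
  · intro p hp hpD
    refine unW_closure fun w hw => ?_
    have h1 : ¬ p ∣ (w : ℚ).num.natAbs * (w : ℚ).den := fun h =>
      hpD (h.trans (Finset.dvd_prod_of_mem (fun s : ℚˣ => (s : ℚ).num.natAbs * (s : ℚ).den) hw))
    unfold Un
    rw [Ne, Ne, ZMod.intCast_zmod_eq_zero_iff_dvd, ZMod.natCast_eq_zero_iff]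
    refine ⟨fun h => h1 ?_, fun h => h1 (Dvd.dvd.mul_left h _)⟩
    exact Dvd.dvd.mul_right (Int.natCast_dvd.1 h) _

lemma frob_PW {K : IntermediateField ℚ QA} [NumberField K] [IsGalois ℚ K] {W : Subgroup ℚˣ} {q : ℕ}
    (hq : 0 < q) (hLK : Lf QA W q ≤ K) {p : ℕ} [Fact p.Prime] (hpq : ¬ p ∣ q) (hU : UnW W p)
    {φ : 𝓞 K →+* AlgebraicClosure (ZMod p)} {τ : Gal(K/ℚ)} (hτ : HasFrob p φ τ) :
    (∀ y : K, (∃ w ∈ W, y ^ q = ((w : ℚ) : K)) → τ y = y) ↔ PW W q p := by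
  have hmem : ∀ z : QA, ∀ w ∈ W, z ^ q = ((w : ℚ) : QA) → z ∈ K := by
    intro z w hw hz
    exact hLK (subset_adjoin ℚ _ ⟨w, hw, hz⟩)
  have : NeZero q := ⟨hq.ne'⟩
  obtain ⟨ζ, hζ⟩ := HasEnoughRootsOfUnity.exists_primitiveRoot QA q
  have hζK : ζ ∈ K := hmem ζ 1 (one_mem _) (by rw [hζ.pow_eq_one]; simp)
  have hζ' : IsPrimitiveRoot (⟨ζ, hζK⟩ : K) q := by
    refine IsPrimitiveRoot.of_map_of_injective (f := K.val) ?_ K.val.injective
    exact hζ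
  have hpq' : ((q : ℕ) : AlgebraicClosure (ZMod p)) ≠ 0 := by
    intro h
    apply hpq
    rw [← ZMod.natCast_eq_zero_iff]
    apply (algebraMap (ZMod p) (AlgebraicClosure (ZMod p))).injective
    rw [map_natCast, map_zero, h]
  have h := frob_root hq hpq' hζ' hτ {w : ℚ | ∃ u ∈ W, (u : ℚ) = w} ⟨1, one_mem _, by simp⟩
    (by rintro w ⟨u, hu, rfl⟩; exact hU u hu) (by
      rintro w ⟨u, hu, rfl⟩
      obtain ⟨z, hz⟩ := IsAlgClosed.exists_pow_nat_eq (((u : ℚ)) : QA) hq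
      refine ⟨⟨z, hmem z u hu hz⟩, ?_⟩
      apply Subtype.ext
      push_cast
      exact hz)
  unfold PW
  constructor
  · intro h1
    obtain ⟨h2, h3⟩ := h.1 (by
      rintro z ⟨w, ⟨u, hu, rfl⟩, hz⟩
      exact h1 z ⟨u, hu, hz⟩)
    exact ⟨h2, fun w hw => h3 _ ⟨w, hw, rfl⟩⟩
  · rintro ⟨h2, h3⟩ y ⟨w, hw, hy⟩
    refine h.2 ⟨h2, ?_⟩ y ⟨w, ⟨w, hw, rfl⟩, hy⟩
    rintro w ⟨u, hu, rfl⟩
    exact h3 u hu

end Pool.Agent.W171.LG
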