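import Pool.Agent.W171.LG.Dens

/-! # Densities of primes with a Frobenius condition and power residue conditions -/

set_option autoImplicit false
set_option linter.unusedSectionVars false

namespace Pool.Agent.W171.LG

open NumberField Filter Topology Finset IntermediateField
open Pool.Agent.W401.Cheb

section
variable (F E : IntermediateField ℚ QA) [NumberField F] [IsGalois ℚ F]

/-- restriction of a homomorphism and its Frobenius element -/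
lemma frob_res {p : ℕ} [Fact p.Prime] [NumberField (F ⊔ E : IntermediateField ℚ QA)]
    [IsGalois ℚ (F ⊔ E : IntermediateField ℚ QA)]
    {φ : 𝓞 (F ⊔ E : IntermediateField ℚ QA) →+* AlgebraicClosure (ZMod p)}
    {τ : Gal((F ⊔ E : IntermediateField ℚ QA)/ℚ)} (hτ : HasFrob p φ τ) :
    ∃ ψ : 𝓞 F →+* AlgebraicClosure (ZMod p), HasFrob p ψ (resQ F E τ) := by
  let : Algebra F (F ⊔ E : IntermediateField ℚ QA) := (inclusion le_sup_left).toRingHom.toAlgebra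
  refine ⟨rs φ, hasFrob_rs (L := F) (L' := (F ⊔ E : IntermediateField ℚ QA)) (resQ F E) ?_ hτ⟩
  intro σ x
  apply Subtype.ext
  exact resQ_spec F E σ x

lemma good_iff (C : Set Gal(F/ℚ)) (hC : ∀ σ ∈ C, ∀ τ : Gal(F/ℚ), τ * σ * τ⁻¹ ∈ C)
    (W1 W0 : Subgroup ℚˣ) (q1 q0 : ℕ) (hq1 : 0 < q1) (hq0 : 0 < q0)
    [NumberField (Kf F W1 W0 q1 q0)] [IsGalois ℚ (Kf F W1 W0 q1 q0)] {p : ℕ} [Fact p.Prime]
    (hTK : TorAt (Kf F W1 W0 q1 q0) p) (hTF : TorAt F p) (h1 : ¬ p ∣ q1) (h0 : ¬ p ∣ q0)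
    (hU1 : UnW W1 p) (hU0 : UnW W0 p) :
    FI (Kf F W1 W0 q1 q0) (Xs F C W1 W0 q1 q0) p ↔ (GF F C p ∧ PW W1 q1 p ∧ PW W0 q0 p) := by
  obtain ⟨φ⟩ := nonempty_hom hTK
  obtain ⟨τ, hτ⟩ := exists_frob hTK φ
  rw [fi_iff hTK (Xs_conj F C W1 W0 q1 q0 hC) hτ, mem_Xs]
  have hL1 : Lf QA W1 q1 ≤ Kf F W1 W0 q1 q0 := le_sup_left.trans le_sup_right
  have hL0 : Lf QA W0 q0 ≤ Kf F W1 W0 q1 q0 := le_sup_right.trans le_sup_right
  rw [frob_PW hq1 hL1 h1 hU1 hτ, frob_PW hq0 hL0 h0 hU0 hτ, GF_iff C Fact.out]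
  have i1 : NumberField (F ⊔ (Lf QA W1 q1 ⊔ Lf QA W0 q0) : IntermediateField ℚ QA) :=
    inferInstanceAs (NumberField (Kf F W1 W0 q1 q0))
  have i2 : IsGalois ℚ (F ⊔ (Lf QA W1 q1 ⊔ Lf QA W0 q0) : IntermediateField ℚ QA) :=
    inferInstanceAs (IsGalois ℚ (Kf F W1 W0 q1 q0))
  obtain ⟨ψ, hψ⟩ := frob_res F (Lf QA W1 q1 ⊔ Lf QA W0 q0) hτ
  rw [fi_iff hTF hC hψ]

/-- the number of elements of `C` which are trivial on `E` -/
noncomputable def cE (C : Set Gal(F/ℚ)) (E : IntermediateField ℚ QA) : ℕ :=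
  Nat.card {σ : Gal(F/ℚ) // σ ∈ C ∧ ∀ y : F, (y : QA) ∈ E → σ y = y}

lemma card_Xs (C : Set Gal(F/ℚ)) (W1 W0 : Subgroup ℚˣ) (q1 q0 : ℕ) (hW1 : W1.FG) (hW0 : W0.FG)
    (hq1 : 0 < q1) (hq0 : 0 < q0) :
    Nat.card (Xs F C W1 W0 q1 q0) = cE F C (Lf QA W1 q1 ⊔ Lf QA W0 q0) := by
  have hN : Normal ℚ F := inferInstance
  have hF : FiniteDimensional ℚ F := NumberField.to_finiteDimensional
  have hK : FiniteDimensional ℚ (Kf F W1 W0 q1 q0) := Kf_fin F hW1 hW0 hq1 hq0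
  have hG : IsGalois ℚ (Kf F W1 W0 q1 q0) := Kf_galQ F W1 W0 q1 q0
  exact @card_res ℚ QA _ _ _ F (Lf QA W1 q1 ⊔ Lf QA W0 q0) hF hN hK hG C

open Classical in
/-- **the density of the primes with given Frobenius condition and power residue conditions** -/
theorem dens (C : Set Gal(F/ℚ)) (hC : ∀ σ ∈ C, ∀ τ : Gal(F/ℚ), τ * σ * τ⁻¹ ∈ C)
    (W1 W0 : Subgroup ℚˣ) (q1 q0 : ℕ) (hW1 : W1.FG) (hW0 : W0.FG)
    (hq1 : 0 < q1) (hq0 : 0 < q0) :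
    Tendsto (M fun p => if GF F C p ∧ PW W1 q1 p ∧ PW W0 q0 p then 1 else 0) atTop
      (𝓝 ((cE F C (Lf QA W1 q1 ⊔ Lf QA W0 q0) : ℝ) /
        (Module.finrank ℚ (Kf F W1 W0 q1 q0) : ℝ))) := by
  have : NumberField (Kf F W1 W0 q1 q0) := Kf_nf F W1 W0 q1 q0 hW1 hW0 hq1 hq0
  have : IsGalois ℚ (Kf F W1 W0 q1 q0) := Kf_galQ F W1 W0 q1 q0
  have h := mean_FI (Xs_conj F C W1 W0 q1 q0 hC)
  have e1 : Nat.card Gal(Kf F W1 W0 q1 q0/ℚ) = Module.finrank ℚ (Kf F W1 W0 q1 q0) :=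
    IsGalois.card_aut_eq_finrank ℚ (Kf F W1 W0 q1 q0)
  rw [card_Xs F C W1 W0 q1 q0 hW1 hW0 hq1 hq0, e1] at h
  obtain ⟨D1, hD1, hT1⟩ := torsor (Kf F W1 W0 q1 q0)
  obtain ⟨D2, hD2, hT2⟩ := torsor F
  obtain ⟨D3, hD3, hU1⟩ := exists_unW hW1
  obtain ⟨D4, hD4, hU0⟩ := exists_unW hW0
  refine M_congr (D := D1 * D2 * D3 * D4 * q1 * q0) (by positivity) ?_ h
  intro p hp hpD
  have : Fact p.Prime := ⟨hp⟩
  have key := good_iff F C hC W1 W0 q1 q0 hq1 hq0 (p := p)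
    (hT1 p fun h => hpD (by simp only [mul_assoc]; exact Dvd.dvd.mul_right h _))
    (hT2 p fun h => hpD (by
      have := (Dvd.dvd.mul_left h D1)
      exact Dvd.dvd.mul_right (Dvd.dvd.mul_right (Dvd.dvd.mul_right (Dvd.dvd.mul_right this _) _) _) _))
    (fun h => hpD (Dvd.dvd.mul_right (Dvd.dvd.mul_left h _) _))
    (fun h => hpD (Dvd.dvd.mul_left h _))
    (hU1 p fun h => hpD (by
      have := (Dvd.dvd.mul_left h (D1 * D2))
      exact Dvd.dvd.mul_right (Dvd.dvd.mul_right (Dvd.dvd.mul_right this _) _) _))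
    (hU0 p fun h => hpD (by
      have := (Dvd.dvd.mul_left h (D1 * D2 * D3))
      exact Dvd.dvd.mul_right (Dvd.dvd.mul_right this _) _))
  simp only [key]

end

end Pool.Agent.W171.LG
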