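import Pool.Agent.W171.LG.Mean

/-! # Frobenius condition with prime ideals -/

set_option autoImplicit false

namespace Pool.Agent.W171.LG

open NumberField Filter Topology Finset
open Pool.Agent.W401.Cheb

/-- the Frobenius condition of the problem -/
def GF (K : Type) [Field K] [NumberField K] (C : Set Gal(K/ℚ)) (p : ℕ) : Prop :=
  ∃ σ ∈ C, ∃ Q : Ideal (𝓞 K), Q.IsPrime ∧
    Q.comap (algebraMap ℤ (𝓞 K)) = Ideal.span {(p : ℤ)} ∧
    ∀ a b : 𝓞 K, (b : K) = σ (a : K) → b - a ^ p ∈ Q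

variable {K : Type} [Field K] [NumberField K] [IsGalois ℚ K]

lemma exists_hom_of_prime {p : ℕ} [Fact p.Prime] (Q : Ideal (𝓞 K)) (hQ : Q.IsPrime)
    (hp : Q.comap (algebraMap ℤ (𝓞 K)) = Ideal.span {(p : ℤ)}) :
    ∃ φ : 𝓞 K →+* AlgebraicClosure (ZMod p), ∀ x, φ x = 0 ↔ x ∈ Q := by
  have hpQ : (p : 𝓞 K) ∈ Q := by
    have h1 : (p : ℤ) ∈ Q.comap (algebraMap ℤ (𝓞 K)) := by
      rw [hp]
      exact Ideal.mem_span_singleton_self _
    rw [Ideal.mem_comap] at h1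
    simpa using h1
  have hQ0 : Q ≠ ⊥ := by
    rintro rfl
    rw [Ideal.mem_bot] at hpQ
    have h2 : (p : ℕ) ≠ 0 := (Fact.out : p.Prime).ne_zero
    exact h2 (by exact_mod_cast hpQ)
  have hmax : Q.IsMaximal := hQ.isMaximal hQ0
  let _ : Field (𝓞 K ⧸ Q) := Ideal.Quotient.field Q
  have hch : CharP (𝓞 K ⧸ Q) p := by
    have h1 : ((p : ℕ) : 𝓞 K ⧸ Q) = 0 := by
      have := (Ideal.Quotient.eq_zero_iff_mem (I := Q)).2 hpQ
      simpa using this
    obtain ⟨c, hc⟩ := CharP.exists (𝓞 K ⧸ Q)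
    have h2 : c ∣ p := (CharP.cast_eq_zero_iff (𝓞 K ⧸ Q) c p).1 h1
    rcases (Nat.dvd_prime (Fact.out : p.Prime)).1 h2 with h3 | h3
    · exfalso
      rw [h3] at hc
      have h4 := CharP.cast_eq_zero (𝓞 K ⧸ Q) 1
      rw [Nat.cast_one] at h4
      exact one_ne_zero h4
    · rwa [h3] at hc
  let _ : Algebra (ZMod p) (𝓞 K ⧸ Q) := ZMod.algebra _ p
  have hfin : Finite (𝓞 K ⧸ Q) := Ideal.finiteQuotientOfFreeOfNeBot Q hQ0
  have halg : Algebra.IsAlgebraic (ZMod p) (𝓞 K ⧸ Q) := by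
    have : Module.Finite (ZMod p) (𝓞 K ⧸ Q) := Module.Finite.of_finite
    exact Algebra.IsAlgebraic.of_finite _ _
  let ψ : (𝓞 K ⧸ Q) →ₐ[ZMod p] AlgebraicClosure (ZMod p) := IsAlgClosed.lift
  refine ⟨ψ.toRingHom.comp (Ideal.Quotient.mk Q), fun x => ?_⟩
  rw [← Ideal.Quotient.eq_zero_iff_mem]
  constructor
  · intro h
    exact ψ.toRingHom.injective (by rw [map_zero]; exact h)
  · intro h
    rw [RingHom.comp_apply, h, map_zero]

theorem GF_iff (C : Set Gal(K/ℚ)) {p : ℕ} (hp : p.Prime) : GF K C p ↔ FI K C p := by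
  have : Fact p.Prime := ⟨hp⟩
  constructor
  · rintro ⟨σ, hσ, Q, hQ, hpQ, h⟩
    obtain ⟨φ, hφ⟩ := exists_hom_of_prime Q hQ hpQ
    refine ⟨this, φ, σ, fun x => ?_, hσ⟩
    have h1 := h x (σ • x) rfl
    rw [← hφ, map_sub, map_pow, sub_eq_zero] at h1
    exact h1
  · rintro ⟨_, φ, σ, hφ, hσ⟩
    refine ⟨σ, hσ, RingHom.ker φ, RingHom.ker_isPrime φ, ?_, ?_⟩
    · ext z
      rw [Ideal.mem_comap, RingHom.mem_ker, Ideal.mem_span_singleton]
      have h1 : φ (algebraMap ℤ (𝓞 K) z) = algebraMap (ZMod p) (AlgebraicClosure (ZMod p)) z := by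
        simp
      rw [h1, map_eq_zero, ZMod.intCast_zmod_eq_zero_iff_dvd]
    · intro a b hab
      have h1 : b = σ • a := by
        apply RingOfIntegers.coe_injective
        exact hab
      rw [RingHom.mem_ker, map_sub, map_pow, h1, hφ a, sub_self]

end Pool.Agent.W171.LG
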