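import Pool.Agent.W171.LG.Lim
import Pool.Agent.H981R3.LN.Lim2

/-! # The main term for the family `W₀ ⬝ ⟨D n⟩` -/

set_option autoImplicit false
set_option linter.unusedSectionVars false

namespace Pool.Agent.W171.LG

open NumberField Filter Topology Finset IntermediateField
open Pool.Agent.W401.Cheb
open Pool.Agent.H386R2.Artin (PP LC_pos)
open Pool.Agent.H981R3.LN (ql Sk mem_Sk mem_PP Sk_dvd Sk_prime Qn Qn_dvd Qn_pos SL mem_SL prod_ql_pos)
open Pool.Agent.H730R2.AA.Euler (mu_eq_prod summable_bound sqrt_le_totient)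

/-- degrees of fields which contain a root of unity -/
lemma totient_le_finrank {K : IntermediateField ℚ QA} [FiniteDimensional ℚ K] {q : ℕ} (hq : 0 < q)
    {ζ : QA} (hζ : IsPrimitiveRoot ζ q) (hK : ζ ∈ K) : Nat.totient q ≤ Module.finrank ℚ K := by
  have h1 : adjoin ℚ {ζ} ≤ K := by
    rw [adjoin_le_iff, Set.singleton_subset_iff]
    exact hK
  have hint : IsIntegral ℚ ζ := by
    have h1 : IsIntegral ℤ ζ := hζ.isIntegral hq
    exact h1.tower_top
  have h2 : Module.finrank ℚ (adjoin ℚ {ζ} : IntermediateField ℚ QA) = Nat.totient q := by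
    rw [adjoin.finrank hint, ← Polynomial.cyclotomic_eq_minpoly_rat hζ hq,
      Polynomial.natDegree_cyclotomic]
  rw [← h2]
  exact Submodule.finrank_mono (s := (adjoin ℚ {ζ} : IntermediateField ℚ QA).toSubmodule)
    (t := K.toSubmodule) h1

lemma root_one_mem (W : Subgroup ℚˣ) {q : ℕ} {ζ : QA} (hζ : ζ ^ q = 1) : ζ ∈ Lf QA W q := by
  unfold Lf
  refine subset_adjoin _ _ ⟨1, W.one_mem, ?_⟩
  rw [hζ]
  simp

lemma Lf_bot_one : Lf QA (⊥ : Subgroup ℚˣ) 1 = ⊥ := by
  unfold Lf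
  rw [adjoin_eq_bot_iff]
  rintro z ⟨w, hw, hz⟩
  rw [Subgroup.mem_bot] at hw
  rw [pow_one, hw] at hz
  rw [hz]
  exact IntermediateField.algebraMap_mem _ _

section
variable (F : IntermediateField ℚ QA) [NumberField F] [IsGalois ℚ F] (C : Set Gal(F/ℚ))
  (W0 : Subgroup ℚˣ) (k : ℕ)

lemma cE_le (E : IntermediateField ℚ QA) : cE F C E ≤ Nat.card Gal(F/ℚ) := by
  unfold cE
  exact Nat.card_le_card_of_injective _ Subtype.val_injective

/-- the terms of the main term -/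
noncomputable def aT (n : ℕ) : ℝ :=
  ((ArithmeticFunction.moebius n : ℤ) : ℝ) * (cE F C (Lf QA W0 (Qn k n)) : ℝ) /
    ((Qn k n : ℝ) * (Module.finrank ℚ (F ⊔ Lf QA W0 (Qn k n) : IntermediateField ℚ QA) : ℝ))

variable {W0}

lemma supF_fin (hW0 : W0.FG) {q : ℕ} (hq : 0 < q) :
    FiniteDimensional ℚ (F ⊔ Lf QA W0 q : IntermediateField ℚ QA) := by
  have h1 : FiniteDimensional ℚ (Lf QA W0 q) := Lf_fin hW0 hq
  have h2 : FiniteDimensional ℚ F := NumberField.to_finiteDimensional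
  exact IntermediateField.finiteDimensional_sup _ _

lemma totient_le_sup (hW0 : W0.FG) {q : ℕ} (hq : 0 < q) :
    Nat.totient q ≤ Module.finrank ℚ (F ⊔ Lf QA W0 q : IntermediateField ℚ QA) := by
  have := supF_fin F hW0 hq
  have : NeZero q := ⟨hq.ne'⟩
  obtain ⟨ζ, hζ⟩ := HasEnoughRootsOfUnity.exists_primitiveRoot QA q
  exact totient_le_finrank hq hζ (le_sup_right (a := F) (root_one_mem W0 hζ.pow_eq_one))

lemma aT_bound (hW0 : W0.FG) (n : ℕ) :
    ‖aT F C W0 k n‖ ≤ (Nat.card Gal(F/ℚ) : ℝ) * (2 * (1 / (n : ℝ) ^ (3 / 2 : ℝ))) := by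
  rw [Real.norm_eq_abs]
  by_cases hs : Squarefree n
  · have hn : 0 < n := Nat.pos_of_ne_zero hs.ne_zero
    have hn0 : (0 : ℝ) < n := by exact_mod_cast hn
    unfold aT
    set Q := Qn k n with hQ
    have hQ0 : 0 < Q := Qn_pos k n
    have hQn : n ≤ Q := Nat.le_of_dvd hQ0 (Qn_dvd k n hs)
    set d := Module.finrank ℚ (F ⊔ Lf QA W0 Q : IntermediateField ℚ QA) with hd
    have hdt : Nat.totient Q ≤ d := totient_le_sup F hW0 hQ0
    have ht : Nat.totient n ≤ d :=
      (Nat.le_of_dvd (Nat.totient_pos.2 hQ0) (Nat.totient_dvd_of_dvd (Qn_dvd k n hs))).trans hdt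
    have ht0 : 0 < Nat.totient n := Nat.totient_pos.2 hn
    have h1 : |((ArithmeticFunction.moebius n : ℤ) : ℝ)| ≤ 1 := by
      exact_mod_cast ArithmeticFunction.abs_moebius_le_one (n := n)
    have h2 : (cE F C (Lf QA W0 Q) : ℝ) ≤ (Nat.card Gal(F/ℚ) : ℝ) := by
      exact_mod_cast cE_le F C _
    have h3 := sqrt_le_totient n hn
    have h4 : (n : ℝ) ≤ Q := by exact_mod_cast hQn
    have h5 : (Nat.totient n : ℝ) ≤ d := by exact_mod_cast ht
    have h6 : (0 : ℝ) < Nat.totient n := by exact_mod_cast ht0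
    have h7 : (n : ℝ) ^ (3 / 2 : ℝ) = n * Real.sqrt n := by
      rw [show (3 / 2 : ℝ) = 1 + 1 / 2 by norm_num, Real.rpow_add hn0, Real.rpow_one,
        ← Real.sqrt_eq_rpow]
    have hs0 : 0 < Real.sqrt n := Real.sqrt_pos.mpr hn0
    have h8 : (n : ℝ) * Real.sqrt n ≤ 2 * ((Q : ℝ) * d) := by
      calc (n : ℝ) * Real.sqrt n ≤ n * (2 * Nat.totient n) := by gcongr
        _ ≤ Q * (2 * d) := by gcongr
        _ = _ := by ring
    have h9 : (0 : ℝ) < (Q : ℝ) * d := by
      have : (0 : ℝ) < n * Real.sqrt n := by positivity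
      linarith
    rw [abs_div, abs_of_pos h9, abs_mul, Nat.abs_cast, h7]
    rw [div_le_iff₀ h9]
    have hc0 : (0 : ℝ) ≤ cE F C (Lf QA W0 Q) := Nat.cast_nonneg _
    have hA0 : (0 : ℝ) ≤ Nat.card Gal(F/ℚ) := Nat.cast_nonneg _
    calc |((ArithmeticFunction.moebius n : ℤ) : ℝ)| * (cE F C (Lf QA W0 Q) : ℝ)
        ≤ 1 * Nat.card Gal(F/ℚ) := by gcongr
      _ = Nat.card Gal(F/ℚ) := one_mul _
      _ = Nat.card Gal(F/ℚ) * (1 / (n * Real.sqrt n) * (n * Real.sqrt n)) := by field_simp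
      _ ≤ Nat.card Gal(F/ℚ) * (1 / (n * Real.sqrt n) * (2 * ((Q : ℝ) * d))) := by gcongr
      _ = _ := by ring
  · have h0 : aT F C W0 k n = 0 := by
      unfold aT
      rw [ArithmeticFunction.moebius_eq_zero_of_not_squarefree hs]
      simp
    rw [h0, abs_zero]
    positivity

lemma aT_summable (hW0 : W0.FG) : Summable (aT F C W0 k) :=
  Summable.of_norm_bounded (summable_bound.mul_left _) (aT_bound F C k hW0)

open Classical in
lemma dLr_eq (L : ℕ) : dLr F C ⊥ W0 k ∅ L = ∑ n ∈ SL L, aT F C W0 k n := by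
  have e0 : dLr F C ⊥ W0 k ∅ L = ∑ K ∈ (PP L).powerset,
      (-1 : ℝ) ^ #K * (1 / ((∏ l ∈ K, ql k l : ℕ) : ℝ)) *
        ((cE F C (Lf QA W0 (∏ l ∈ K, ql k l)) : ℝ) /
          (Module.finrank ℚ (F ⊔ Lf QA W0 (∏ l ∈ K, ql k l) : IntermediateField ℚ QA) : ℝ)) := by
    unfold dLr
    have hset : (PP L).powerset.filter (fun K => Disjoint K ∅) = (PP L).powerset := by
      rw [filter_true_of_mem]
      intro K _
      exact Finset.disjoint_empty_right K
    rw [hset]
    refine Finset.sum_congr rfl fun K _ => ?_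
    congr 1
    rw [Finset.powerset_empty, Finset.sum_singleton, Finset.card_empty, pow_zero, one_mul]
    have e1 : Lf QA (⊥ : Subgroup ℚˣ) (∏ l ∈ (∅ : Finset ℕ), ql k l) ⊔
        Lf QA W0 (∏ l ∈ K, ql k l) = Lf QA W0 (∏ l ∈ K, ql k l) := by
      rw [Finset.prod_empty, Lf_bot_one, bot_sup_eq]
    exact congrArg (fun E : IntermediateField ℚ QA => (cE F C E : ℝ) /
      (Module.finrank ℚ (F ⊔ E : IntermediateField ℚ QA) : ℝ)) e1
  rw [e0]
  unfold SL
  rw [Finset.sum_image]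
  · refine Finset.sum_congr rfl fun K hK => ?_
    rw [mem_powerset] at hK
    have hp : ∀ l ∈ K, l.Prime := fun l hl => (mem_PP.1 (hK hl)).2
    have h1 : (∏ l ∈ K, l).primeFactors = K := Nat.primeFactors_prod hp
    have hsq : Squarefree (∏ l ∈ K, l) := Pool.Agent.H771R4.AQ.sqf_prod K hp
    have h2 : Qn k (∏ l ∈ K, l) = ∏ l ∈ K, ql k l := by
      unfold Qn
      rw [h1]
    unfold aT
    rw [mu_eq_prod _ hsq, h1, Finset.prod_const, h2]
    rw [mul_one_div, div_mul_div_comm]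
  · intro K hK K' hK' h
    simp only [Finset.coe_powerset, Set.mem_preimage, Set.mem_powerset_iff, Finset.coe_subset]
      at hK hK'
    have h1 : (∏ l ∈ K, l).primeFactors = K :=
      Nat.primeFactors_prod fun l hl => (mem_PP.1 (hK hl)).2
    have h2 : (∏ l ∈ K', l).primeFactors = K' :=
      Nat.primeFactors_prod fun l hl => (mem_PP.1 (hK' hl)).2
    rw [← h1, ← h2]
    exact congrArg Nat.primeFactors h

lemma dLr_tendsto (hW0 : W0.FG) :
    Tendsto (dLr F C ⊥ W0 k ∅) atTop (𝓝 (∑' n : ℕ, aT F C W0 k n)) := by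
  classical
  have h := (aT_summable F C k hW0).hasSum
  rw [Metric.tendsto_atTop]
  intro ε hε
  have h1 := (Metric.tendsto_nhds.1 h) ε hε
  obtain ⟨s, hs⟩ := (Filter.eventually_atTop.1 h1)
  refine ⟨s.sup id, fun L hL => ?_⟩
  have h2 := hs (SL L ∪ s) subset_union_right
  rw [dLr_eq]
  have h3 : ∑ n ∈ SL L, aT F C W0 k n = ∑ n ∈ SL L ∪ s, aT F C W0 k n := by
    refine Finset.sum_subset subset_union_left fun n hn hn2 => ?_
    rw [Finset.mem_union] at hn
    have hns : n ∈ s := hn.resolve_left hn2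
    have hnL : n ≤ L := (Finset.le_sup (f := id) hns).trans hL
    have hsq : ¬ Squarefree n := fun h => hn2 (mem_SL h hnL)
    unfold aT
    rw [ArithmeticFunction.moebius_eq_zero_of_not_squarefree hsq]
    simp
  rw [h3]
  exact h2

open Classical in
/-- the mean of the local densities of Lenstra's problem -/
theorem lim_len (hC : ∀ σ ∈ C, ∀ τ : Gal(F/ℚ), τ * σ * τ⁻¹ ∈ C) (hW0 : W0.FG) :
    Tendsto (M fun p => if gd F C ⊥ k ∅ p then gT k (Tp W0 k ∅ p) else 0) atTop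
      (𝓝 (∑' n : ℕ, aT F C W0 k n)) := by
  refine lim_of k _ _ (fun p _ => ?_) (dLr F C ⊥ W0 k ∅) _ (fun L => ?_) (dLr_tendsto F C k hW0)
  · intro l hl
    unfold Tp at hl
    rw [Finset.mem_filter] at hl
    exact hl.1
  · exact avg_trunc F C ⊥ W0 k ∅ hC ⟨∅, by simp⟩ hW0 (by simp) L

end

end Pool.Agent.W171.LG
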