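import Pool.Agent.W171.LG.LenDat
import Pool.Agent.W171.LG.LenMain
import Pool.Agent.W171.LG.Cyc

/-! # Degrees for generic `n` -/

set_option autoImplicit false
set_option linter.unusedSectionVars false

namespace Pool.Agent.W171.LG

open NumberField IntermediateField
open Pool.Agent.W401.Cheb

section
variable {W0 : Subgroup ℚˣ} {u : ℚˣ} {q : ℕ} {α : QA}

/-- adding one generator -/
theorem Lf_sup (hq : 0 < q) (hα : α ^ q = algebraMap ℚ QA (u : ℚ)) :
    Lf QA (W0 ⊔ Subgroup.zpowers u) q = Lf QA W0 q ⊔ adjoin ℚ {α} := by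
  have hα0 : α ≠ 0 := by
    rintro rfl
    rw [zero_pow hq.ne'] at hα
    exact u.ne_zero ((map_eq_zero _).1 hα.symm)
  have hone : ∀ z : QA, z ^ q = 1 → z ∈ Lf QA W0 q ⊔ adjoin ℚ {α} := fun z hz =>
    le_sup_left (a := Lf QA W0 q) (root_one_mem W0 hz)
  have hαm : α ∈ Lf QA W0 q ⊔ adjoin ℚ {α} :=
    le_sup_right (a := Lf QA W0 q) (mem_adjoin_simple_self ℚ α)
  apply le_antisymm
  · have h0 : Lf QA (W0 ⊔ Subgroup.zpowers u) q ≤ Lf QA W0 q ⊔ adjoin ℚ {α} := by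
      unfold Lf
      rw [adjoin_le_iff]
      rintro z ⟨w, hw, hz⟩
      rw [sup_zpowers] at hw
      refine root_mem ((W0 : Set ℚˣ) ∪ {u}) hq _ hone ?_ hw z hz
      rintro w (hw | hw) y hy
      · exact le_sup_left (a := Lf QA W0 q) (subset_adjoin _ _ ⟨w, hw, hy⟩)
      · rw [Set.mem_singleton_iff] at hw
        rw [hw, ← hα] at hy
        have h2 : (y / α) ^ q = 1 := by
          rw [div_pow, hy]
          exact div_self (pow_ne_zero _ hα0)
        have h3 := (Lf QA W0 q ⊔ adjoin ℚ {α}).mul_mem (hone _ h2) hαm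
        rwa [div_mul_cancel₀ _ hα0] at h3
    exact h0
  · refine sup_le (Lf_mono le_sup_left q) ?_
    rw [adjoin_le_iff, Set.singleton_subset_iff]
    exact subset_adjoin _ _ ⟨u, Subgroup.mem_sup_right (Subgroup.mem_zpowers u), hα⟩

end

section
variable (F : IntermediateField ℚ QA) [NumberField F] [IsGalois ℚ F] (C : Set Gal(F/ℚ))
  {W0 : Subgroup ℚˣ} {u : ℚˣ} {q : ℕ}

lemma deg_mid (hq : 0 < q) {α : QA} (hα : α ^ q = algebraMap ℚ QA (u : ℚ))
    (H : ∀ r : ℕ, r.Prime → r ∣ q → ∀ b : QA, b ∈ F ⊔ Lf QA W0 q → b ^ r ≠ algebraMap ℚ QA (u : ℚ))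
    (M : IntermediateField ℚ QA) (h1 : Lf QA W0 q ≤ M) (h2 : M ≤ F ⊔ Lf QA W0 q) :
    Module.finrank ℚ (M ⊔ adjoin ℚ {α} : IntermediateField ℚ QA) = Module.finrank ℚ M * q := by
  have : NeZero q := ⟨hq.ne'⟩
  obtain ⟨ζ, hζ⟩ := HasEnoughRootsOfUnity.exists_primitiveRoot QA q
  have hζM : ζ ∈ M := h1 (root_one_mem W0 hζ.pow_eq_one)
  have hζ' : IsPrimitiveRoot (⟨ζ, hζM⟩ : M) q := by
    refine IsPrimitiveRoot.of_map_of_injective (f := M.val) ?_ M.val.injective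
    exact hζ
  refine finrank_radical M hq hζ' u.ne_zero hα (fun r hr hrq b hb => ?_)
  refine H r hr hrq (b : QA) (h2 b.2) ?_
  have := congrArg (fun z : M => (z : QA)) hb
  exact this

/-- the degree for a generic element -/
theorem deg_gen (hq : 0 < q)
    (H : ∀ r : ℕ, r.Prime → r ∣ q → ∀ b : QA, b ∈ F ⊔ Lf QA W0 q → b ^ r ≠ algebraMap ℚ QA (u : ℚ)) :
    Module.finrank ℚ (F ⊔ Lf QA (W0 ⊔ Subgroup.zpowers u) q : IntermediateField ℚ QA) =
      Module.finrank ℚ (F ⊔ Lf QA W0 q : IntermediateField ℚ QA) * q := by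
  obtain ⟨α, hα⟩ := IsAlgClosed.exists_pow_nat_eq (algebraMap ℚ QA (u : ℚ)) hq
  rw [Lf_sup hq hα, ← sup_assoc]
  exact deg_mid F hq hα H _ le_sup_right le_rfl

/-- the intersection with `F` for a generic element -/
theorem cE_gen (hW0 : W0.FG) (hq : 0 < q)
    (H : ∀ r : ℕ, r.Prime → r ∣ q → ∀ b : QA, b ∈ F ⊔ Lf QA W0 q → b ^ r ≠ algebraMap ℚ QA (u : ℚ)) :
    cE F C (Lf QA (W0 ⊔ Subgroup.zpowers u) q) = cE F C (Lf QA W0 q) := by
  obtain ⟨α, hα⟩ := IsAlgClosed.exists_pow_nat_eq (algebraMap ℚ QA (u : ℚ)) hq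
  have hL := Lf_sup (W0 := W0) hq hα
  have key : ∀ y : QA, y ∈ F → y ∈ Lf QA (W0 ⊔ Subgroup.zpowers u) q → y ∈ Lf QA W0 q := by
    intro y hyF hy
    set M : IntermediateField ℚ QA := (F ⊔ Lf QA W0 q) ⊓ Lf QA (W0 ⊔ Subgroup.zpowers u) q with hM
    have h1 : Lf QA W0 q ≤ M := le_inf le_sup_right (Lf_mono le_sup_left q)
    have h2 : M ≤ F ⊔ Lf QA W0 q := inf_le_left
    have e1 := deg_mid F hq hα H M h1 h2
    have e2 := deg_mid F hq hα H (Lf QA W0 q) le_rfl le_sup_right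
    have e3 : M ⊔ adjoin ℚ {α} = Lf QA W0 q ⊔ adjoin ℚ {α} := by
      apply le_antisymm
      · rw [← hL]
        refine sup_le inf_le_right ?_
        rw [hL]
        exact le_sup_right
      · exact sup_le_sup_right h1 _
    rw [e3, e2] at e1
    have e4 : Module.finrank ℚ (Lf QA W0 q) = Module.finrank ℚ M :=
      Nat.eq_of_mul_eq_mul_right hq e1
    have hfin : FiniteDimensional ℚ (F ⊔ Lf QA W0 q : IntermediateField ℚ QA) := supF_fin F hW0 hq
    have hMfin : FiniteDimensional ℚ M :=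
      Module.Finite.of_injective (inclusion h2).toLinearMap (inclusion_injective h2)
    have e5 : Lf QA W0 q = M := IntermediateField.eq_of_le_of_finrank_eq h1 e4
    rw [e5]
    exact ⟨le_sup_left (a := F) hyF, hy⟩
  unfold cE
  refine Nat.card_congr (Equiv.subtypeEquivRight fun σ => ?_)
  refine and_congr_right fun _ => ?_
  constructor
  · intro h y hy
    exact h y (Lf_mono le_sup_left q hy)
  · intro h y hy
    exact h y (key y y.2 hy)

end

/-- no roots of `D n` in fields unramified at a prime which divides `n` exactly once -/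
theorem no_root_gen (K : IntermediateField ℚ QA) [NumberField K] {D : ℚˣ} {n p : ℕ} (hp : p.Prime)
    (hD : Un p (D : ℚ)) (hn : n ≠ 0) (h1 : p ∣ n) (h2 : ¬ p ^ 2 ∣ n) (hd : ¬ (p : ℤ) ∣ discr K)
    {r : ℕ} (hr : r.Prime) (b : QA) (hb : b ∈ K) :
    b ^ r ≠ algebraMap ℚ QA ((Dn D n : ℚˣ) : ℚ) := by
  intro hbr
  have : Fact p.Prime := ⟨hp⟩
  have hpi : Prime (p : ℤ) := Nat.prime_iff_prime_int.1 hp
  have hnum : ¬ (p : ℤ) ∣ (D : ℚ).num := by
    intro h
    exact hD.1 ((ZMod.intCast_zmod_eq_zero_iff_dvd _ _).2 h)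
  have hden : ¬ (p : ℤ) ∣ ((D : ℚ).den : ℤ) := by
    intro h
    apply hD.2
    rw [ZMod.natCast_eq_zero_iff]
    exact_mod_cast h
  set v : ℤ := (D : ℚ).num * n * ((D : ℚ).den : ℤ) ^ (r - 1) with hv
  have hdq : ((D : ℚ).den : ℚ) ≠ 0 := by exact_mod_cast (D : ℚ).den_ne_zero
  have hc : ((⟨b, hb⟩ : K) * ((D : ℚ).den : K)) ^ r = ((v : ℤ) : K) := by
    apply Subtype.ext
    have e1 : (((⟨b, hb⟩ : K) * ((D : ℚ).den : K)) ^ r : K).1 = (b * ((D : ℚ).den : QA)) ^ r := by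
      simp
    have e2 : (((v : ℤ) : K) : QA) = ((v : ℤ) : QA) := by simp
    rw [e1, e2, mul_pow, hbr, Dn_val D hn]
    have e3 : (D : ℚ) = ((D : ℚ).num : ℚ) / ((D : ℚ).den : ℚ) := (Rat.num_div_den _).symm
    have e4 : ((v : ℤ) : ℚ) = (D : ℚ) * n * ((D : ℚ).den : ℚ) ^ r := by
      obtain ⟨s, rfl⟩ : ∃ s, r = s + 1 := ⟨r - 1, by have := hr.pos; omega⟩
      rw [hv, Nat.add_sub_cancel]
      push_cast
      nth_rewrite 3 [e3]
      field_simp
      ring
    have e5 : ((v : ℤ) : QA) = algebraMap ℚ QA ((v : ℤ) : ℚ) := by simp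
    rw [e5, e4]
    simp
  refine no_root_discr (K := K) (t := 1) hp hr.pos hd (u := v) ?_ ?_ ?_ _ hc
  · rw [pow_one, hv]
    refine Dvd.dvd.mul_right (Dvd.dvd.mul_left ?_ _) _
    exact_mod_cast h1
  · intro h
    obtain ⟨m, rfl⟩ := h1
    have hm : ¬ (p : ℤ) ∣ (m : ℤ) := by
      intro h3
      apply h2
      rw [pow_two]
      exact mul_dvd_mul_left p (by exact_mod_cast h3)
    have h4 : v = (p : ℤ) * ((D : ℚ).num * m * ((D : ℚ).den : ℤ) ^ (r - 1)) := by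
      rw [hv]
      push_cast
      ring
    rw [h4, pow_succ, pow_one, mul_dvd_mul_iff_left hpi.ne_zero] at h
    rcases hpi.dvd_or_dvd h with h5 | h5
    · rcases hpi.dvd_or_dvd h5 with h6 | h6
      · exact hnum h6
      · exact hm h6
    · exact hden (hpi.dvd_of_dvd_pow h5)
  · intro h
    exact hr.one_lt.ne' (Nat.dvd_one.1 h)

end Pool.Agent.W171.LG
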