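import Pool.Agent.W171.LG.LenMain

/-! # The main term for the family `W₀ ⬝ ⟨D n ^ r⟩` -/

set_option autoImplicit false
set_option linter.unusedSectionVars false

namespace Pool.Agent.W171.LG

open NumberField Filter Topology Finset IntermediateField
open Pool.Agent.W401.Cheb
open Pool.Agent.H386R2.Artin (PP LC_pos)
open Pool.Agent.H981R3.LN (ql Sk mem_Sk mem_PP Sk_dvd Sk_prime Qn Qn_dvd Qn_pos SL mem_SL prod_ql_pos)
open Pool.Agent.H730R2.AA.Euler (mu_eq_prod summable_bound sqrt_le_totient)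

lemma mem_of_pow_mem {E : IntermediateField ℚ QA} {z : QA} {a b : ℕ} (hab : Nat.Coprime a b)
    (h1 : z ^ a ∈ E) (h2 : z ^ b ∈ E) : z ∈ E := by
  by_cases hz : z = 0
  · rw [hz]
    exact E.zero_mem
  have h3 : z = (z ^ a) ^ (Nat.gcdA a b) * (z ^ b) ^ (Nat.gcdB a b) := by
    rw [← zpow_natCast z a, ← zpow_natCast z b, ← zpow_mul, ← zpow_mul, ← zpow_add₀ hz,
      ← Nat.gcd_eq_gcd_ab, hab, Nat.cast_one, zpow_one]
  rw [h3]
  exact E.mul_mem (zpow_mem h1 _) (zpow_mem h2 _)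

open Classical in
/-- the part of `q(n)` of the primes in `R` -/
noncomputable def qJ (R : Finset ℕ) (k n : ℕ) : ℕ := ∏ l ∈ n.primeFactors.filter (· ∈ R), ql k l

open Classical in
/-- the part of `q(n)` of the primes outside `R` -/
noncomputable def qK (R : Finset ℕ) (k n : ℕ) : ℕ := ∏ l ∈ n.primeFactors.filter (· ∉ R), ql k l

lemma qJ_pos (R : Finset ℕ) (k n : ℕ) : 0 < qJ R k n :=
  prod_ql_pos fun _ hl => Nat.prime_of_mem_primeFactors (Finset.mem_filter.1 hl).1

lemma qK_pos (R : Finset ℕ) (k n : ℕ) : 0 < qK R k n :=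
  prod_ql_pos fun _ hl => Nat.prime_of_mem_primeFactors (Finset.mem_filter.1 hl).1

lemma qJK (R : Finset ℕ) (k n : ℕ) : qJ R k n * qK R k n = Qn k n := by
  classical
  unfold qJ qK Qn
  rw [Finset.prod_filter_mul_prod_filter_not]

lemma ql_coprime {k l l' : ℕ} (hl : l.Prime) (hl' : l'.Prime) (h : l ≠ l') :
    Nat.Coprime (ql k l) (ql k l') := by
  unfold ql
  exact Nat.Coprime.pow _ _ ((Nat.coprime_primes hl hl').2 h)

lemma qJK_coprime (R : Finset ℕ) (k n : ℕ) : Nat.Coprime (qJ R k n) (qK R k n) := by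
  classical
  unfold qJ qK
  apply Nat.Coprime.prod_left
  intro l hl
  apply Nat.Coprime.prod_right
  intro l' hl'
  rw [Finset.mem_filter] at hl hl'
  refine ql_coprime (Nat.prime_of_mem_primeFactors hl.1) (Nat.prime_of_mem_primeFactors hl'.1) ?_
  rintro rfl
  exact hl'.2 hl.2

/-- `n ≤ ∏_{l ∈ R} l ⬝ q_K(n)` -/
lemma le_qK {R : Finset ℕ} (hR : ∀ l ∈ R, l.Prime) (k n : ℕ) (hn : Squarefree n) :
    n ≤ (∏ l ∈ R, l) * qK R k n := by
  classical
  have h1 : n = (∏ l ∈ n.primeFactors.filter (· ∈ R), l) *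
      ∏ l ∈ n.primeFactors.filter (· ∉ R), l := by
    rw [Finset.prod_filter_mul_prod_filter_not, Nat.prod_primeFactors_of_squarefree hn]
  calc n = (∏ l ∈ n.primeFactors.filter (· ∈ R), l) *
      ∏ l ∈ n.primeFactors.filter (· ∉ R), l := h1
    _ ≤ (∏ l ∈ R, l) * qK R k n := by
        refine Nat.mul_le_mul ?_ ?_
        · refine Finset.prod_le_prod_of_subset_of_one_le' ?_ fun l hl _ => (hR l hl).one_lt.le
          intro l hl
          exact (Finset.mem_filter.1 hl).2
        · unfold qK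
          refine Finset.prod_le_prod' fun l hl => ?_
          unfold ql
          have := (Nat.prime_of_mem_primeFactors (Finset.mem_filter.1 hl).1).one_lt.le
          exact Nat.le_self_pow (Nat.succ_ne_zero _) l

section
variable (F : IntermediateField ℚ QA) [NumberField F] [IsGalois ℚ F] (C : Set Gal(F/ℚ))
  (W1 W0 : Subgroup ℚˣ) (k : ℕ) (R : Finset ℕ)

/-- the field of the two groups -/
noncomputable def L2 (n : ℕ) : IntermediateField ℚ QA :=
  Lf QA W1 (qJ R k n) ⊔ Lf QA W0 (qK R k n)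

/-- the terms of the main term -/
noncomputable def aR (n : ℕ) : ℝ :=
  ((ArithmeticFunction.moebius n : ℤ) : ℝ) * (cE F C (L2 W1 W0 k R n) : ℝ) /
    ((qK R k n : ℝ) * (Module.finrank ℚ (F ⊔ L2 W1 W0 k R n : IntermediateField ℚ QA) : ℝ))

variable {W1 W0}

lemma L2_fin (hW1 : W1.FG) (hW0 : W0.FG) (n : ℕ) :
    FiniteDimensional ℚ (F ⊔ L2 W1 W0 k R n : IntermediateField ℚ QA) := by
  have h1 : FiniteDimensional ℚ (Lf QA W1 (qJ R k n)) := Lf_fin hW1 (qJ_pos R k n)
  have h0 : FiniteDimensional ℚ (Lf QA W0 (qK R k n)) := Lf_fin hW0 (qK_pos R k n)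
  have h2 : FiniteDimensional ℚ F := NumberField.to_finiteDimensional
  unfold L2
  have := IntermediateField.finiteDimensional_sup (Lf QA W1 (qJ R k n)) (Lf QA W0 (qK R k n))
  exact IntermediateField.finiteDimensional_sup _ _

lemma root_L2 {n : ℕ} {ζ : QA} (hζ : ζ ^ Qn k n = 1) : ζ ∈ L2 W1 W0 k R n := by
  unfold L2
  refine mem_of_pow_mem (qJK_coprime R k n).symm ?_ ?_
  · refine le_sup_left (a := Lf QA W1 (qJ R k n)) (root_one_mem W1 ?_)
    rw [← pow_mul, mul_comm, qJK, hζ]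
  · refine le_sup_right (a := Lf QA W1 (qJ R k n)) (root_one_mem W0 ?_)
    rw [← pow_mul, qJK, hζ]

lemma totient_le_L2 (hW1 : W1.FG) (hW0 : W0.FG) (n : ℕ) : Nat.totient (Qn k n) ≤
    Module.finrank ℚ (F ⊔ L2 W1 W0 k R n : IntermediateField ℚ QA) := by
  have := L2_fin F k R hW1 hW0 n
  have : NeZero (Qn k n) := ⟨(Qn_pos k n).ne'⟩
  obtain ⟨ζ, hζ⟩ := HasEnoughRootsOfUnity.exists_primitiveRoot QA (Qn k n)
  exact totient_le_finrank (Qn_pos k n) hζ (le_sup_right (a := F) (root_L2 k R hζ.pow_eq_one))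

lemma aR_bound (hW1 : W1.FG) (hW0 : W0.FG) (hR : ∀ l ∈ R, l.Prime) (n : ℕ) :
    ‖aR F C W1 W0 k R n‖ ≤
      (Nat.card Gal(F/ℚ) : ℝ) * (∏ l ∈ R, l : ℕ) * (2 * (1 / (n : ℝ) ^ (3 / 2 : ℝ))) := by
  rw [Real.norm_eq_abs]
  by_cases hs : Squarefree n
  · have hn : 0 < n := Nat.pos_of_ne_zero hs.ne_zero
    have hn0 : (0 : ℝ) < n := by exact_mod_cast hn
    unfold aR
    set q := qK R k n with hq
    set ρ : ℕ := ∏ l ∈ R, l with hρ
    set d := Module.finrank ℚ (F ⊔ L2 W1 W0 k R n : IntermediateField ℚ QA) with hd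
    have hQ0 : 0 < Qn k n := Qn_pos k n
    have hdt : Nat.totient (Qn k n) ≤ d := totient_le_L2 F k R hW1 hW0 n
    have ht : Nat.totient n ≤ d :=
      (Nat.le_of_dvd (Nat.totient_pos.2 hQ0) (Nat.totient_dvd_of_dvd (Qn_dvd k n hs))).trans hdt
    have ht0 : 0 < Nat.totient n := Nat.totient_pos.2 hn
    have h1 : |((ArithmeticFunction.moebius n : ℤ) : ℝ)| ≤ 1 := by
      exact_mod_cast ArithmeticFunction.abs_moebius_le_one (n := n)
    have h2 : (cE F C (L2 W1 W0 k R n) : ℝ) ≤ (Nat.card Gal(F/ℚ) : ℝ) := by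
      exact_mod_cast cE_le F C _
    have h3 := sqrt_le_totient n hn
    have h4 : (n : ℝ) ≤ (ρ : ℝ) * q := by exact_mod_cast le_qK hR k n hs
    have h5 : (Nat.totient n : ℝ) ≤ d := by exact_mod_cast ht
    have h6 : (0 : ℝ) < Nat.totient n := by exact_mod_cast ht0
    have h7 : (n : ℝ) ^ (3 / 2 : ℝ) = n * Real.sqrt n := by
      rw [show (3 / 2 : ℝ) = 1 + 1 / 2 by norm_num, Real.rpow_add hn0, Real.rpow_one,
        ← Real.sqrt_eq_rpow]
    have hs0 : 0 < Real.sqrt n := Real.sqrt_pos.mpr hn0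
    have hρ0 : (0 : ℝ) ≤ ρ := Nat.cast_nonneg _
    have hq0 : (0 : ℝ) < q := by exact_mod_cast qK_pos R k n
    have hd0 : (0 : ℝ) < d := lt_of_lt_of_le h6 h5
    have h8 : (n : ℝ) * Real.sqrt n ≤ 2 * (ρ * ((q : ℝ) * d)) := by
      calc (n : ℝ) * Real.sqrt n ≤ n * (2 * Nat.totient n) := by gcongr
        _ ≤ (ρ * q) * (2 * d) := by gcongr
        _ = _ := by ring
    have h9 : (0 : ℝ) < (q : ℝ) * d := by positivity
    rw [abs_div, abs_of_pos h9, abs_mul, Nat.abs_cast, h7]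
    rw [div_le_iff₀ h9]
    have hc0 : (0 : ℝ) ≤ cE F C (L2 W1 W0 k R n) := Nat.cast_nonneg _
    have hA0 : (0 : ℝ) ≤ Nat.card Gal(F/ℚ) := Nat.cast_nonneg _
    calc |((ArithmeticFunction.moebius n : ℤ) : ℝ)| * (cE F C (L2 W1 W0 k R n) : ℝ)
        ≤ 1 * Nat.card Gal(F/ℚ) := by gcongr
      _ = Nat.card Gal(F/ℚ) := one_mul _
      _ = Nat.card Gal(F/ℚ) * (1 / (n * Real.sqrt n) * (n * Real.sqrt n)) := by field_simp
      _ ≤ Nat.card Gal(F/ℚ) * (1 / (n * Real.sqrt n) * (2 * (ρ * ((q : ℝ) * d)))) := by gcongr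
      _ = _ := by ring
  · have h0 : aR F C W1 W0 k R n = 0 := by
      unfold aR
      rw [ArithmeticFunction.moebius_eq_zero_of_not_squarefree hs]
      simp
    rw [h0, abs_zero]
    positivity

lemma aR_summable (hW1 : W1.FG) (hW0 : W0.FG) (hR : ∀ l ∈ R, l.Prime) :
    Summable (aR F C W1 W0 k R) :=
  Summable.of_norm_bounded (summable_bound.mul_left _) (aR_bound F C k R hW1 hW0 hR)

open Classical in
lemma dLr_eqR (L : ℕ) (hRL : R ⊆ PP L) :
    dLr F C W1 W0 k R L = ∑ n ∈ SL L, aR F C W1 W0 k R n := by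
  set g : Finset ℕ → Finset ℕ → ℝ := fun K J =>
    (-1 : ℝ) ^ #K * (1 / ((∏ l ∈ K, ql k l : ℕ) : ℝ)) *
      ((-1 : ℝ) ^ #J * dn F C W1 W0 k J K) with hg
  have e0 : dLr F C W1 W0 k R L = ∑ T ∈ (PP L).powerset, g (T.filter (· ∉ R)) (T.filter (· ∈ R)) := by
    unfold dLr
    have e1 : ∑ K ∈ (PP L).powerset.filter (fun K => Disjoint K R),
        (-1 : ℝ) ^ #K * (1 / ((∏ l ∈ K, ql k l : ℕ) : ℝ)) *
          ∑ J ∈ R.powerset, (-1 : ℝ) ^ #J * dn F C W1 W0 k J K =
        ∑ x ∈ (PP L).powerset.filter (fun K => Disjoint K R) ×ˢ R.powerset, g x.1 x.2 := by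
      rw [Finset.sum_product]
      refine Finset.sum_congr rfl fun K _ => ?_
      rw [Finset.mul_sum]
    rw [e1]
    refine Finset.sum_nbij' (fun x => x.1 ∪ x.2)
      (fun T => (T.filter (· ∉ R), T.filter (· ∈ R))) ?_ ?_ ?_ ?_ ?_
    · rintro ⟨K, J⟩ h
      rw [Finset.mem_product, Finset.mem_filter, Finset.mem_powerset, Finset.mem_powerset] at h
      rw [Finset.mem_powerset]
      exact Finset.union_subset h.1.1 (h.2.trans hRL)
    · intro T hT
      rw [Finset.mem_powerset] at hT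
      rw [Finset.mem_product, Finset.mem_filter, Finset.mem_powerset, Finset.mem_powerset]
      refine ⟨⟨(Finset.filter_subset _ _).trans hT, ?_⟩, fun l hl => (Finset.mem_filter.1 hl).2⟩
      exact Finset.disjoint_left.2 fun l hl => (Finset.mem_filter.1 hl).2
    · rintro ⟨K, J⟩ h
      rw [Finset.mem_product, Finset.mem_filter, Finset.mem_powerset, Finset.mem_powerset] at h
      have hKR := Finset.disjoint_left.1 h.1.2
      simp only at h hKR ⊢
      refine Prod.ext ?_ ?_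
      · simp only
        ext l
        rw [Finset.mem_filter, Finset.mem_union]
        constructor
        · rintro ⟨h1 | h1, h2⟩
          · exact h1
          · exact absurd (h.2 h1) h2
        · exact fun h1 => ⟨Or.inl h1, hKR h1⟩
      · simp only
        ext l
        rw [Finset.mem_filter, Finset.mem_union]
        constructor
        · rintro ⟨h1 | h1, h2⟩
          · exact absurd h2 (hKR h1)
          · exact h1
        · exact fun h1 => ⟨Or.inr h1, h.2 h1⟩
    · intro T _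
      simp only
      ext l
      rw [Finset.mem_union, Finset.mem_filter, Finset.mem_filter]
      by_cases hl : l ∈ R <;> simp [hl]
    · rintro ⟨K, J⟩ h
      rw [Finset.mem_product, Finset.mem_filter, Finset.mem_powerset, Finset.mem_powerset] at h
      have hKR := Finset.disjoint_left.1 h.1.2
      simp only at h hKR ⊢
      have e2 : (K ∪ J).filter (· ∉ R) = K := by
        ext l
        rw [Finset.mem_filter, Finset.mem_union]
        constructor
        · rintro ⟨h1 | h1, h2⟩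
          · exact h1
          · exact absurd (h.2 h1) h2
        · exact fun h1 => ⟨Or.inl h1, hKR h1⟩
      have e3 : (K ∪ J).filter (· ∈ R) = J := by
        ext l
        rw [Finset.mem_filter, Finset.mem_union]
        constructor
        · rintro ⟨h1 | h1, h2⟩
          · exact absurd h2 (hKR h1)
          · exact h1
        · exact fun h1 => ⟨Or.inr h1, h.2 h1⟩
      rw [e2, e3]
  rw [e0]
  unfold SL
  rw [Finset.sum_image]
  · refine Finset.sum_congr rfl fun T hT => ?_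
    rw [mem_powerset] at hT
    have hp : ∀ l ∈ T, l.Prime := fun l hl => (mem_PP.1 (hT hl)).2
    have h1 : (∏ l ∈ T, l).primeFactors = T := Nat.primeFactors_prod hp
    have hsq : Squarefree (∏ l ∈ T, l) := Pool.Agent.H771R4.AQ.sqf_prod T hp
    have hJ : qJ R k (∏ l ∈ T, l) = ∏ l ∈ T.filter (· ∈ R), ql k l := by
      unfold qJ
      rw [h1]
    have hK : qK R k (∏ l ∈ T, l) = ∏ l ∈ T.filter (· ∉ R), ql k l := by
      unfold qK
      rw [h1]
    have hL2 : L2 W1 W0 k R (∏ l ∈ T, l) = Lf QA W1 (∏ l ∈ T.filter (· ∈ R), ql k l) ⊔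
        Lf QA W0 (∏ l ∈ T.filter (· ∉ R), ql k l) := by
      unfold L2
      rw [hJ, hK]
    have hc : #(T.filter (· ∉ R)) + #(T.filter (· ∈ R)) = #T := by
      rw [add_comm, Finset.card_filter_add_card_filter_not]
    have hmu : ((ArithmeticFunction.moebius (∏ l ∈ T, l) : ℤ) : ℝ) =
        (-1 : ℝ) ^ #(T.filter (· ∉ R)) * (-1 : ℝ) ^ #(T.filter (· ∈ R)) := by
      rw [mu_eq_prod _ hsq, h1, Finset.prod_const, ← pow_add, hc]
    unfold aR
    rw [hmu, hL2, hK]
    simp only [hg]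
    unfold dn Kf
    rw [mul_one_div, ← mul_div_assoc, div_mul_div_comm]
    ring_nf
  · intro K hK K' hK' h
    simp only [Finset.coe_powerset, Set.mem_preimage, Set.mem_powerset_iff, Finset.coe_subset]
      at hK hK'
    have h1 : (∏ l ∈ K, l).primeFactors = K :=
      Nat.primeFactors_prod fun l hl => (mem_PP.1 (hK hl)).2
    have h2 : (∏ l ∈ K', l).primeFactors = K' :=
      Nat.primeFactors_prod fun l hl => (mem_PP.1 (hK' hl)).2
    rw [← h1, ← h2]
    exact congrArg Nat.primeFactors h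

lemma dLr_tendstoR (hW1 : W1.FG) (hW0 : W0.FG) (hR : ∀ l ∈ R, l.Prime) :
    Tendsto (dLr F C W1 W0 k R) atTop (𝓝 (∑' n : ℕ, aR F C W1 W0 k R n)) := by
  classical
  have h := (aR_summable F C k R hW1 hW0 hR).hasSum
  rw [Metric.tendsto_atTop]
  intro ε hε
  have h1 := (Metric.tendsto_nhds.1 h) ε hε
  obtain ⟨s, hs⟩ := (Filter.eventually_atTop.1 h1)
  refine ⟨max (s.sup id) (R.sup id), fun L hL => ?_⟩
  have h2 := hs (SL L ∪ s) subset_union_right
  have hRL : R ⊆ PP L := fun l hl => mem_PP.2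
    ⟨(Finset.le_sup (f := id) hl).trans ((le_max_right _ _).trans hL), hR l hl⟩
  rw [dLr_eqR F C k R L hRL]
  have h3 : ∑ n ∈ SL L, aR F C W1 W0 k R n = ∑ n ∈ SL L ∪ s, aR F C W1 W0 k R n := by
    refine Finset.sum_subset subset_union_left fun n hn hn2 => ?_
    rw [Finset.mem_union] at hn
    have hns : n ∈ s := hn.resolve_left hn2
    have hnL : n ≤ L := (Finset.le_sup (f := id) hns).trans ((le_max_left _ _).trans hL)
    have hsq : ¬ Squarefree n := fun h => hn2 (mem_SL h hnL)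
    unfold aR
    rw [ArithmeticFunction.moebius_eq_zero_of_not_squarefree hsq]
    simp
  rw [h3]
  exact h2

open Classical in
/-- the mean of the local densities of Lenstra's problem -/
theorem lim_lenR (hC : ∀ σ ∈ C, ∀ τ : Gal(F/ℚ), τ * σ * τ⁻¹ ∈ C) (hW1 : W1.FG) (hW0 : W0.FG)
    (hR : ∀ l ∈ R, l.Prime) :
    Tendsto (M fun p => if gd F C W1 k R p then gT k (Tp W0 k R p) else 0) atTop
      (𝓝 (∑' n : ℕ, aR F C W1 W0 k R n)) := by
  refine lim_of k _ _ (fun p _ => ?_) (dLr F C W1 W0 k R) _ (fun L => ?_)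
    (dLr_tendstoR F C k R hW1 hW0 hR)
  · intro l hl
    unfold Tp at hl
    rw [Finset.mem_filter] at hl
    exact hl.1
  · exact avg_trunc F C W1 W0 k R hC hW1 hW0 hR L

end

end Pool.Agent.W171.LG
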