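import Pool.Agent.W171.LG.Generic

/-! # Lower bounds for degrees -/

set_option autoImplicit false
set_option linter.unusedSectionVars false

namespace Pool.Agent.W171.LG

open NumberField IntermediateField
open Pool.Agent.W401.Cheb

section
variable {k Ω : Type*} [Field k] [Field Ω] [Algebra k Ω] [IsAlgClosed Ω] [CharZero Ω]

/-- no new radicals of odd prime degree in abelian extensions -/
theorem ab_no_root (K1 : IntermediateField k Ω) [IsAbelianGalois k K1] {r : ℕ} (hr : r.Prime)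
    (hcyc : ∀ ζ : Ω, IsPrimitiveRoot ζ r → ¬ Module.finrank k (adjoin k {ζ} : IntermediateField k Ω) ∣ r)
    {u : k} (hu : ∀ c : k, c ^ r ≠ u) {b : Ω} (hb : b ∈ K1) : b ^ r ≠ algebraMap k Ω u := by
  intro hbu
  set E : IntermediateField k Ω := adjoin k {b} with hE
  have hbE : b ∈ E := mem_adjoin_simple_self k b
  have hEK : E ≤ K1 := by
    rw [hE, adjoin_le_iff, Set.singleton_subset_iff]
    exact hb
  have hab : IsAbelianGalois k E := IsAbelianGalois.of_algHom (inclusion hEK)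
  have hnorm : Normal k E := inferInstance
  have hirr := X_pow_sub_C_irreducible_of_prime hr hu
  have hmonic : (Polynomial.X ^ r - Polynomial.C u : Polynomial k).Monic :=
    Polynomial.monic_X_pow_sub_C u hr.ne_zero
  have hmin : ∀ z : Ω, z ^ r = algebraMap k Ω u →
      minpoly k z = Polynomial.X ^ r - Polynomial.C u := by
    intro z hz
    refine (minpoly.eq_of_irreducible_of_monic hirr ?_ hmonic).symm
    rw [map_sub, map_pow, Polynomial.aeval_X, Polynomial.aeval_C, hz, sub_self]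
  have hint : ∀ z : Ω, z ^ r = algebraMap k Ω u → IsIntegral k z := by
    intro z hz
    refine IsIntegral.of_pow hr.pos ?_
    rw [hz]
    exact isIntegral_algebraMap
  have hdeg : Module.finrank k E = r := by
    rw [hE, adjoin.finrank (hint b hbu), hmin b hbu, Polynomial.natDegree_X_pow_sub_C]
  have hu0 : u ≠ 0 := by
    rintro rfl
    exact hu 0 (zero_pow hr.ne_zero)
  have hb0 : b ≠ 0 := by
    rintro rfl
    rw [zero_pow hr.ne_zero] at hbu
    exact hu0 ((map_eq_zero _).1 hbu.symm)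
  have : NeZero r := ⟨hr.ne_zero⟩
  obtain ⟨ζ, hζ⟩ := HasEnoughRootsOfUnity.exists_primitiveRoot Ω r
  have hz : (ζ * b) ^ r = algebraMap k Ω u := by
    rw [mul_pow, hζ.pow_eq_one, one_mul, hbu]
  have hspl : Polynomial.Splits ((minpoly k (ζ * b)).map (algebraMap k E)) := by
    have h1 := hnorm.splits ⟨b, hbE⟩
    have h2 : minpoly k (⟨b, hbE⟩ : E) = minpoly k b :=
      (minpoly.algebraMap_eq (algebraMap E Ω).injective (⟨b, hbE⟩ : E)).symm
    rwa [h2, hmin b hbu, ← hmin _ hz] at h1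
  obtain ⟨y, hy⟩ := (hint _ hz).mem_range_algebraMap_of_minpoly_splits (K := E) hspl
  have hzE : ζ * b ∈ E := by
    rw [← hy]
    exact y.2
  have hζE : ζ ∈ E := by
    have := E.mul_mem hzE (E.inv_mem hbE)
    rwa [mul_assoc, mul_inv_cancel₀ hb0, mul_one] at this
  have hle : adjoin k {ζ} ≤ E := by
    rw [adjoin_le_iff, Set.singleton_subset_iff]
    exact hζE
  apply hcyc ζ hζ
  rw [← hdeg]
  exact ⟨_, (finrank_bot_mul_relfinrank hle).symm⟩

lemma cyc_ab {q : ℕ} [NeZero q] {ζ : Ω} (hζ : IsPrimitiveRoot ζ q) :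
    IsAbelianGalois k (adjoin k {ζ} : IntermediateField k Ω) := by
  have := (isCyclotomicExtension_singleton_iff_eq_adjoin q k Ω
    (adjoin k {ζ} : IntermediateField k Ω) hζ).2 rfl
  exact IsCyclotomicExtension.isAbelianGalois {q} k _

/-- radicals over cyclotomic fields -/
theorem cyc_rad {q e : ℕ} (hq : 0 < q) (he : e ∣ q) {ζ α : Ω} (hζ : IsPrimitiveRoot ζ q) {u : k}
    (hu0 : u ≠ 0) (hα : α ^ e = algebraMap k Ω u)
    (hcyc : ∀ r : ℕ, r.Prime → r ∣ e → ∀ ζ : Ω, IsPrimitiveRoot ζ r →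
      ¬ Module.finrank k (adjoin k {ζ} : IntermediateField k Ω) ∣ r)
    (hu : ∀ r : ℕ, r.Prime → r ∣ e → ∀ c : k, c ^ r ≠ u) :
    Module.finrank k (adjoin k {ζ} ⊔ adjoin k {α} : IntermediateField k Ω) =
      Module.finrank k (adjoin k {ζ} : IntermediateField k Ω) * e := by
  have : NeZero q := ⟨hq.ne'⟩
  obtain ⟨t, rfl⟩ := he
  have he0 : 0 < e := Nat.pos_of_ne_zero (by
    rintro rfl
    rw [zero_mul] at hq
    exact absurd hq (lt_irrefl _))
  have hab := cyc_ab (k := k) hζ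
  set K1 : IntermediateField k Ω := adjoin k {ζ} with hK1
  have hζ' : IsPrimitiveRoot (⟨ζ, mem_adjoin_simple_self k ζ⟩ : K1) (e * t) := by
    refine IsPrimitiveRoot.of_map_of_injective (f := K1.val) ?_ K1.val.injective
    exact hζ
  have hζe : IsPrimitiveRoot ((⟨ζ, mem_adjoin_simple_self k ζ⟩ : K1) ^ t) e :=
    hζ'.pow hq (mul_comm e t)
  refine finrank_radical K1 he0 hζe hu0 hα (fun r hr hre b hb => ?_)
  refine ab_no_root K1 hr (hcyc r hr hre) (hu r hr hre) b.2 ?_
  have := congrArg (fun z : K1 => (z : Ω)) hb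
  exact this

end

section
variable {W : Subgroup ℚˣ}

/-- lower bound for the degree of a field of roots -/
theorem low_deg (F : IntermediateField ℚ QA) [NumberField F] [IsGalois ℚ F] (hW : W.FG) {u : ℚˣ} (hu : u ∈ W)
    (hur : ∀ r : ℕ, r.Prime → r ≠ 2 → ∀ c : ℚ, c ^ r ≠ (u : ℚ)) {q e : ℕ} (hq : 0 < q) (he : e ∣ q)
    (h2 : ¬ 2 ∣ e) :
    Nat.totient q * e ≤ Module.finrank ℚ (F ⊔ Lf QA W q : IntermediateField ℚ QA) := by
  have : NeZero q := ⟨hq.ne'⟩
  have he0 : 0 < e := Nat.pos_of_dvd_of_pos he hq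
  obtain ⟨ζ, hζ⟩ := HasEnoughRootsOfUnity.exists_primitiveRoot QA q
  obtain ⟨α, hα⟩ := IsAlgClosed.exists_pow_nat_eq (algebraMap ℚ QA (u : ℚ)) he0
  have hcdeg : ∀ (m : ℕ), 0 < m → ∀ ξ : QA, IsPrimitiveRoot ξ m →
      Module.finrank ℚ (adjoin ℚ {ξ} : IntermediateField ℚ QA) = Nat.totient m := by
    intro m hm ξ hξ
    have hint : IsIntegral ℚ ξ := by
      have h1 : IsIntegral ℤ ξ := hξ.isIntegral hm
      exact h1.tower_top
    rw [adjoin.finrank hint, ← Polynomial.cyclotomic_eq_minpoly_rat hξ hm,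
      Polynomial.natDegree_cyclotomic]
  have key := cyc_rad (k := ℚ) (Ω := QA) hq he hζ u.ne_zero hα (fun r hr hre ξ hξ h => by
      rw [hcdeg r hr.pos ξ hξ, Nat.totient_prime hr] at h
      have hr2 : r ≠ 2 := by
        rintro rfl
        exact h2 hre
      have hr3 : 3 ≤ r := by
        have := hr.two_le
        omega
      obtain ⟨t, ht⟩ := h
      rcases Nat.lt_or_ge t 2 with h3 | h3
      · have : t = 0 ∨ t = 1 := by omega
        rcases this with rfl | rfl <;> omega
      · have : (r - 1) * 2 ≤ (r - 1) * t := Nat.mul_le_mul_left _ h3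
        omega)
    (fun r hr hre => hur r hr (by
      rintro rfl
      exact h2 hre))
  rw [hcdeg q hq ζ hζ] at key
  rw [← key]
  have hfin := supF_fin F hW hq
  have hle : adjoin ℚ {ζ} ⊔ adjoin ℚ {α} ≤ F ⊔ Lf QA W q := by
    refine (sup_le ?_ ?_).trans le_sup_right
    · rw [adjoin_le_iff, Set.singleton_subset_iff]
      exact root_one_mem W hζ.pow_eq_one
    · rw [adjoin_le_iff, Set.singleton_subset_iff]
      obtain ⟨t, rfl⟩ := he
      refine subset_adjoin _ _ ⟨u ^ t, W.pow_mem hu t, ?_⟩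
      rw [pow_mul, hα, Units.val_pow_eq_pow_val, map_pow]
  exact Submodule.finrank_mono (s := (adjoin ℚ {ζ} ⊔ adjoin ℚ {α} : IntermediateField ℚ QA).toSubmodule)
    (t := (F ⊔ Lf QA W q).toSubmodule) hle

end

end Pool.Agent.W171.LG
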