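import Pool.Agent.W171.LG.LenDatR
import Pool.Agent.W171.LG.LenMainR
import Pool.Agent.W171.LG.Tail

/-! # Degrees for generic `n`, groups `W₀ ⬝ ⟨D n ^ r⟩` -/

set_option autoImplicit false
set_option linter.unusedSectionVars false

namespace Pool.Agent.W171.LG

open NumberField IntermediateField
open Pool.Agent.W401.Cheb
open Pool.Agent.H981R3.LN (ql Qn Qn_dvd Qn_pos)

section
variable (F : IntermediateField ℚ QA) [NumberField F] [IsGalois ℚ F] (C : Set Gal(F/ℚ))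
  {L0 : IntermediateField ℚ QA} {u : ℚˣ} {q : ℕ} {α : QA}

lemma deg_midL (hq : 0 < q) (hroot : ∀ z : QA, z ^ q = 1 → z ∈ L0)
    (hα : α ^ q = algebraMap ℚ QA (u : ℚ))
    (H : ∀ r : ℕ, r.Prime → r ∣ q → ∀ b : QA, b ∈ F ⊔ L0 → b ^ r ≠ algebraMap ℚ QA (u : ℚ))
    (M : IntermediateField ℚ QA) (h1 : L0 ≤ M) (h2 : M ≤ F ⊔ L0) :
    Module.finrank ℚ (M ⊔ adjoin ℚ {α} : IntermediateField ℚ QA) = Module.finrank ℚ M * q := by
  have : NeZero q := ⟨hq.ne'⟩
  obtain ⟨ζ, hζ⟩ := HasEnoughRootsOfUnity.exists_primitiveRoot QA q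
  have hζM : ζ ∈ M := h1 (hroot ζ hζ.pow_eq_one)
  have hζ' : IsPrimitiveRoot (⟨ζ, hζM⟩ : M) q := by
    refine IsPrimitiveRoot.of_map_of_injective (f := M.val) ?_ M.val.injective
    exact hζ
  refine finrank_radical M hq hζ' u.ne_zero hα (fun r hr hrq b hb => ?_)
  refine H r hr hrq (b : QA) (h2 b.2) ?_
  have := congrArg (fun z : M => (z : QA)) hb
  exact this

theorem deg_genL (hq : 0 < q) (hroot : ∀ z : QA, z ^ q = 1 → z ∈ L0)
    (hα : α ^ q = algebraMap ℚ QA (u : ℚ))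
    (H : ∀ r : ℕ, r.Prime → r ∣ q → ∀ b : QA, b ∈ F ⊔ L0 → b ^ r ≠ algebraMap ℚ QA (u : ℚ)) :
    Module.finrank ℚ (F ⊔ (L0 ⊔ adjoin ℚ {α}) : IntermediateField ℚ QA) =
      Module.finrank ℚ (F ⊔ L0 : IntermediateField ℚ QA) * q := by
  rw [← sup_assoc]
  exact deg_midL F hq hroot hα H _ le_sup_right le_rfl

theorem cE_genL (hfin : FiniteDimensional ℚ (F ⊔ L0 : IntermediateField ℚ QA)) (hq : 0 < q)
    (hroot : ∀ z : QA, z ^ q = 1 → z ∈ L0)
    (hα : α ^ q = algebraMap ℚ QA (u : ℚ))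
    (H : ∀ r : ℕ, r.Prime → r ∣ q → ∀ b : QA, b ∈ F ⊔ L0 → b ^ r ≠ algebraMap ℚ QA (u : ℚ)) :
    cE F C (L0 ⊔ adjoin ℚ {α}) = cE F C L0 := by
  have key : ∀ y : QA, y ∈ F → y ∈ L0 ⊔ adjoin ℚ {α} → y ∈ L0 := by
    intro y hyF hy
    set M : IntermediateField ℚ QA := (F ⊔ L0) ⊓ (L0 ⊔ adjoin ℚ {α}) with hM
    have h1 : L0 ≤ M := le_inf le_sup_right le_sup_left
    have h2 : M ≤ F ⊔ L0 := inf_le_left
    have e1 := deg_midL F hq hroot hα H M h1 h2
    have e2 := deg_midL F hq hroot hα H L0 le_rfl le_sup_right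
    have e3 : M ⊔ adjoin ℚ {α} = L0 ⊔ adjoin ℚ {α} := by
      apply le_antisymm
      · exact sup_le inf_le_right le_sup_right
      · exact sup_le_sup_right h1 _
    rw [e3, e2] at e1
    have e4 : Module.finrank ℚ L0 = Module.finrank ℚ M := Nat.eq_of_mul_eq_mul_right hq e1
    have hMfin : FiniteDimensional ℚ M :=
      Module.Finite.of_injective (inclusion h2).toLinearMap (inclusion_injective h2)
    have e5 : L0 = M := IntermediateField.eq_of_le_of_finrank_eq h1 e4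
    rw [e5]
    exact ⟨le_sup_left (a := F) hyF, hy⟩
  unfold cE
  refine Nat.card_congr (Equiv.subtypeEquivRight fun σ => ?_)
  refine and_congr_right fun _ => ?_
  constructor
  · intro h y hy
    exact h y (le_sup_left (a := L0) hy)
  · intro h y hy
    exact h y (key y y.2 hy)

end

/-- coprime levels -/
theorem Lf_mul {W : Subgroup ℚˣ} {a b : ℕ} (hab : Nat.Coprime a b) :
    Lf QA W (a * b) = Lf QA W a ⊔ Lf QA W b := by
  apply le_antisymm
  · have h : Lf QA W (a * b) ≤ Lf QA W a ⊔ Lf QA W b := by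
      conv_lhs => unfold Lf
      rw [adjoin_le_iff]
      rintro z ⟨w, hw, hz⟩
      refine mem_of_pow_mem hab ?_ ?_
      · refine le_sup_right (a := Lf QA W a) (subset_adjoin _ _ ⟨w, hw, ?_⟩)
        rw [← pow_mul, hz]
      · refine le_sup_left (a := Lf QA W a) (subset_adjoin _ _ ⟨w, hw, ?_⟩)
        rw [← pow_mul, mul_comm b a, hz]
    exact h
  · refine sup_le ?_ ?_
    · conv_lhs => unfold Lf
      rw [adjoin_le_iff]
      rintro z ⟨w, hw, hz⟩
      refine subset_adjoin _ _ ⟨w ^ b, W.pow_mem hw b, ?_⟩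
      rw [pow_mul, hz, Units.val_pow_eq_pow_val, map_pow]
    · conv_lhs => unfold Lf
      rw [adjoin_le_iff]
      rintro z ⟨w, hw, hz⟩
      refine subset_adjoin _ _ ⟨w ^ a, W.pow_mem hw a, ?_⟩
      rw [mul_comm, pow_mul, hz, Units.val_pow_eq_pow_val, map_pow]

/-- changing a generator by a `q`-th power -/
theorem Lf_twist {W0 : Subgroup ℚˣ} {u D c : ℚˣ} {q : ℕ} (hq : 0 < q) (hu : u = D * c ^ q) :
    Lf QA (W0 ⊔ Subgroup.zpowers u) q = Lf QA (W0 ⊔ Subgroup.zpowers D) q := by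
  obtain ⟨β, hβ⟩ := IsAlgClosed.exists_pow_nat_eq (algebraMap ℚ QA (D : ℚ)) hq
  have hα : (β * algebraMap ℚ QA (c : ℚ)) ^ q = algebraMap ℚ QA (u : ℚ) := by
    rw [mul_pow, hβ, hu, Units.val_mul, Units.val_pow_eq_pow_val, map_mul, map_pow]
  rw [Lf_sup hq hα, Lf_sup hq hβ]
  have hc0 : algebraMap ℚ QA (c : ℚ) ≠ 0 := by
    rw [Ne, map_eq_zero]
    exact c.ne_zero
  have h1 : adjoin ℚ {β * algebraMap ℚ QA (c : ℚ)} = adjoin ℚ {β} := by
    apply le_antisymm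
    · rw [adjoin_le_iff, Set.singleton_subset_iff]
      exact (adjoin ℚ {β}).mul_mem (mem_adjoin_simple_self ℚ β)
        (IntermediateField.algebraMap_mem _ _)
    · rw [adjoin_le_iff, Set.singleton_subset_iff]
      have h2 := (adjoin ℚ {β * algebraMap ℚ QA (c : ℚ)}).mul_mem
        (mem_adjoin_simple_self ℚ (β * algebraMap ℚ QA (c : ℚ)))
        ((adjoin ℚ {β * algebraMap ℚ QA (c : ℚ)}).inv_mem
          (IntermediateField.algebraMap_mem (adjoin ℚ {β * algebraMap ℚ QA (c : ℚ)}) (c : ℚ)))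
      rwa [mul_assoc, mul_inv_cancel₀ hc0, mul_one] at h2
  rw [h1]

lemma prod_dvd_of_cop (s : Finset ℕ) (f : ℕ → ℕ) (r : ℕ)
    (h1 : ∀ l ∈ s, ∀ l' ∈ s, l ≠ l' → Nat.Coprime (f l) (f l')) (h2 : ∀ l ∈ s, f l ∣ r) :
    ∏ l ∈ s, f l ∣ r := by
  classical
  induction s using Finset.induction_on with
  | empty => simp
  | insert a s ha ih =>
    rw [Finset.prod_insert ha]
    refine Nat.Coprime.mul_dvd_of_dvd_of_dvd ?_ (h2 a (Finset.mem_insert_self a s)) ?_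
    · apply Nat.Coprime.prod_right
      intro l hl
      refine h1 a (Finset.mem_insert_self a s) l (Finset.mem_insert_of_mem hl) ?_
      rintro rfl
      exact ha hl
    · exact ih (fun l hl l' hl' => h1 l (Finset.mem_insert_of_mem hl) l'
        (Finset.mem_insert_of_mem hl')) fun l hl => h2 l (Finset.mem_insert_of_mem hl)

lemma qJ_dvd {k r : ℕ} (hrk : ∀ l : ℕ, l.Prime → l ∣ r → ql k l ∣ r) (n : ℕ) :
    qJ r.primeFactors k n ∣ r := by
  classical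
  unfold qJ
  refine prod_dvd_of_cop _ _ _ ?_ ?_
  · intro l hl l' hl' hne
    rw [Finset.mem_filter] at hl hl'
    exact ql_coprime (Nat.prime_of_mem_primeFactors hl.1) (Nat.prime_of_mem_primeFactors hl'.1) hne
  · intro l hl
    rw [Finset.mem_filter] at hl
    exact hrk l (Nat.prime_of_mem_primeFactors hl.1) (Nat.dvd_of_mem_primeFactors hl.2)

/-- the field of roots of the groups `W₀ ⬝ ⟨D n ^ r⟩` -/
theorem Lf_R {W0 : Subgroup ℚˣ} {D : ℚˣ} {k r n e : ℕ}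
    (hrk : ∀ l : ℕ, l.Prime → l ∣ r → ql k l ∣ r) (hn : n ≠ 0) {α : QA}
    (hα : α ^ qK r.primeFactors k e = algebraMap ℚ QA ((DR D r n : ℚˣ) : ℚ)) :
    Lf QA (W0 ⊔ Subgroup.zpowers (DR D r n)) (Qn k e) =
      L2 (W0 ⊔ Subgroup.zpowers D) W0 k r.primeFactors e ⊔ adjoin ℚ {α} := by
  rw [← qJK r.primeFactors k e, Lf_mul (qJK_coprime r.primeFactors k e),
    Lf_sup (qK_pos _ k e) hα]
  obtain ⟨t, ht⟩ := qJ_dvd hrk e
  have hn0 : (n : ℚ) ≠ 0 := by exact_mod_cast hn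
  have h1 : DR D r n = D * ((Units.mk0 (n : ℚ) hn0) ^ t) ^ qJ r.primeFactors k e := by
    unfold DR
    rw [dif_pos hn0, ← pow_mul, mul_comm t]
    congr 2
  rw [Lf_twist (qJ_pos _ k e) h1]
  unfold L2
  rw [sup_assoc]

/-- no roots of `D n ^ r` in fields unramified at a prime which divides `n` exactly once -/
theorem no_root_genR (K : IntermediateField ℚ QA) [NumberField K] {D : ℚˣ} {r n p : ℕ}
    (hp : p.Prime) (hD : Un p (D : ℚ)) (hn : n ≠ 0) (h1 : p ∣ n) (h2 : ¬ p ^ 2 ∣ n)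
    (hd : ¬ (p : ℤ) ∣ discr K) {s : ℕ} (hs : s.Prime) (hsr : ¬ s ∣ r) (b : QA) (hb : b ∈ K) :
    b ^ s ≠ algebraMap ℚ QA ((DR D r n : ℚˣ) : ℚ) := by
  intro hbr
  have : Fact p.Prime := ⟨hp⟩
  have hpi : Prime (p : ℤ) := Nat.prime_iff_prime_int.1 hp
  have hnum : ¬ (p : ℤ) ∣ (D : ℚ).num := by
    intro h
    exact hD.1 ((ZMod.intCast_zmod_eq_zero_iff_dvd _ _).2 h)
  have hden : ¬ (p : ℤ) ∣ ((D : ℚ).den : ℤ) := by
    intro h
    apply hD.2
    rw [ZMod.natCast_eq_zero_iff]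
    exact_mod_cast h
  set v : ℤ := (D : ℚ).num * (n : ℤ) ^ r * ((D : ℚ).den : ℤ) ^ (s - 1) with hv
  have hdq : ((D : ℚ).den : ℚ) ≠ 0 := by exact_mod_cast (D : ℚ).den_ne_zero
  have hc : ((⟨b, hb⟩ : K) * ((D : ℚ).den : K)) ^ s = ((v : ℤ) : K) := by
    apply Subtype.ext
    have e1 : (((⟨b, hb⟩ : K) * ((D : ℚ).den : K)) ^ s : K).1 = (b * ((D : ℚ).den : QA)) ^ s := by
      simp
    have e2 : (((v : ℤ) : K) : QA) = ((v : ℤ) : QA) := by simp
    rw [e1, e2, mul_pow, hbr, DR_val D r hn]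
    have e3 : (D : ℚ) = ((D : ℚ).num : ℚ) / ((D : ℚ).den : ℚ) := (Rat.num_div_den _).symm
    have e4 : ((v : ℤ) : ℚ) = (D : ℚ) * (n : ℚ) ^ r * ((D : ℚ).den : ℚ) ^ s := by
      obtain ⟨s', rfl⟩ : ∃ s', s = s' + 1 := ⟨s - 1, by have := hs.pos; omega⟩
      rw [hv, Nat.add_sub_cancel]
      push_cast
      nth_rewrite 3 [e3]
      field_simp
      ring
    have e5 : ((v : ℤ) : QA) = algebraMap ℚ QA ((v : ℤ) : ℚ) := by simp
    rw [e5, e4]
    simp
  obtain ⟨m, hm0⟩ := h1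
  have hm : ¬ (p : ℤ) ∣ (m : ℤ) := by
    intro h3
    apply h2
    rw [pow_two, hm0]
    exact mul_dvd_mul_left p (by exact_mod_cast h3)
  have h4 : v = (p : ℤ) ^ r * ((D : ℚ).num * (m : ℤ) ^ r * ((D : ℚ).den : ℤ) ^ (s - 1)) := by
    rw [hv, hm0]
    push_cast
    ring
  refine no_root_discr (K := K) (t := r) hp hs.pos hd (u := v) ?_ ?_ hsr _ hc
  · rw [h4]
    exact Dvd.intro _ rfl
  · intro h
    rw [h4, pow_succ, mul_dvd_mul_iff_left (pow_ne_zero _ hpi.ne_zero)] at h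
    rcases hpi.dvd_or_dvd h with h5 | h5
    · rcases hpi.dvd_or_dvd h5 with h6 | h6
      · exact hnum h6
      · exact hm (hpi.dvd_of_dvd_pow h6)
    · exact hden (hpi.dvd_of_dvd_pow h5)

lemma not_pow_genR {D : ℚˣ} {r n p : ℕ} (hp : p.Prime) (hD : Un p (D : ℚ)) (hn : n ≠ 0)
    (h1 : p ∣ n) (h2 : ¬ p ^ 2 ∣ n) {s : ℕ} (hs : s.Prime) (hsr : ¬ s ∣ r) (c : ℚ) :
    c ^ s ≠ ((DR D r n : ℚˣ) : ℚ) := by
  intro hc
  have : Fact p.Prime := ⟨hp⟩
  have hn0 : (n : ℚ) ≠ 0 := by exact_mod_cast hn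
  have hc0 : c ≠ 0 := by
    rintro rfl
    rw [zero_pow hs.ne_zero] at hc
    exact (DR D r n).ne_zero hc.symm
  have e1 : padicValRat p ((DR D r n : ℚˣ) : ℚ) = r := by
    rw [DR_val D r hn, padicValRat.mul D.ne_zero (pow_ne_zero _ hn0), (un_iff D.ne_zero).1 hD,
      zero_add, padicValRat.pow, padicValRat.of_nat]
    have h3 : padicValNat p n = 1 := by
      apply le_antisymm
      · by_contra hcon
        push Not at hcon
        exact h2 ((padicValNat_dvd_iff_le hn).2 hcon)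
      · exact one_le_padicValNat_of_dvd hn h1
    rw [h3]
    simp
  rw [← hc, padicValRat.pow] at e1
  have h4 : (s : ℤ) ∣ r := ⟨_, e1.symm⟩
  exact hsr (by exact_mod_cast h4)

section
variable {W : Subgroup ℚˣ}

/-- lower bound for the degree of a field of roots -/
theorem low_degR (F : IntermediateField ℚ QA) [NumberField F] [IsGalois ℚ F] (hW : W.FG) {u : ℚˣ}
    (hu : u ∈ W) {q e : ℕ} (hur : ∀ r : ℕ, r.Prime → r ∣ e → ∀ c : ℚ, c ^ r ≠ (u : ℚ))
    (hq : 0 < q) (he : e ∣ q) (h2 : ¬ 2 ∣ e) :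
    Nat.totient q * e ≤ Module.finrank ℚ (F ⊔ Lf QA W q : IntermediateField ℚ QA) := by
  have : NeZero q := ⟨hq.ne'⟩
  have he0 : 0 < e := Nat.pos_of_dvd_of_pos he hq
  obtain ⟨ζ, hζ⟩ := HasEnoughRootsOfUnity.exists_primitiveRoot QA q
  obtain ⟨α, hα⟩ := IsAlgClosed.exists_pow_nat_eq (algebraMap ℚ QA (u : ℚ)) he0
  have hcdeg : ∀ (m : ℕ), 0 < m → ∀ ξ : QA, IsPrimitiveRoot ξ m →
      Module.finrank ℚ (adjoin ℚ {ξ} : IntermediateField ℚ QA) = Nat.totient m := by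
    intro m hm ξ hξ
    have hint : IsIntegral ℚ ξ := by
      have h1 : IsIntegral ℤ ξ := hξ.isIntegral hm
      exact h1.tower_top
    rw [adjoin.finrank hint, ← Polynomial.cyclotomic_eq_minpoly_rat hξ hm,
      Polynomial.natDegree_cyclotomic]
  have key := cyc_rad (k := ℚ) (Ω := QA) hq he hζ u.ne_zero hα (fun r hr hre ξ hξ h => by
      rw [hcdeg r hr.pos ξ hξ, Nat.totient_prime hr] at h
      have hr2 : r ≠ 2 := by
        rintro rfl
        exact h2 hre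
      have hr3 : 3 ≤ r := by
        have := hr.two_le
        omega
      obtain ⟨t, ht⟩ := h
      rcases Nat.lt_or_ge t 2 with h3 | h3
      · have : t = 0 ∨ t = 1 := by omega
        rcases this with rfl | rfl <;> omega
      · have : (r - 1) * 2 ≤ (r - 1) * t := Nat.mul_le_mul_left _ h3
        omega)
    (fun r hr hre => hur r hr hre)
  rw [hcdeg q hq ζ hζ] at key
  rw [← key]
  have hfin := supF_fin F hW hq
  have hle : adjoin ℚ {ζ} ⊔ adjoin ℚ {α} ≤ F ⊔ Lf QA W q := by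
    refine (sup_le ?_ ?_).trans le_sup_right
    · rw [adjoin_le_iff, Set.singleton_subset_iff]
      exact root_one_mem W hζ.pow_eq_one
    · rw [adjoin_le_iff, Set.singleton_subset_iff]
      obtain ⟨t, rfl⟩ := he
      refine subset_adjoin _ _ ⟨u ^ t, W.pow_mem hu t, ?_⟩
      rw [pow_mul, hα, Units.val_pow_eq_pow_val, map_pow]
  exact Submodule.finrank_mono (s := (adjoin ℚ {ζ} ⊔ adjoin ℚ {α} : IntermediateField ℚ QA).toSubmodule)
    (t := (F ⊔ Lf QA W q).toSubmodule) hle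

end

end Pool.Agent.W171.LG
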