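import Pool.Agent.W171.LG.Rd
import Pool.Agent.H981R3.LN.Loc

/-! # The index of a subgroup of `(ZMod p)ˣ` -/

set_option autoImplicit false
set_option linter.unusedSectionVars false

namespace Pool.Agent.W171.LG

open Finset
open Pool.Agent.H386R2.Artin (LC_pos)
open Pool.Agent.H981R3.LN (ql Sk mem_Sk Sk_dvd Sk_prime)

section
variable {p : ℕ} [Fact p.Prime]

lemma pow_closure {S : Set (ZMod p)ˣ} {n : ℕ} (h : ∀ u ∈ S, u ^ n = 1) :
    ∀ u ∈ Subgroup.closure S, u ^ n = 1 := by
  intro u hu
  induction hu using Subgroup.closure_induction with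
  | mem u hu => exact h u hu
  | one => exact one_pow n
  | mul a b _ _ ha hb => rw [mul_pow, ha, hb, one_mul]
  | inv a _ ha => rw [inv_pow, ha, inv_one]

lemma index_dvd_iff (H : Subgroup (ZMod p)ˣ) {d : ℕ} (hd : d ∣ p - 1) :
    d ∣ H.index ↔ ∀ u ∈ H, u ^ ((p - 1) / d) = 1 := by
  have hp1 : 0 < p - 1 := LC_pos
  have hcard : Nat.card (ZMod p)ˣ = p - 1 := by
    rw [Nat.card_eq_fintype_card, ZMod.card_units]
  have hmul : Nat.card H * H.index = p - 1 := by
    rw [Subgroup.card_mul_index, hcard]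
  have hi0 : 0 < H.index := Nat.pos_of_ne_zero (by
    intro h
    rw [h, mul_zero] at hmul
    omega)
  have hc0 : 0 < Nat.card H := Nat.pos_of_ne_zero (by
    intro h
    rw [h, zero_mul] at hmul
    omega)
  obtain ⟨e, he⟩ := hd
  have hd0 : 0 < d := Nat.pos_of_ne_zero (by
    rintro rfl
    rw [zero_mul] at he
    omega)
  have hde : (p - 1) / d = e := by rw [he, Nat.mul_div_cancel_left _ hd0]
  rw [hde]
  have h1 : d ∣ H.index ↔ Nat.card H ∣ e := by
    constructor
    · rintro ⟨t, ht⟩
      refine ⟨t, ?_⟩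
      have h2 : d * (Nat.card H * t) = d * e := by
        rw [← he, ← hmul, ht]
        ring
      exact (Nat.eq_of_mul_eq_mul_left hd0 h2).symm
    · rintro ⟨t, ht⟩
      refine ⟨t, ?_⟩
      have h2 : Nat.card H * H.index = Nat.card H * (d * t) := by
        rw [hmul, he, ht]
        ring
      exact Nat.eq_of_mul_eq_mul_left hc0 h2
  rw [h1]
  constructor
  · rintro ⟨t, rfl⟩ u hu
    have h3 : (⟨u, hu⟩ : H) ^ Nat.card H = 1 := pow_card_eq_one'
    have h4 : u ^ Nat.card H = 1 := congrArg (fun z : H => (z : (ZMod p)ˣ)) h3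
    rw [pow_mul, h4, one_pow]
  · intro h
    obtain ⟨g, hg⟩ := IsCyclic.exists_generator (α := H)
    have h5 : orderOf g = Nat.card H := orderOf_eq_card_of_forall_mem_zpowers hg
    rw [← h5]
    apply orderOf_dvd_of_pow_eq_one
    apply Subtype.ext
    simpa using h g g.2

/-- the index divides `k` -/
theorem closure_index {k : ℕ} (hk : k ≠ 0) (S : Set (ZMod p)ˣ) :
    (Subgroup.closure S).index ∣ k ↔
      ∀ l ∈ Sk k (p - 1), ¬ ∀ u ∈ S, (u : ZMod p) ^ ((p - 1) / ql k l) = 1 := by
  have hp1 : p - 1 ≠ 0 := (LC_pos (p := p)).ne'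
  set H := Subgroup.closure S with hH
  have hcard : Nat.card (ZMod p)ˣ = p - 1 := by
    rw [Nat.card_eq_fintype_card, ZMod.card_units]
  have hin : H.index ∣ p - 1 := by
    rw [← hcard]
    exact H.index_dvd_card
  have hi0 : H.index ≠ 0 := by
    intro h
    rw [h, Nat.zero_dvd] at hin
    exact hp1 hin
  have hS : ∀ n : ℕ, (∀ u ∈ H, u ^ n = 1) ↔ ∀ u ∈ S, (u : ZMod p) ^ n = 1 := by
    intro n
    constructor
    · intro h u hu
      have := h u (Subgroup.subset_closure hu)
      rw [← Units.val_pow_eq_pow_val, this, Units.val_one]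
    · intro h
      refine pow_closure fun u hu => ?_
      apply Units.ext
      rw [Units.val_pow_eq_pow_val, h u hu, Units.val_one]
  constructor
  · intro h l hl hall
    rw [← hS, ← index_dvd_iff H (Sk_dvd hl)] at hall
    have h2 := hall.trans h
    unfold ql at h2
    rw [(Sk_prime hl).pow_dvd_iff_le_factorization hk] at h2
    omega
  · intro h
    rw [← Nat.factorization_le_iff_dvd hi0 hk]
    intro l
    by_contra hcon
    push Not at hcon
    by_cases hl : l.Prime
    · have h1 : ql k l ∣ H.index := by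
        unfold ql
        rw [hl.pow_dvd_iff_le_factorization hi0]
        omega
      have hlS : l ∈ Sk k (p - 1) := (mem_Sk hp1).2 ⟨hl, h1.trans hin⟩
      refine h l hlS ?_
      rw [← hS, ← index_dvd_iff H (Sk_dvd hlS)]
      exact h1
    · rw [Nat.factorization_eq_zero_of_not_prime H.index hl] at hcon
      exact absurd hcon (Nat.not_lt_zero _)

end

end Pool.Agent.W171.LG
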