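import Mathlib

/-! # Degrees of Kummer extensions -/

set_option autoImplicit false

namespace Pool.Agent.W171.LG

open NumberField Polynomial

section ram
variable {K : Type} [Field K] [NumberField K]

/-- no roots in fields unramified at `p` -/
lemma no_root {p r t : ℕ} (hp : p.Prime) (hr0 : 0 < r) (P : Ideal (𝓞 K)) [hP : P.IsPrime]
    [hl : P.LiesOver (Ideal.span {(p : ℤ)})] (hram : Ideal.ramificationIdx P ℤ = 1) {u : ℤ}
    (h1 : (p : ℤ) ^ t ∣ u) (h2 : ¬ (p : ℤ) ^ (t + 1) ∣ u) (hr : ¬ r ∣ t) (b : K) :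
    b ^ r ≠ (u : K) := by
  intro hb
  have hu0 : u ≠ 0 := by
    rintro rfl
    exact h2 (dvd_zero _)
  have hint : IsIntegral ℤ b := by
    refine IsIntegral.of_pow hr0 ?_
    rw [hb]
    exact isIntegral_algebraMap (R := ℤ) (A := K) (x := u)
  obtain ⟨c, hc⟩ : ∃ c : 𝓞 K, (c : K) = b := ⟨⟨b, hint⟩, rfl⟩
  have hcu : algebraMap ℤ (𝓞 K) u = c ^ r := by
    apply RingOfIntegers.coe_injective
    rw [map_pow]
    change _ = (c : K) ^ r
    rw [hc, hb]
    simp
  have hpi : Prime (p : ℤ) := Nat.prime_iff_prime_int.1 hp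
  have hbot : Ideal.span {(p : ℤ)} ≠ ⊥ := by
    rw [Ne, Ideal.span_singleton_eq_bot]
    exact hpi.ne_zero
  have hsp : Prime (Ideal.span {(p : ℤ)}) :=
    Ideal.prime_of_isPrime hbot ((Ideal.span_singleton_prime hpi.ne_zero).2 hpi)
  have hPb : P ≠ ⊥ := Ideal.ne_bot_of_liesOver_of_ne_bot hbot P
  have hPp : Prime P := Ideal.prime_of_isPrime hPb hP
  have hub : Ideal.span {u} ≠ ⊥ := by
    rw [Ne, Ideal.span_singleton_eq_bot]
    exact hu0
  have e := Ideal.IsDedekindDomain.emultiplicity_map_eq_ramificationIdx'_mul (S := 𝓞 K) hub hsp.irreducible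
    hPp.irreducible hPb
  rw [Ideal.ramificationIdx'_eq_ramificationIdx _ _ hbot, hram, Nat.cast_one, one_mul,
    Ideal.map_span, Set.image_singleton, hcu, ← Ideal.span_singleton_pow, emultiplicity_pow hPp] at e
  have e2 : emultiplicity (Ideal.span {(p : ℤ)}) (Ideal.span {u}) = t := by
    rw [emultiplicity_eq_coe]
    rw [Ideal.span_singleton_pow, Ideal.span_singleton_pow, Ideal.dvd_iff_le, Ideal.dvd_iff_le,
      Ideal.span_singleton_le_span_singleton, Ideal.span_singleton_le_span_singleton]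
    exact ⟨h1, h2⟩
  rw [e2] at e
  have hfin : emultiplicity P (Ideal.span {c}) ≠ ⊤ := by
    intro h
    rw [h, ENat.mul_top (by exact_mod_cast hr0.ne')] at e
    exact ENat.top_ne_natCast t e
  obtain ⟨s, hs⟩ := ENat.ne_top_iff_exists.1 hfin
  rw [← hs] at e
  have e3 : r * s = t := by exact_mod_cast e
  exact hr ⟨s, e3.symm⟩

lemma exists_over {p : ℕ} (hp : p.Prime) : ∃ P : Ideal (𝓞 K), P.IsPrime ∧
    P.LiesOver (Ideal.span {(p : ℤ)}) := by
  have hpi : Prime (p : ℤ) := Nat.prime_iff_prime_int.1 hp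
  have h1 : (Ideal.span {(p : ℤ)}).IsMaximal :=
    ((Ideal.span_singleton_prime hpi.ne_zero).2 hpi).isMaximal (by
      rw [Ne, Ideal.span_singleton_eq_bot]
      exact hpi.ne_zero)
  obtain ⟨P, hP, hl⟩ := Ideal.exists_maximal_ideal_liesOver_of_isIntegral (S := 𝓞 K) (Ideal.span {(p : ℤ)})
  exact ⟨P, hP.isPrime, hl⟩

/-- primes which do not divide the discriminant -/
lemma no_root_discr {p r t : ℕ} (hp : p.Prime) (hr0 : 0 < r) (hd : ¬ (p : ℤ) ∣ discr K) {u : ℤ}
    (h1 : (p : ℤ) ^ t ∣ u) (h2 : ¬ (p : ℤ) ^ (t + 1) ∣ u) (hr : ¬ r ∣ t) (b : K) :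
    b ^ r ≠ (u : K) := by
  have hpi : Prime (p : ℤ) := Nat.prime_iff_prime_int.1 hp
  obtain ⟨P, hP, hl⟩ := exists_over (K := K) hp
  have h3 := (not_dvd_discr_iff_isUnramifiedIn K (𝓞 K) hpi).1 hd
  exact no_root hp hr0 P (h3.ramificationIdx_eq_one hl) h1 h2 hr b

end ram

section deg
variable {k L : Type*} [Field k] [Field L] [Algebra k L] [IsAlgClosed L]

/-- some power `α ^ d`, `d` the degree of `α`, lies in the base field -/
lemma pow_deg_mem {q : ℕ} (hq : 0 < q) {ζ : k} (hζ : IsPrimitiveRoot ζ q) {α : L} {u : k}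
    (hu : u ≠ 0) (hα : α ^ q = algebraMap k L u) :
    ∃ b : k, α ^ (minpoly k α).natDegree = algebraMap k L b := by
  have : NeZero q := ⟨hq.ne'⟩
  have hint : IsIntegral k α := by
    refine IsIntegral.of_pow hq ?_
    rw [hα]
    exact isIntegral_algebraMap
  have hα0 : α ≠ 0 := by
    rintro rfl
    rw [zero_pow hq.ne'] at hα
    exact hu ((map_eq_zero _).1 hα.symm)
  set f := (minpoly k α).map (algebraMap k L) with hf
  have hmonic : f.Monic := (minpoly.monic hint).map _
  have hspl : f.Splits := IsAlgClosed.splits f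
  have hroots : ∀ z ∈ f.roots, ∃ i : ℕ, z = algebraMap k L (ζ ^ i) * α := by
    intro z hz
    have h1 : f.IsRoot z := isRoot_of_mem_roots hz
    have h2 : minpoly k α ∣ X ^ q - C u := by
      apply minpoly.dvd
      rw [map_sub, map_pow, aeval_X, aeval_C, hα, sub_self]
    obtain ⟨g, hg⟩ := h2
    have h3 : z ^ q = algebraMap k L u := by
      have h4 : (aeval z) (X ^ q - C u) = 0 := by
        rw [hg, map_mul]
        have h5 : aeval z (minpoly k α) = 0 := by
          rw [aeval_def, ← eval_map]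
          exact h1
        rw [h5, zero_mul]
      rw [map_sub, map_pow, aeval_X, aeval_C, sub_eq_zero] at h4
      exact h4
    have h6 : (z / α) ^ q = 1 := by
      rw [div_pow, h3, hα]
      exact div_self (by rwa [Ne, map_eq_zero])
    obtain ⟨i, _, hi⟩ := (hζ.map_of_injective (algebraMap k L).injective).eq_pow_of_pow_eq_one h6
    refine ⟨i, ?_⟩
    rw [map_pow, hi]
    field_simp
  have hprod : ∀ s : Multiset L, (∀ z ∈ s, ∃ i : ℕ, z = algebraMap k L (ζ ^ i) * α) →
      ∃ i : ℕ, s.prod = algebraMap k L (ζ ^ i) * α ^ Multiset.card s := by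
    intro s
    induction s using Multiset.induction_on with
    | empty => intro _; exact ⟨0, by simp⟩
    | cons z s ih =>
      intro h
      obtain ⟨i, hi⟩ := ih fun y hy => h y (Multiset.mem_cons_of_mem hy)
      obtain ⟨j, hj⟩ := h z (Multiset.mem_cons_self z s)
      refine ⟨j + i, ?_⟩
      rw [Multiset.prod_cons, hi, hj, Multiset.card_cons, pow_add ζ, map_mul, pow_succ]
      ring
  obtain ⟨i, hi⟩ := hprod f.roots hroots
  have hcard : Multiset.card f.roots = (minpoly k α).natDegree := by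
    rw [← hspl.natDegree_eq_card_roots, hf, natDegree_map]
  have h0 := hspl.coeff_zero_eq_prod_roots_of_monic hmonic
  have hζ0 : ζ ≠ 0 := hζ.ne_zero hq.ne'
  refine ⟨(-1) ^ (minpoly k α).natDegree * (minpoly k α).coeff 0 / ζ ^ i, ?_⟩
  rw [hi, hcard] at h0
  have h7 : f.coeff 0 = algebraMap k L ((minpoly k α).coeff 0) := by rw [hf, coeff_map]
  have h8 : f.natDegree = (minpoly k α).natDegree := by rw [hf, natDegree_map]
  rw [h7, h8] at h0
  rw [map_div₀, map_mul, map_pow, map_neg, map_one, h0, map_pow]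
  have h9 : algebraMap k L ζ ≠ 0 := by rwa [Ne, map_eq_zero]
  have h10 : ((-1 : L) ^ (minpoly k α).natDegree) * (-1) ^ (minpoly k α).natDegree = 1 := by
    rw [← mul_pow]
    simp
  field_simp
  rw [sq]
  exact h10.symm

/-- the degree of a radical -/
theorem deg_root {q : ℕ} (hq : 0 < q) {ζ : k} (hζ : IsPrimitiveRoot ζ q) {α : L} {u : k}
    (hu : u ≠ 0) (hα : α ^ q = algebraMap k L u)
    (H : ∀ r : ℕ, r.Prime → r ∣ q → ∀ b : k, b ^ r ≠ u) : (minpoly k α).natDegree = q := by
  classical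
  have hint : IsIntegral k α := by
    refine IsIntegral.of_pow hq ?_
    rw [hα]
    exact isIntegral_algebraMap
  have hle : (minpoly k α).natDegree ≤ q := by
    have h1 : (X ^ q - C u : k[X]) ≠ 0 := (monic_X_pow_sub_C u hq.ne').ne_zero
    have h2 : minpoly k α ∣ X ^ q - C u := by
      apply minpoly.dvd
      rw [map_sub, map_pow, aeval_X, aeval_C, hα, sub_self]
    have h3 := natDegree_le_of_dvd h2 h1
    rwa [natDegree_X_pow_sub_C] at h3
  refine le_antisymm hle ?_
  obtain ⟨b, hb⟩ := pow_deg_mem hq hζ hu hα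
  have hd0 : 0 < (minpoly k α).natDegree := minpoly.natDegree_pos hint
  have hα0 : α ≠ 0 := by
    rintro rfl
    rw [zero_pow hq.ne'] at hα
    exact hu ((map_eq_zero _).1 hα.symm)
  -- the exponents of the powers in the base field
  have hex : ∃ m : ℕ, 0 < m ∧ ∃ b : k, α ^ m = algebraMap k L b := ⟨q, hq, u, hα⟩
  set m := Nat.find hex with hm
  obtain ⟨hm0, c, hc⟩ := Nat.find_spec hex
  rw [← hm] at hm0 hc
  have hmd : m ≤ (minpoly k α).natDegree := Nat.find_min' hex ⟨hd0, b, hb⟩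
  have hc0 : c ≠ 0 := by
    rintro rfl
    rw [map_zero] at hc
    exact hα0 (pow_eq_zero_iff hm0.ne' |>.1 hc)
  have hmq : m ∣ q := by
    by_contra hn
    have h1 : 0 < q % m := Nat.pos_of_ne_zero fun h => hn (Nat.dvd_of_mod_eq_zero h)
    have h2 : q % m < m := Nat.mod_lt _ hm0
    have h3 : α ^ (q % m) = algebraMap k L (u / c ^ (q / m)) := by
      have h4 : α ^ q = (α ^ m) ^ (q / m) * α ^ (q % m) := by
        rw [← pow_mul, ← pow_add, Nat.div_add_mod]
      rw [map_div₀, ← hα, h4, hc, map_pow]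
      have : algebraMap k L c ≠ 0 := by rwa [Ne, map_eq_zero]
      field_simp
    exact absurd (Nat.find_min' hex ⟨h1, _, h3⟩) (by rw [← hm]; omega)
  obtain ⟨s, hs⟩ := hmq
  by_cases hs1 : s = 1
  · rw [hs1, mul_one] at hs
    omega
  · exfalso
    obtain ⟨r, hr, t, ht⟩ := Nat.exists_prime_and_dvd hs1
    refine H r hr ⟨m * t, by rw [hs, ht]; ring⟩ (c ^ t) ?_
    apply (algebraMap k L).injective
    rw [← hα, hs, ht, map_pow, map_pow, ← hc]
    ring

end deg

end Pool.Agent.W171.LG
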