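import Pool.Agent.W171.LG.Lim
import Pool.Agent.H771R4.SE.Datum

/-! # The counting problem attached to a Frobenius condition and power residue conditions -/

set_option autoImplicit false
set_option linter.unusedSectionVars false

namespace Pool.Agent.W171.LG

open NumberField Filter Topology Finset
open Pool.Agent.W401.Cheb
open Pool.Agent.H386R2.Artin (PP Good hL LC_pos)
open Pool.Agent.H771R4.SE (Dat err_nn hL_nn)
open Pool.Agent.H981R3.LN (ql Sk mem_PP)

variable (F : IntermediateField ℚ QA) [NumberField F] [IsGalois ℚ F] (C : Set Gal(F/ℚ))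
  (W1 W0 : Subgroup ℚˣ) (k : ℕ) (R : Finset ℕ)

open Classical in
lemma Tp_sub (p : ℕ) : Tp W0 k R p ⊆ Sk k (p - 1) := by
  intro l hl
  unfold Tp at hl
  rw [Finset.mem_filter] at hl
  exact hl.1

open Classical in
/-- the counting problem -/
noncomputable def mkDat (A : ℝ)
    (hlim : Tendsto (M fun p => if gd F C W1 k R p then gT k (Tp W0 k R p) else 0) atTop (𝓝 A))
    (Q : (p : ℕ) → ZMod p → Prop) (p0 : ℕ)
    (hQ : ∀ p : ℕ, p.Prime → p0 ≤ p → ∃ m : ZMod p, m ≠ 0 ∧ ∀ a : ZMod p, a ≠ 0 →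
      (Q p a ↔ gd F C W1 k R p ∧ ∀ l ∈ Tp W0 k R p, (m * a) ^ ((p - 1) / ql k l) ≠ 1)) : Dat where
  Q := Q
  G := fun p => if p.Prime ∧ gd F C W1 k R p then gT k (Tp W0 k R p) else 0
  A := A
  p0 := p0
  G0 := fun p => by
    split_ifs with h
    · have : Fact p.Prime := ⟨h.1⟩
      exact (gT_bounds (p := p) (Tp_sub W0 k R p)).1
    · exact le_rfl
  G1 := fun p => by
    split_ifs with h
    · have : Fact p.Prime := ⟨h.1⟩
      exact (gT_bounds (p := p) (Tp_sub W0 k R p)).2.trans (by norm_num)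
    · norm_num
  loc := by
    intro p hp hp0 E M L _ hE hM hG
    have : Fact p.Prime := ⟨hp⟩
    obtain ⟨m, hm, h1⟩ := hQ p hp hp0
    by_cases hgd : gd F C W1 k R p
    · have h := countT E M m k (Tp W0 k R p) (Tp_sub W0 k R p) hE hM hG hm L
      rw [if_pos ⟨hp, hgd⟩]
      have e2 : (E.filter (fun q : ℕ => Q p ((q : ℕ) : ZMod p))) =
          (E.filter (fun q : ℕ => ∀ l ∈ Tp W0 k R p, (m * (q : ZMod p)) ^ ((p - 1) / ql k l) ≠ 1)) := by
        apply filter_congr
        intro q hq
        rw [h1 _ (hE q hq)]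
        simp only [hgd, true_and]
      have hE0 : (0 : ℝ) ≤ #E := Nat.cast_nonneg _
      have c5 : 0 ≤ (#E : ℝ) * hL L (p - 1) := mul_nonneg hE0 (hL_nn L p)
      suffices key : |((#(E.filter (fun q : ℕ => Q p ((q : ℕ) : ZMod p))) : ℕ) : ℝ) -
            #E * gT k (Tp W0 k R p)| ≤
          1 + 2 ^ L * M + 3 * (#E * hL L (p - 1)) + (p - 1).primeFactors.card * M by
        refine le_trans (le_of_eq ?_) key
        congr!
      rw [e2]
      refine le_trans (le_trans (le_of_eq ?_) h) ?_
      · congr!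
      · linarith
    · rw [if_neg (fun h => hgd h.2), mul_zero, sub_zero]
      have e2 : ((#(E.filter (fun q : ℕ => Q p ((q : ℕ) : ZMod p))) : ℕ) : ℝ) = 0 := by
        rw [filter_eq_empty_iff.2 (fun q hq hcon => hgd ((h1 _ (hE q hq)).1 hcon).1)]
        simp
      refine le_trans (le_of_eq ?_) (err_nn p E M L hM)
      rw [abs_eq_zero]
      refine Eq.trans ?_ e2
      congr!
  lim := by
    refine hlim.congr fun x => ?_
    rw [M_eq]
    congr 1
    refine Finset.sum_congr rfl fun p hp => ?_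
    have h1 := (mem_PP.1 hp).2
    simp only [h1, true_and]

end Pool.Agent.W171.LG
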