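import Pool.Agent.W171.LG.Lim

/-! # Reduction of rational numbers is multiplicative -/

set_option autoImplicit false
set_option linter.unusedSectionVars false

namespace Pool.Agent.W171.LG

section
variable {p : ℕ} [Fact p.Prime]

lemma rd_of {w : ℚ} (h : ((w.den : ℕ) : ZMod p) ≠ 0) {n d : ℤ} (hd : (d : ZMod p) ≠ 0)
    (hw : w * d = n) : rd p w = (n : ZMod p) * (d : ZMod p)⁻¹ := by
  have h1 : w.num * d = n * (w.den : ℤ) := by
    have h2 : (w.den : ℚ) ≠ 0 := by exact_mod_cast w.den_ne_zero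
    have h3 : w = (w.num : ℚ) / (w.den : ℚ) := (Rat.num_div_den w).symm
    have h4 : (w.num : ℚ) * d = n * (w.den : ℚ) := by
      rw [← hw]
      have h5 : (w.num : ℚ) = w * w.den := by
        rw [eq_comm]
        exact Rat.mul_den_eq_num w
      rw [h5]
      ring
    exact_mod_cast h4
  have h6 : (w.num : ZMod p) * (d : ZMod p) = (n : ZMod p) * ((w.den : ℕ) : ZMod p) := by
    have := congrArg (fun z : ℤ => (z : ZMod p)) h1
    simpa using this
  unfold rd
  rw [← div_eq_mul_inv, ← div_eq_mul_inv, div_eq_div_iff h hd]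
  exact h6

lemma rd_one : rd p 1 = 1 := by
  unfold rd
  simp

lemma rd_mul {a b : ℚ} (ha : Un p a) (hb : Un p b) (hab : Un p (a * b)) :
    rd p (a * b) = rd p a * rd p b := by
  have hd : (((a.den * b.den : ℕ) : ℤ) : ZMod p) ≠ 0 := by
    push_cast
    exact mul_ne_zero ha.2 hb.2
  rw [rd_of hab.2 (n := a.num * b.num) (d := ((a.den * b.den : ℕ) : ℤ)) hd]
  · unfold rd
    push_cast
    rw [mul_inv]
    ring
  · push_cast
    rw [← Rat.mul_den_eq_num a, ← Rat.mul_den_eq_num b]
    ring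

lemma rd_inv {a : ℚ} (ha : Un p a) (hb : Un p a⁻¹) : rd p a⁻¹ = (rd p a)⁻¹ := by
  have h0 : a ≠ 0 := by
    rintro rfl
    apply ha.1
    simp
  have h1 : rd p (a * a⁻¹) = rd p a * rd p a⁻¹ := by
    refine rd_mul ha hb ?_
    rw [mul_inv_cancel₀ h0]
    constructor <;> simp
  rw [mul_inv_cancel₀ h0, rd_one] at h1
  exact eq_inv_of_mul_eq_one_right h1.symm

lemma un_mul {a b : ℚ} (ha : Un p a) (hb : Un p b) : Un p (a * b) := by
  have h0 : a ≠ 0 := by
    rintro rfl
    apply ha.1
    simp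
  have h1 : b ≠ 0 := by
    rintro rfl
    apply hb.1
    simp
  rw [un_iff h0] at ha
  rw [un_iff h1] at hb
  rw [un_iff (mul_ne_zero h0 h1), padicValRat.mul h0 h1, ha, hb, add_zero]

lemma un_inv {a : ℚ} (ha : Un p a) : Un p a⁻¹ := by
  have h0 : a ≠ 0 := by
    rintro rfl
    apply ha.1
    simp
  rw [un_iff h0] at ha
  rw [un_iff (inv_ne_zero h0), padicValRat.inv, ha, neg_zero]

/-- the power residue condition for a group can be checked on generators -/
lemma PW_closure {S : Set ℚˣ} (hS : ∀ w ∈ S, Un p (w : ℚ)) (q : ℕ) :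
    PW (Subgroup.closure S) q p ↔ q ∣ p - 1 ∧ ∀ w ∈ S, rd p (w : ℚ) ^ ((p - 1) / q) = 1 := by
  constructor
  · rintro ⟨h1, h2⟩
    exact ⟨h1, fun w hw => h2 w (Subgroup.subset_closure hw)⟩
  · rintro ⟨h1, h2⟩
    refine ⟨h1, fun w hw => ?_⟩
    have hU := unW_closure hS
    have key : ∀ w ∈ Subgroup.closure S, rd p (w : ℚ) ^ ((p - 1) / q) = 1 := by
      intro w hw
      induction hw using Subgroup.closure_induction with
      | mem w hw => exact h2 w hw
      | one =>
        rw [Units.val_one, rd_one, one_pow]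
      | mul a b ha hb iha ihb =>
        rw [Units.val_mul, rd_mul (hU a ha) (hU b hb), mul_pow, iha, ihb, mul_one]
        rw [← Units.val_mul]
        exact hU _ (Subgroup.mul_mem _ ha hb)
      | inv a ha iha =>
        rw [Units.val_inv_eq_inv_val, rd_inv (hU a ha), inv_pow, iha, inv_one]
        rw [← Units.val_inv_eq_inv_val]
        exact hU _ (Subgroup.inv_mem _ ha)
    exact key w hw

lemma PW_bot {q : ℕ} : PW (⊥ : Subgroup ℚˣ) q p ↔ q ∣ p - 1 := by
  unfold PW
  constructor
  · exact fun h => h.1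
  · intro h
    refine ⟨h, fun w hw => ?_⟩
    rw [Subgroup.mem_bot] at hw
    rw [hw, Units.val_one, rd_one, one_pow]

end

end Pool.Agent.W171.LG
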