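import Pool.Agent.W171.LG.Index
import Pool.Agent.W171.LG.MkDat
import Pool.Agent.W171.LG.Rd

/-! # The counting problem of Lenstra's conjecture for the groups `W₀ ⬝ ⟨D n⟩` -/

set_option autoImplicit false
set_option linter.unusedSectionVars false

namespace Pool.Agent.W171.LG

open NumberField Filter Topology Finset
open Pool.Agent.W401.Cheb
open Pool.Agent.H386R2.Artin (PP LC_pos)
open Pool.Agent.H771R4.SE (Dat)
open Pool.Agent.H981R3.LN (ql Sk mem_Sk mem_PP Sk_dvd Sk_prime)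

/-- the condition on the index of `W` modulo `p` -/
def IdxC (W : Subgroup ℚˣ) (k p : ℕ) : Prop :=
  (Subgroup.closure {u : (ZMod p)ˣ | ∃ w ∈ W,
    (((w : ℚ).num : ℤ) : ZMod p) = (u : ZMod p) * (((w : ℚ).den : ℕ) : ZMod p)}).index ∣ k

section
variable {p : ℕ} [Fact p.Prime]

lemma idx_iff {W : Subgroup ℚˣ} (hU : UnW W p) {k : ℕ} (hk : k ≠ 0) :
    IdxC W k p ↔ ∀ l ∈ Sk k (p - 1), ¬ PW W (ql k l) p := by
  unfold IdxC
  rw [closure_index hk]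
  refine forall₂_congr fun l hl => not_congr ?_
  unfold PW
  constructor
  · intro h
    refine ⟨Sk_dvd hl, fun w hw => ?_⟩
    have h0 := rd_ne (hU w hw)
    have h1 := h (Units.mk0 _ h0) ⟨w, hw, by
      rw [Units.val_mk0]
      unfold rd
      rw [mul_assoc, inv_mul_cancel₀ (hU w hw).2, mul_one]⟩
    rwa [Units.val_mk0] at h1
  · rintro ⟨-, h⟩ u ⟨w, hw, hu⟩
    have h1 : (u : ZMod p) = rd p (w : ℚ) := by
      unfold rd
      rw [hu, mul_assoc, mul_inv_cancel₀ (hU w hw).2, mul_one]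
    rw [h1]
    exact h w hw

lemma sup_zpowers (W0 : Subgroup ℚˣ) (v : ℚˣ) :
    W0 ⊔ Subgroup.zpowers v = Subgroup.closure ((W0 : Set ℚˣ) ∪ {v}) := by
  rw [Subgroup.closure_union, Subgroup.closure_eq, Subgroup.zpowers_eq_closure]

lemma unW_sup {W0 : Subgroup ℚˣ} {v : ℚˣ} :
    UnW (W0 ⊔ Subgroup.zpowers v) p ↔ UnW W0 p ∧ Un p (v : ℚ) := by
  constructor
  · intro h
    exact ⟨fun w hw => h w (Subgroup.mem_sup_left hw),
      h v (Subgroup.mem_sup_right (Subgroup.mem_zpowers v))⟩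
  · rintro ⟨h1, h2⟩
    rw [sup_zpowers]
    apply unW_closure
    rintro w (hw | hw)
    · exact h1 w hw
    · rw [Set.mem_singleton_iff] at hw
      rw [hw]
      exact h2

lemma PW_sup {W0 : Subgroup ℚˣ} {v : ℚˣ} (h1 : UnW W0 p) (h2 : Un p (v : ℚ)) (q : ℕ) :
    PW (W0 ⊔ Subgroup.zpowers v) q p ↔ PW W0 q p ∧ rd p (v : ℚ) ^ ((p - 1) / q) = 1 := by
  rw [sup_zpowers, PW_closure]
  · unfold PW
    constructor
    · rintro ⟨a, b⟩
      exact ⟨⟨a, fun w hw => b w (Or.inl hw)⟩, b v (Or.inr rfl)⟩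
    · rintro ⟨⟨a, b⟩, c⟩
      refine ⟨a, ?_⟩
      rintro w (hw | hw)
      · exact b w hw
      · rw [Set.mem_singleton_iff] at hw
        rw [hw]
        exact c
  · rintro w (hw | hw)
    · exact h1 w hw
    · rw [Set.mem_singleton_iff] at hw
      rw [hw]
      exact h2

lemma un_nat {n : ℕ} : Un p (n : ℚ) ↔ (n : ZMod p) ≠ 0 := by
  unfold Un
  rw [Rat.num_natCast, Rat.den_natCast]
  simp

lemma rd_nat {n : ℕ} : rd p (n : ℚ) = (n : ZMod p) := by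
  unfold rd
  rw [Rat.num_natCast, Rat.den_natCast]
  simp

/-- units -/
lemma unW_iff (W : Subgroup ℚˣ) : UnW W p ↔ ∀ w ∈ W, padicValRat p (w : ℚ) = 0 :=
  forall₂_congr fun w _ => un_iff w.ne_zero

end

section
variable (F : IntermediateField ℚ QA) [NumberField F] [IsGalois ℚ F] (C : Set Gal(F/ℚ))
  (W0 : Subgroup ℚˣ) (k : ℕ) (D : ℚˣ)

/-- the condition modulo `p` -/
def QL (p : ℕ) (a : ZMod p) : Prop :=
  GF F C p ∧ UnW W0 p ∧ Un p (D : ℚ) ∧ a ≠ 0 ∧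
    ∀ l ∈ Sk k (p - 1), ¬ (PW W0 (ql k l) p ∧ (rd p (D : ℚ) * a) ^ ((p - 1) / ql k l) = 1)

/-- the conditions of Lenstra's conjecture at `p` -/
def LC (W : Subgroup ℚˣ) (p : ℕ) : Prop :=
  GF F C p ∧ (∀ w ∈ W, padicValRat p (w : ℚ) = 0) ∧ IdxC W k p

/-- the unit `D n` -/
noncomputable def Dn (n : ℕ) : ℚˣ := if h : (n : ℚ) ≠ 0 then D * Units.mk0 (n : ℚ) h else D

lemma Dn_val {n : ℕ} (hn : n ≠ 0) : ((Dn D n : ℚˣ) : ℚ) = (D : ℚ) * n := by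
  unfold Dn
  have h : (n : ℚ) ≠ 0 := by exact_mod_cast hn
  rw [dif_pos h, Units.val_mul, Units.val_mk0]

lemma LC_iff (hk : k ≠ 0) {p : ℕ} (hp : p.Prime) (hD : Un p (D : ℚ)) {n : ℕ} (hn : n ≠ 0) :
    LC F C k (W0 ⊔ Subgroup.zpowers (Dn D n)) p ↔ QL F C W0 k D p (n : ZMod p) := by
  have : Fact p.Prime := ⟨hp⟩
  unfold LC QL
  refine and_congr_right fun _ => ?_
  rw [← unW_iff, unW_sup]
  have hn0 : (n : ℚ) ≠ 0 := by exact_mod_cast hn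
  have e1 : Un p ((Dn D n : ℚˣ) : ℚ) ↔ (n : ZMod p) ≠ 0 := by
    rw [Dn_val D hn, ← un_nat]
    constructor
    · intro h
      have h2 := un_mul (un_inv hD) h
      rwa [← mul_assoc, inv_mul_cancel₀ D.ne_zero, one_mul] at h2
    · exact fun h => un_mul hD h
  have e2 : (n : ZMod p) ≠ 0 → rd p ((Dn D n : ℚˣ) : ℚ) = rd p (D : ℚ) * (n : ZMod p) := by
    intro h
    rw [Dn_val D hn, rd_mul hD (un_nat.2 h) (un_mul hD (un_nat.2 h)), rd_nat]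
  constructor
  · rintro ⟨⟨h1, h2⟩, h3⟩
    refine ⟨h1, hD, e1.1 h2, fun l hl => ?_⟩
    rw [idx_iff (unW_sup.2 ⟨h1, h2⟩) hk] at h3
    have h4 := h3 l hl
    rwa [PW_sup h1 h2, e2 (e1.1 h2)] at h4
  · rintro ⟨h1, -, h2, h3⟩
    refine ⟨⟨h1, e1.2 h2⟩, ?_⟩
    rw [idx_iff (unW_sup.2 ⟨h1, e1.2 h2⟩) hk]
    intro l hl
    rw [PW_sup h1 (e1.2 h2), e2 h2]
    exact h3 l hl

/-- the hypothesis of `mkDat` -/
lemma hQ_len (hW0 : W0.FG) : ∃ p0 : ℕ, (∀ p : ℕ, p.Prime → p0 ≤ p → Un p (D : ℚ)) ∧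
    ∀ p : ℕ, p.Prime → p0 ≤ p → ∃ m : ZMod p, m ≠ 0 ∧
    ∀ a : ZMod p, a ≠ 0 → (QL F C W0 k D p a ↔ gd F C ⊥ k ∅ p ∧
      ∀ l ∈ Tp W0 k ∅ p, (m * a) ^ ((p - 1) / ql k l) ≠ 1) := by
  classical
  obtain ⟨E, hE, hU⟩ := exists_unW hW0
  have hDf : (Subgroup.zpowers D).FG := ⟨{D}, by simp [Subgroup.zpowers_eq_closure]⟩
  obtain ⟨E', hE', hU'⟩ := exists_unW hDf
  have hUD : ∀ p : ℕ, p.Prime → E + E' + 1 ≤ p → Un p (D : ℚ) := by
    intro p hp hp0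
    have : Fact p.Prime := ⟨hp⟩
    exact hU' p (fun h => by
      have := Nat.le_of_dvd hE' h
      omega) D (Subgroup.mem_zpowers D)
  refine ⟨E + E' + 1, hUD, fun p hp hp0 => ?_⟩
  have : Fact p.Prime := ⟨hp⟩
  have h1 : UnW W0 p := hU p fun h => by
    have := Nat.le_of_dvd hE h
    omega
  have h2 := hUD p hp hp0
  refine ⟨rd p (D : ℚ), rd_ne h2, fun a ha => ?_⟩
  unfold QL gd
  have hT : ∀ l, l ∈ Tp W0 k ∅ p ↔ l ∈ Sk k (p - 1) ∧ PW W0 (ql k l) p := by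
    intro l
    unfold Tp
    rw [mem_filter]
    simp
  constructor
  · rintro ⟨hG, -, -, -, h⟩
    refine ⟨⟨hG, fun l hl => by simp at hl⟩, fun l hl h3 => ?_⟩
    rw [hT] at hl
    exact h l hl.1 ⟨hl.2, h3⟩
  · rintro ⟨⟨hG, -⟩, h⟩
    refine ⟨hG, h1, h2, ha, fun l hl h3 => ?_⟩
    exact h l ((hT l).2 ⟨hl, h3.1⟩) h3.2

open Classical in
/-- the counting problem -/
theorem dat_len (hW0 : W0.FG) (A : ℝ)
    (hlim : Tendsto (M fun p => if gd F C ⊥ k ∅ p then gT k (Tp W0 k ∅ p) else 0) atTop (𝓝 A)) :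
    ∃ d : Dat, d.A = A ∧ ∀ (p : ℕ) (a : ZMod p), d.Q p a ↔ QL F C W0 k D p a := by
  obtain ⟨p0, -, hp0⟩ := hQ_len F C W0 k D hW0
  exact ⟨mkDat F C ⊥ W0 k ∅ A hlim (QL F C W0 k D) p0 hp0, rfl, fun p a => Iff.rfl⟩

end

end Pool.Agent.W171.LG
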