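import Pool.Agent.W171.LG.LenDat

/-! # The counting problem of Lenstra's conjecture for the groups `W₀ ⬝ ⟨D n ^ r⟩` -/

set_option autoImplicit false
set_option linter.unusedSectionVars false

namespace Pool.Agent.W171.LG

open NumberField Filter Topology Finset
open Pool.Agent.W401.Cheb
open Pool.Agent.H386R2.Artin (PP LC_pos)
open Pool.Agent.H771R4.SE (Dat)
open Pool.Agent.H981R3.LN (ql Sk mem_Sk mem_PP Sk_dvd Sk_prime prod_dvd_iff)

section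
variable {p : ℕ} [Fact p.Prime]

/-- twisting by a unit -/
lemma twist (k r : ℕ) (hr : 0 < r) {t : ZMod p} (ht : t ≠ 0) :
    ∃ m : ZMod p, m ≠ 0 ∧ ∀ a : ZMod p, a ≠ 0 → ∀ l ∈ Sk k (p - 1), ¬ l ∣ r →
      ((t * a ^ r) ^ ((p - 1) / ql k l) = 1 ↔ (m * a) ^ ((p - 1) / ql k l) = 1) := by
  have hp1 : 0 < p - 1 := LC_pos
  set M : ℕ := ∏ l ∈ (Sk k (p - 1)).filter (fun l => ¬ l ∣ r), ql k l with hM
  have hlpos : ∀ l ∈ Sk k (p - 1), 0 < ql k l := fun l hl => by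
    unfold ql
    exact pow_pos (Sk_prime hl).pos _
  have hcopl : ∀ l ∈ Sk k (p - 1), ¬ l ∣ r → Nat.Coprime r (ql k l) := by
    intro l hl hlr
    unfold ql
    rw [Nat.coprime_comm]
    exact Nat.Coprime.pow_left _ ((Nat.Prime.coprime_iff_not_dvd (Sk_prime hl)).2 hlr)
  have hcop : Nat.Coprime r M := by
    apply Nat.Coprime.prod_right
    intro l hl
    rw [mem_filter] at hl
    exact hcopl l hl.1 hl.2
  have hM0 : 0 < M := Finset.prod_pos fun l hl => hlpos l (mem_filter.1 hl).1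
  set s : ℕ := r ^ (Nat.totient M - 1) with hs
  have hrs : r * s = r ^ Nat.totient M := by
    rw [hs, ← pow_succ', Nat.sub_add_cancel (Nat.totient_pos.2 hM0)]
  have hrs1 : M ∣ r * s - 1 := by
    have h1 := Nat.ModEq.pow_totient hcop
    rw [← hrs] at h1
    exact (Nat.modEq_iff_dvd' (by rw [hrs]; exact Nat.one_le_pow _ _ hr)).1 h1.symm
  have hrs0 : 1 ≤ r * s := by rw [hrs]; exact Nat.one_le_pow _ _ hr
  refine ⟨t ^ s, pow_ne_zero _ ht, fun a ha l hl hlr => ?_⟩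
  have hlM : ql k l ∣ M := by
    rw [hM]
    refine Finset.dvd_prod_of_mem (fun l => ql k l) ?_
    rw [mem_filter]
    exact ⟨hl, hlr⟩
  have hlp : ql k l ∣ p - 1 := Sk_dvd hl
  have e1 : (t * a ^ r) ^ ((p - 1) / ql k l) = ((t ^ s * a) ^ ((p - 1) / ql k l)) ^ r := by
    obtain ⟨v, hv⟩ := hlM.trans hrs1
    obtain ⟨u, hu⟩ := hlp
    have hl0 : 0 < ql k l := hlpos l hl
    have hu1 : (p - 1) / ql k l = u := by rw [hu, Nat.mul_div_cancel_left _ hl0]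
    rw [hu1]
    have h2 : r * s = ql k l * v + 1 := by omega
    have h3 : t ^ (s * (u * r)) = t ^ u := by
      have : s * (u * r) = (p - 1) * v + u := by
        calc s * (u * r) = (r * s) * u := by ring
          _ = (ql k l * v + 1) * u := by rw [h2]
          _ = (ql k l * u) * v + u := by ring
          _ = _ := by rw [← hu]
      rw [this, pow_add, pow_mul, ZMod.pow_card_sub_one_eq_one ht, one_pow, one_mul]
    rw [mul_pow, mul_pow, mul_pow, ← pow_mul, ← pow_mul, ← pow_mul, ← pow_mul, h3, mul_comm r u]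
  rw [e1]
  constructor
  · intro h
    have h2 : ((t ^ s * a) ^ ((p - 1) / ql k l)) ^ (ql k l) = 1 := by
      rw [← pow_mul, Nat.div_mul_cancel hlp]
      exact ZMod.pow_card_sub_one_eq_one (mul_ne_zero (pow_ne_zero _ ht) ha)
    have h3 : orderOf ((t ^ s * a) ^ ((p - 1) / ql k l)) ∣ Nat.gcd r (ql k l) :=
      Nat.dvd_gcd (orderOf_dvd_of_pow_eq_one h) (orderOf_dvd_of_pow_eq_one h2)
    rw [hcopl l hl hlr, Nat.dvd_one, orderOf_eq_one_iff] at h3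
    exact h3
  · intro h
    rw [h, one_pow]

lemma pow_R (k r : ℕ) (t a : ZMod p) (ha : a ≠ 0) {l : ℕ} (hlp : ql k l ∣ p - 1)
    (hlr : ql k l ∣ r) : (t * a ^ r) ^ ((p - 1) / ql k l) = t ^ ((p - 1) / ql k l) := by
  obtain ⟨v, hv⟩ := hlr
  rw [hv, mul_pow, ← pow_mul]
  have h2 : ql k l * v * ((p - 1) / ql k l) = (p - 1) * v := by
    calc ql k l * v * ((p - 1) / ql k l) = (ql k l * ((p - 1) / ql k l)) * v := by ring
      _ = _ := by rw [Nat.mul_div_cancel' hlp]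
  rw [h2, pow_mul, ZMod.pow_card_sub_one_eq_one ha, one_pow, mul_one]

end

section
variable (F : IntermediateField ℚ QA) [NumberField F] [IsGalois ℚ F] (C : Set Gal(F/ℚ))
  (W0 : Subgroup ℚˣ) (k : ℕ) (D : ℚˣ) (r : ℕ)

/-- the condition modulo `p` -/
def QR (p : ℕ) (a : ZMod p) : Prop :=
  GF F C p ∧ UnW W0 p ∧ Un p (D : ℚ) ∧ a ≠ 0 ∧
    ∀ l ∈ Sk k (p - 1), ¬ (PW W0 (ql k l) p ∧ (rd p (D : ℚ) * a ^ r) ^ ((p - 1) / ql k l) = 1)

/-- the unit `D n ^ r` -/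
noncomputable def DR (n : ℕ) : ℚˣ := if h : (n : ℚ) ≠ 0 then D * (Units.mk0 (n : ℚ) h) ^ r else D

lemma DR_val {n : ℕ} (hn : n ≠ 0) : ((DR D r n : ℚˣ) : ℚ) = (D : ℚ) * (n : ℚ) ^ r := by
  unfold DR
  have h : (n : ℚ) ≠ 0 := by exact_mod_cast hn
  rw [dif_pos h, Units.val_mul, Units.val_pow_eq_pow_val, Units.val_mk0]

lemma LC_iffR (hk : k ≠ 0) (hr : r ≠ 0) {p : ℕ} (hp : p.Prime) (hD : Un p (D : ℚ)) {n : ℕ}
    (hn : n ≠ 0) :
    LC F C k (W0 ⊔ Subgroup.zpowers (DR D r n)) p ↔ QR F C W0 k D r p (n : ZMod p) := by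
  have : Fact p.Prime := ⟨hp⟩
  unfold LC QR
  refine and_congr_right fun _ => ?_
  rw [← unW_iff, unW_sup]
  have e0 : ((DR D r n : ℚˣ) : ℚ) = (D : ℚ) * ((n ^ r : ℕ) : ℚ) := by
    rw [DR_val D r hn]
    push_cast
    ring
  have e00 : ((n ^ r : ℕ) : ZMod p) ≠ 0 ↔ (n : ZMod p) ≠ 0 := by
    push_cast
    rw [Ne, pow_eq_zero_iff hr]
  have e1 : Un p ((DR D r n : ℚˣ) : ℚ) ↔ (n : ZMod p) ≠ 0 := by
    rw [e0, ← e00, ← un_nat]
    constructor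
    · intro h
      have h2 := un_mul (un_inv hD) h
      rwa [← mul_assoc, inv_mul_cancel₀ D.ne_zero, one_mul] at h2
    · exact fun h => un_mul hD h
  have e2 : (n : ZMod p) ≠ 0 →
      rd p ((DR D r n : ℚˣ) : ℚ) = rd p (D : ℚ) * (n : ZMod p) ^ r := by
    intro h
    have h' := e00.2 h
    rw [e0, rd_mul hD (un_nat.2 h') (un_mul hD (un_nat.2 h')), rd_nat]
    push_cast
    rfl
  constructor
  · rintro ⟨⟨h1, h2⟩, h3⟩
    refine ⟨h1, hD, e1.1 h2, fun l hl => ?_⟩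
    rw [idx_iff (unW_sup.2 ⟨h1, h2⟩) hk] at h3
    have h4 := h3 l hl
    rwa [PW_sup h1 h2, e2 (e1.1 h2)] at h4
  · rintro ⟨h1, -, h2, h3⟩
    refine ⟨⟨h1, e1.2 h2⟩, ?_⟩
    rw [idx_iff (unW_sup.2 ⟨h1, e1.2 h2⟩) hk]
    intro l hl
    rw [PW_sup h1 (e1.2 h2), e2 h2]
    exact h3 l hl

/-- the hypothesis of `mkDat` -/
lemma hQ_R (hW0 : W0.FG) : ∃ p0 : ℕ, (∀ p : ℕ, p.Prime → p0 ≤ p → Un p (D : ℚ)) ∧
    ∀ r : ℕ, 0 < r → (∀ l : ℕ, l.Prime → l ∣ r → ql k l ∣ r) →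
    ∀ p : ℕ, p.Prime → p0 ≤ p → ∃ m : ZMod p, m ≠ 0 ∧
    ∀ a : ZMod p, a ≠ 0 → (QR F C W0 k D r p a ↔
      gd F C (W0 ⊔ Subgroup.zpowers D) k r.primeFactors p ∧
      ∀ l ∈ Tp W0 k r.primeFactors p, (m * a) ^ ((p - 1) / ql k l) ≠ 1) := by
  classical
  obtain ⟨E, hE, hU⟩ := exists_unW hW0
  have hDf : (Subgroup.zpowers D).FG := ⟨{D}, by simp [Subgroup.zpowers_eq_closure]⟩
  obtain ⟨E', hE', hU'⟩ := exists_unW hDf
  have hUD : ∀ p : ℕ, p.Prime → E + E' + 1 ≤ p → Un p (D : ℚ) := by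
    intro p hp hp0
    have : Fact p.Prime := ⟨hp⟩
    exact hU' p (fun h => by
      have := Nat.le_of_dvd hE' h
      omega) D (Subgroup.mem_zpowers D)
  refine ⟨E + E' + 1, hUD, fun r hr hrk p hp hp0 => ?_⟩
  have : Fact p.Prime := ⟨hp⟩
  have hp1 : p - 1 ≠ 0 := (LC_pos (p := p)).ne'
  have h1 : UnW W0 p := hU p fun h => by
    have := Nat.le_of_dvd hE h
    omega
  have h2 := hUD p hp hp0
  obtain ⟨m, hm, htw⟩ := twist k r hr (rd_ne h2)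
  refine ⟨m, hm, fun a ha => ?_⟩
  have hT : ∀ l, l ∈ Tp W0 k r.primeFactors p ↔
      l ∈ Sk k (p - 1) ∧ ¬ l ∣ r ∧ PW W0 (ql k l) p := by
    intro l
    unfold Tp
    rw [mem_filter]
    refine and_congr_right fun hl => and_congr_left fun _ => not_congr ?_
    rw [Nat.mem_primeFactors]
    exact ⟨fun h => h.2.1, fun h => ⟨Sk_prime hl, h, hr.ne'⟩⟩
  unfold QR gd
  constructor
  · rintro ⟨hG, -, -, -, h⟩
    refine ⟨⟨hG, fun l hl hPW => ?_⟩, fun l hl h3 => ?_⟩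
    · rw [Nat.mem_primeFactors] at hl
      have hlS : l ∈ Sk k (p - 1) := (mem_Sk hp1).2 ⟨hl.1, hPW.1⟩
      rw [PW_sup h1 h2] at hPW
      refine h l hlS ⟨hPW.1, ?_⟩
      rw [pow_R k r _ a ha hPW.1.1 (hrk l hl.1 hl.2.1)]
      exact hPW.2
    · rw [hT] at hl
      exact h l hl.1 ⟨hl.2.2, (htw a ha l hl.1 hl.2.1).2 h3⟩
  · rintro ⟨⟨hG, hR⟩, h⟩
    refine ⟨hG, h1, h2, ha, fun l hl h3 => ?_⟩
    by_cases hlr : l ∣ r
    · refine hR l (Nat.mem_primeFactors.2 ⟨Sk_prime hl, hlr, hr.ne'⟩) ?_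
      rw [PW_sup h1 h2]
      refine ⟨h3.1, ?_⟩
      have h4 := h3.2
      rwa [pow_R k r _ a ha h3.1.1 (hrk l (Sk_prime hl) hlr)] at h4
    · exact h l ((hT l).2 ⟨hl, hlr, h3.1⟩) ((htw a ha l hl hlr).1 h3.2)

open Classical in
/-- the counting problem -/
theorem dat_R (hW0 : W0.FG) (hr : 0 < r) (hrk : ∀ l : ℕ, l.Prime → l ∣ r → ql k l ∣ r) (A : ℝ)
    (hlim : Tendsto (M fun p => if gd F C (W0 ⊔ Subgroup.zpowers D) k r.primeFactors p then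
      gT k (Tp W0 k r.primeFactors p) else 0) atTop (𝓝 A)) :
    ∃ d : Dat, d.A = A ∧ ∀ (p : ℕ) (a : ZMod p), d.Q p a ↔ QR F C W0 k D r p a := by
  obtain ⟨p0, -, hp0⟩ := hQ_R F C W0 k D hW0
  exact ⟨mkDat F C (W0 ⊔ Subgroup.zpowers D) W0 k r.primeFactors A hlim (QR F C W0 k D r) p0
    (hp0 r hr hrk), rfl, fun p a => Iff.rfl⟩

end

/-- the group generated by `W₀` and `D n ^ r` -/
lemma gp_eqR (W0 : Subgroup ℚˣ) (D : ℚˣ) (r : ℕ) {n : ℕ} (hn : n ≠ 0) :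
    W0 ⊔ Subgroup.closure {w : ℚˣ | (w : ℚ) = (D : ℚ) * (n : ℚ) ^ r} =
      W0 ⊔ Subgroup.zpowers (DR D r n) := by
  have h : {w : ℚˣ | (w : ℚ) = (D : ℚ) * (n : ℚ) ^ r} = {DR D r n} := by
    ext w
    rw [Set.mem_ofPred_eq, Set.mem_singleton_iff, ← DR_val D r hn, Units.val_inj]
  rw [h, Subgroup.zpowers_eq_closure]

end Pool.Agent.W171.LG
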