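import Pool.Agent.W171.LG.Dens2
import Pool.Agent.W171.LG.LocT
import Pool.Agent.H981R3.LN.Lim2

/-! # Averages of local densities -/

set_option autoImplicit false
set_option linter.unusedSectionVars false

namespace Pool.Agent.W171.LG

open NumberField Filter Topology Finset IntermediateField
open Pool.Agent.W401.Cheb
open Pool.Agent.H386R2.Artin (PP hL sumH LC_pos)
open Pool.Agent.H981R3.LN (ql Sk mem_Sk prod_dvd_iff pow_prod_iff prod_expand Sk_prime Sk_dvd mem_PP prod_ql_pos)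

lemma M_eq (a : ℕ → ℝ) (x : ℕ) : M a x = (∑ p ∈ PP x, a p) / (Nat.primeCounting x : ℝ) := by
  rfl

open Classical in
/-- from the truncated densities to the densities -/
theorem lim_of (k : ℕ) (good : ℕ → Prop) (T : ℕ → Finset ℕ)
    (hT : ∀ p : ℕ, p.Prime → T p ⊆ Sk k (p - 1)) (dL : ℕ → ℝ) (A : ℝ)
    (h1 : ∀ L : ℕ, Tendsto (M fun p => if good p then gT k ((T p).filter (fun l => l ≤ L)) else 0)
      atTop (𝓝 (dL L)))
    (h7 : Tendsto dL atTop (𝓝 A)) :
    Tendsto (M fun p => if good p then gT k (T p) else 0) atTop (𝓝 A) := by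
  obtain ⟨C, hC, h5⟩ := sumH
  rw [Metric.tendsto_atTop]
  intro ε hε
  have hLlim : ∀ᶠ L : ℕ in atTop, |dL L - A| < ε / 4 := by
    have := (Metric.tendsto_nhds.1 h7) (ε / 4) (by positivity)
    simpa [Real.dist_eq] using this
  have hCL : ∀ᶠ L : ℕ in atTop, C / (L : ℝ) < ε / 4 := by
    have : Tendsto (fun L : ℕ => C / (L : ℝ)) atTop (𝓝 0) :=
      tendsto_const_nhds.div_atTop tendsto_natCast_atTop_atTop
    exact this.eventually (gt_mem_nhds (by positivity))
  obtain ⟨L, ⟨hL1, hL2⟩, hL3⟩ := ((hLlim.and hCL).and (eventually_ge_atTop 1)).exists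
  obtain ⟨x₅, hx₅⟩ := h5 L hL3
  have hG : ∀ᶠ x : ℕ in atTop, |M (fun p => if good p then gT k ((T p).filter (fun l => l ≤ L))
      else 0) x - dL L| < ε / 4 := by
    have := (Metric.tendsto_nhds.1 (h1 L)) (ε / 4) (by positivity)
    simpa [Real.dist_eq] using this
  have hπ : ∀ᶠ x : ℕ in atTop, (1 : ℝ) ≤ (Nat.primeCounting x : ℝ) :=
    (Filter.tendsto_atTop.mp (tendsto_natCast_atTop_atTop.comp
      Nat.tendsto_primeCounting) _)
  obtain ⟨x₀, hx₀⟩ := eventually_atTop.1 ((hG.and hπ).and (eventually_ge_atTop x₅))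
  refine ⟨x₀, fun x hx => ?_⟩
  obtain ⟨⟨g1, g2⟩, g3⟩ := hx₀ x hx
  set P : ℝ := (Nat.primeCounting x : ℝ) with hP
  have hP0 : 0 < P := lt_of_lt_of_le one_pos g2
  have hh := hx₅ x g3
  rw [M_eq] at g1
  rw [M_eq]
  set SG : ℝ := ∑ p ∈ PP x, if good p then gT k ((T p).filter (fun l => l ≤ L)) else 0 with hSG
  set SR : ℝ := ∑ p ∈ PP x, if good p then gT k (T p) else 0 with hSR
  have h13 : |SG - SR| ≤ C / L * P := by
    rw [hSG, hSR, ← Finset.sum_sub_distrib]
    refine (Finset.abs_sum_le_sum_abs _ _).trans ?_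
    refine le_trans ?_ hh
    apply Finset.sum_le_sum
    intro p hp
    have : Fact p.Prime := ⟨(mem_PP.1 hp).2⟩
    obtain ⟨c1, c2⟩ := gT_gT (p := p) (hT p this.out) L
    have hh0 : 0 ≤ hL L (p - 1) := Finset.sum_nonneg fun l _ => by positivity
    split_ifs
    · rw [abs_of_nonneg c1]
      exact c2
    · simpa using hh0
  have h14 : |SG - dL L * P| ≤ ε / 4 * P := by
    have e1 : SG - dL L * P = (SG / P - dL L) * P := by
      field_simp
    rw [e1, abs_mul, abs_of_pos hP0]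
    exact mul_le_mul_of_nonneg_right g1.le hP0.le
  have h15 : |dL L * P - A * P| ≤ ε / 4 * P := by
    rw [← sub_mul, abs_mul, abs_of_pos hP0]
    exact mul_le_mul_of_nonneg_right hL1.le hP0.le
  have h16 : |SR - A * P| < ε * P := by
    have t1 : C / L * P ≤ ε / 4 * P := mul_le_mul_of_nonneg_right hL2.le hP0.le
    rw [abs_le] at h13 h14 h15
    rw [abs_lt]
    have : 0 < ε * P := by positivity
    constructor
    · linarith [h13.1, h13.2, h14.1, h14.2, h15.1, h15.2]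
    · linarith [h13.1, h13.2, h14.1, h14.2, h15.1, h15.2]
  rw [Real.dist_eq]
  have h17 : SR / P - A = (SR - A * P) / P := by
    field_simp
  rw [h17, abs_div, abs_of_pos hP0, div_lt_iff₀ hP0]
  exact h16

lemma rd_ne {p : ℕ} [Fact p.Prime] {w : ℚ} (h : Un p w) : rd p w ≠ 0 :=
  mul_ne_zero h.1 (inv_ne_zero h.2)

/-- power residue conditions for several primes -/
lemma PW_prod {W : Subgroup ℚˣ} {k p : ℕ} [Fact p.Prime] (hU : UnW W p) (K : Finset ℕ)
    (hK : ∀ l ∈ K, l.Prime) : PW W (∏ l ∈ K, ql k l) p ↔ ∀ l ∈ K, PW W (ql k l) p := by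
  have hp1 : p - 1 ≠ 0 := (LC_pos (p := p)).ne'
  constructor
  · rintro ⟨h1, h2⟩ l hl
    have h3 := (prod_dvd_iff k _ K hK).1 h1
    have hKS : K ⊆ Sk k (p - 1) := fun l hl => (mem_Sk hp1).2 ⟨hK l hl, h3 l hl⟩
    exact ⟨h3 l hl, fun w hw => (pow_prod_iff (rd_ne (hU w hw)) K hKS).2 (h2 w hw) l hl⟩
  · intro h
    have h3 : ∏ l ∈ K, ql k l ∣ p - 1 := (prod_dvd_iff k _ K hK).2 fun l hl => (h l hl).1
    have hKS : K ⊆ Sk k (p - 1) := fun l hl => (mem_Sk hp1).2 ⟨hK l hl, (h l hl).1⟩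
    exact ⟨h3, fun w hw => (pow_prod_iff (rd_ne (hU w hw)) K hKS).1 fun l hl => (h l hl).2 w hw⟩

section
variable (F : IntermediateField ℚ QA) [NumberField F] [IsGalois ℚ F] (C : Set Gal(F/ℚ))
  (W1 W0 : Subgroup ℚˣ) (k : ℕ) (R : Finset ℕ)

open Classical in
/-- the primes for which a power residue condition has to be avoided -/
noncomputable def Tp (p : ℕ) : Finset ℕ :=
  (Sk k (p - 1)).filter (fun l => l ∉ R ∧ PW W0 (ql k l) p)

/-- the conditions at `p` which do not depend on the variable base -/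
def gd (p : ℕ) : Prop := GF F C p ∧ ∀ l ∈ R, ¬ PW W1 (ql k l) p

/-- density for the sets `J`, `K` -/
noncomputable def dn (J K : Finset ℕ) : ℝ :=
  (cE F C (Lf QA W1 (∏ l ∈ J, ql k l) ⊔ Lf QA W0 (∏ l ∈ K, ql k l)) : ℝ) /
    (Module.finrank ℚ (Kf F W1 W0 (∏ l ∈ J, ql k l) (∏ l ∈ K, ql k l)) : ℝ)

open Classical in
/-- the truncated limit density -/
noncomputable def dLr (L : ℕ) : ℝ :=
  ∑ K ∈ (PP L).powerset.filter (fun K => Disjoint K R),
    (-1 : ℝ) ^ #K * (1 / ((∏ l ∈ K, ql k l : ℕ) : ℝ)) *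
      ∑ J ∈ R.powerset, (-1 : ℝ) ^ #J * dn F C W1 W0 k J K

open Classical in
lemma pointwise (hR : ∀ l ∈ R, l.Prime) (L : ℕ) {p : ℕ} [Fact p.Prime] (hU1 : UnW W1 p)
    (hU0 : UnW W0 p) :
    (if gd F C W1 k R p then gT k ((Tp W0 k R p).filter (fun l => l ≤ L)) else 0) =
    ∑ K ∈ (PP L).powerset.filter (fun K => Disjoint K R),
      (-1 : ℝ) ^ #K * (1 / ((∏ l ∈ K, ql k l : ℕ) : ℝ)) *
        ∑ J ∈ R.powerset, (-1 : ℝ) ^ #J *
          (if GF F C p ∧ PW W1 (∏ l ∈ J, ql k l) p ∧ PW W0 (∏ l ∈ K, ql k l) p then 1 else 0) := by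
  have hp1 : p - 1 ≠ 0 := (LC_pos (p := p)).ne'
  by_cases hGF : GF F C p
  swap
  · rw [if_neg (fun h => hGF h.1)]
    symm
    refine Finset.sum_eq_zero fun K _ => ?_
    rw [Finset.sum_eq_zero, mul_zero]
    intro J _
    rw [if_neg (fun h => hGF h.1), mul_zero]
  -- the factor of `R`
  have e1 : (if gd F C W1 k R p then (1 : ℝ) else 0) = ∑ J ∈ R.powerset, (-1 : ℝ) ^ #J *
      (if PW W1 (∏ l ∈ J, ql k l) p then 1 else 0) := by
    have h1 : (if gd F C W1 k R p then (1 : ℝ) else 0) =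
        ∏ l ∈ R, (-(if PW W1 (ql k l) p then (1 : ℝ) else 0) + 1) := by
      unfold gd
      by_cases h : ∀ l ∈ R, ¬ PW W1 (ql k l) p
      · rw [if_pos ⟨hGF, h⟩]
        symm
        refine Finset.prod_eq_one fun l hl => ?_
        rw [if_neg (h l hl)]
        norm_num
      · rw [if_neg (fun h' => h h'.2)]
        push Not at h
        obtain ⟨l, hl, hl1⟩ := h
        symm
        refine Finset.prod_eq_zero hl ?_
        rw [if_pos hl1]
        norm_num
    rw [h1, Finset.prod_add]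
    refine Finset.sum_congr rfl fun J hJ => ?_
    rw [Finset.prod_const_one, mul_one, Finset.prod_neg]
    congr 1
    have h2 := PW_prod (k := k) hU1 J fun l hl => hR l (mem_powerset.1 hJ hl)
    by_cases h : ∀ l ∈ J, PW W1 (ql k l) p
    · rw [if_pos (h2.2 h)]
      refine Finset.prod_eq_one fun l hl => ?_
      rw [if_pos (h l hl)]
    · rw [if_neg (fun h' => h (h2.1 h'))]
      push Not at h
      obtain ⟨l, hl, hl1⟩ := h
      exact Finset.prod_eq_zero hl (if_neg hl1)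
  -- the factor of the primes outside `R`
  have e2 : gT k ((Tp W0 k R p).filter (fun l => l ≤ L)) =
      ∑ K ∈ (PP L).powerset.filter (fun K => Disjoint K R),
        (-1 : ℝ) ^ #K * (1 / ((∏ l ∈ K, ql k l : ℕ) : ℝ)) *
          (if PW W0 (∏ l ∈ K, ql k l) p then 1 else 0) := by
    unfold gT
    rw [prod_expand]
    have hsub : ((Tp W0 k R p).filter (fun l => l ≤ L)).powerset ⊆
        (PP L).powerset.filter (fun K => Disjoint K R) := by
      intro K hK
      rw [mem_powerset] at hK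
      rw [mem_filter, mem_powerset]
      have h1 : ∀ l ∈ K, l.Prime ∧ l ≤ L ∧ l ∉ R := by
        intro l hl
        have h2 := mem_filter.1 (hK hl)
        have h3 := mem_filter.1 h2.1
        exact ⟨((mem_Sk hp1).1 h3.1).1, h2.2, h3.2.1⟩
      exact ⟨fun l hl => mem_PP.2 ⟨(h1 l hl).2.1, (h1 l hl).1⟩,
        Finset.disjoint_left.2 fun l hl => (h1 l hl).2.2⟩
    rw [← Finset.sum_subset hsub]
    · refine Finset.sum_congr rfl fun K hK => ?_
      rw [mem_powerset] at hK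
      rw [if_pos, mul_one]
      refine (PW_prod hU0 K fun l hl => ?_).2 fun l hl => ?_
      · exact ((mem_Sk hp1).1 (mem_filter.1 (mem_filter.1 (hK hl)).1).1).1
      · exact (mem_filter.1 (mem_filter.1 (hK hl)).1).2.2
    · intro K hK hK2
      rw [mem_filter, mem_powerset] at hK
      rw [mem_powerset] at hK2
      rw [if_neg, mul_zero]
      intro h
      apply hK2
      have h3 := (PW_prod hU0 K fun l hl => (mem_PP.1 (hK.1 hl)).2).1 h
      intro l hl
      have h1 := mem_PP.1 (hK.1 hl)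
      rw [mem_filter]
      refine ⟨?_, h1.1⟩
      unfold Tp
      rw [mem_filter, mem_Sk hp1]
      exact ⟨⟨h1.2, (h3 l hl).1⟩, Finset.disjoint_left.1 hK.2 hl, h3 l hl⟩
  have e3 : (if gd F C W1 k R p then gT k ((Tp W0 k R p).filter (fun l => l ≤ L)) else 0) =
      gT k ((Tp W0 k R p).filter (fun l => l ≤ L)) * (if gd F C W1 k R p then (1 : ℝ) else 0) := by
    split_ifs <;> simp
  rw [e3, e1, e2, Finset.sum_mul]
  refine Finset.sum_congr rfl fun K _ => ?_
  rw [mul_assoc, Finset.mul_sum]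
  congr 1
  refine Finset.sum_congr rfl fun J _ => ?_
  by_cases h1 : PW W1 (∏ l ∈ J, ql k l) p <;> by_cases h2 : PW W0 (∏ l ∈ K, ql k l) p <;>
    simp [h1, h2, hGF]

open Classical in
theorem avg_trunc (hC : ∀ σ ∈ C, ∀ τ : Gal(F/ℚ), τ * σ * τ⁻¹ ∈ C) (hW1 : W1.FG) (hW0 : W0.FG)
    (hR : ∀ l ∈ R, l.Prime) (L : ℕ) :
    Tendsto (M fun p => if gd F C W1 k R p then gT k ((Tp W0 k R p).filter (fun l => l ≤ L)) else 0)
      atTop (𝓝 (dLr F C W1 W0 k R L)) := by
  obtain ⟨D1, hD1, hU1⟩ := exists_unW hW1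
  obtain ⟨D0, hD0, hU0⟩ := exists_unW hW0
  refine M_congr (D := D1 * D0) (by positivity) (b := fun p =>
    ∑ K ∈ (PP L).powerset.filter (fun K => Disjoint K R),
      (-1 : ℝ) ^ #K * (1 / ((∏ l ∈ K, ql k l : ℕ) : ℝ)) *
        ∑ J ∈ R.powerset, (-1 : ℝ) ^ #J *
          (if GF F C p ∧ PW W1 (∏ l ∈ J, ql k l) p ∧ PW W0 (∏ l ∈ K, ql k l) p then 1 else 0)) ?_ ?_
  · intro p hp hpD
    have : Fact p.Prime := ⟨hp⟩
    exact pointwise F C W1 W0 k R hR L (hU1 p fun h => hpD (Dvd.dvd.mul_right h _))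
      (hU0 p fun h => hpD (Dvd.dvd.mul_left h _))
  · simp_rw [funext (M_sum _ _)]
    unfold dLr
    apply tendsto_finsetSum
    intro K hK
    rw [mem_filter, mem_powerset] at hK
    simp_rw [funext (M_smul _ _)]
    apply Tendsto.const_mul
    simp_rw [funext (M_sum _ _)]
    apply tendsto_finsetSum
    intro J hJ
    rw [mem_powerset] at hJ
    simp_rw [funext (M_smul _ _)]
    apply Tendsto.const_mul
    exact dens F C hC W1 W0 _ _ hW1 hW0 (prod_ql_pos fun l hl => hR l (hJ hl))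
      (prod_ql_pos fun l hl => (mem_PP.1 (hK.1 hl)).2)

end

end Pool.Agent.W171.LG
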