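import Pool.Agent.W401.Cheb.Main

/-! # Mean values of the indicator of a Frobenius condition -/

set_option autoImplicit false

namespace Pool.Agent.W171.LG

open NumberField Filter Topology Finset
open Pool.Agent.W401.Cheb

/-- some homomorphism `𝓞 K → F̄_p` has its Frobenius in `X` -/
def FI (K : Type) [Field K] [NumberField K] [IsGalois ℚ K] (X : Set Gal(K/ℚ)) (p : ℕ) : Prop :=
  ∃ (_ : Fact p.Prime) (φ : 𝓞 K →+* AlgebraicClosure (ZMod p)) (τ : Gal(K/ℚ)),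
    HasFrob p φ τ ∧ τ ∈ X

variable {K : Type} [Field K] [NumberField K] [IsGalois ℚ K]

lemma fi_iff {p : ℕ} [Fact p.Prime] (h : TorAt K p) {X : Set Gal(K/ℚ)}
    (hX : ∀ σ ∈ X, ∀ τ : Gal(K/ℚ), τ * σ * τ⁻¹ ∈ X)
    {φ : 𝓞 K →+* AlgebraicClosure (ZMod p)} {τ : Gal(K/ℚ)} (hτ : HasFrob p φ τ) :
    FI K X p ↔ τ ∈ X := by
  constructor
  · rintro ⟨_, φ', τ', h1, h2⟩
    obtain ⟨σ, hσ, _⟩ := h.2.1 φ φ'
    have h3 : φ' = tw φ σ := RingHom.ext hσ
    rw [h3, hasFrob_tw h hτ] at h1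
    have h4 := hX τ' h2 σ
    rw [h1] at h4
    convert h4 using 1
    group
  · intro h1
    exact ⟨inferInstance, φ, τ, hτ, h1⟩

open Classical in
lemma sum_xp_X {p : ℕ} [Fact p.Prime] (h : TorAt K p) {X : Set Gal(K/ℚ)}
    (hX : ∀ σ ∈ X, ∀ τ : Gal(K/ℚ), τ * σ * τ⁻¹ ∈ X) :
    ∑ g ∈ Finset.univ.filter (fun g : Gal(K/ℚ) => g ∈ X), (xp K g p : ℝ) =
      Nat.card Gal(K/ℚ) * (if FI K X p then 1 else 0) := by
  obtain ⟨φ⟩ := nonempty_hom h
  obtain ⟨τ, hτ⟩ := exists_frob h φ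
  rw [fi_iff h hX hτ]
  simp_rw [xp_eq h hτ]
  rw [← Nat.cast_sum]
  have key : ∀ σ : Gal(K/ℚ), σ⁻¹ * τ * σ ∈ X ↔ τ ∈ X := by
    intro σ
    constructor
    · intro h1
      have h2 := hX _ h1 σ
      convert h2 using 1
      group
    · intro h1
      have h2 := hX _ h1 σ⁻¹
      convert h2 using 1
      group
  split_ifs with h1
  · rw [mul_one]
    congr 1
    rw [Nat.card_eq_fintype_card, ← Finset.card_univ]
    rw [Finset.card_eq_sum_card_fiberwise (f := fun σ : Gal(K/ℚ) => σ⁻¹ * τ * σ)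
      (t := Finset.univ.filter (fun g : Gal(K/ℚ) => g ∈ X))
      (fun σ _ => by simpa using (key σ).2 h1)]
    refine sum_congr rfl fun g _ => ?_
    rw [Nat.card_eq_fintype_card, Fintype.card_subtype]
  · rw [mul_zero]
    norm_cast
    refine Finset.sum_eq_zero fun g hg => ?_
    rw [Finset.mem_filter] at hg
    rw [Nat.card_eq_zero]
    left
    refine ⟨fun x => h1 ?_⟩
    rw [← key x.1, x.2]
    exact hg.2

open Classical in
/-- the mean value of a Frobenius condition -/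
theorem mean_FI {X : Set Gal(K/ℚ)} (hX : ∀ σ ∈ X, ∀ τ : Gal(K/ℚ), τ * σ * τ⁻¹ ∈ X) :
    Tendsto (M fun p => if FI K X p then 1 else 0) atTop
      (𝓝 ((Nat.card X : ℝ) / (Nat.card Gal(K/ℚ) : ℝ))) := by
  obtain ⟨D, hD, hT⟩ := torsor K
  have hG : (0 : ℝ) < Nat.card Gal(K/ℚ) := by exact_mod_cast Nat.card_pos
  have h1 : Tendsto (M fun p => (Nat.card Gal(K/ℚ) : ℝ)⁻¹ *
      ∑ g ∈ Finset.univ.filter (fun g : Gal(K/ℚ) => g ∈ X), (xp K g p : ℝ)) atTop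
      (𝓝 ((Nat.card X : ℝ) / (Nat.card Gal(K/ℚ) : ℝ))) := by
    have h2 : Tendsto (fun N => (Nat.card Gal(K/ℚ) : ℝ)⁻¹ *
        ∑ g ∈ Finset.univ.filter (fun g : Gal(K/ℚ) => g ∈ X), M (fun p => (xp K g p : ℝ)) N) atTop
        (𝓝 ((Nat.card Gal(K/ℚ) : ℝ)⁻¹ *
          ∑ g ∈ Finset.univ.filter (fun g : Gal(K/ℚ) => g ∈ X), (1 : ℝ))) := by
      apply Tendsto.const_mul
      apply tendsto_finsetSum
      intro g _
      exact chebotarev K g
    have h3 : (Nat.card Gal(K/ℚ) : ℝ)⁻¹ *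
          ∑ g ∈ Finset.univ.filter (fun g : Gal(K/ℚ) => g ∈ X), (1 : ℝ) =
          (Nat.card X : ℝ) / (Nat.card Gal(K/ℚ) : ℝ) := by
      rw [Finset.sum_const, nsmul_eq_mul, mul_one, div_eq_inv_mul]
      congr 2
      rw [Nat.card_eq_fintype_card, Fintype.card_subtype]
    rw [h3] at h2
    refine h2.congr fun N => ?_
    rw [← M_sum, ← M_smul]
  refine M_congr hD ?_ h1
  intro p hp hpD
  have : Fact p.Prime := ⟨hp⟩
  rw [sum_xp_X (hT p hpD) hX, ← mul_assoc, inv_mul_cancel₀ hG.ne', one_mul]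

end Pool.Agent.W171.LG
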