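import Pool.Agent.W171.LG.PowTwo2
import Pool.Agent.W171.EP.Uniform
import Pool.Agent.H386R2.Artin.SumH

/-! # The mean of the local densities, uniformly in the exponent -/

set_option autoImplicit false
set_option linter.unusedSectionVars false

namespace Pool.Agent.W171.LG

open NumberField Filter Topology Finset
open Pool.Agent.W401.Cheb
open Pool.Agent.H386R2.Artin (PP Good hL LC_pos artinL artinC artinLim)
open Pool.Agent.H386R2.Artin.SH (term_bt card_triv)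
open Pool.Agent.H771R4.SE (Dat)
open Pool.Agent.H981R3.LN (ql Sk mem_Sk mem_PP Sk_dvd Sk_prime)
open Pool.Agent.W171.EP (sG card_PP mem_PP')

lemma GR_bounds (R : Finset ℕ) (p : ℕ) : 0 ≤ GR R p ∧ GR R p ≤ 1 := by
  unfold GR
  split_ifs with h
  · have : Fact p.Prime := ⟨h.1⟩
    exact gT_bounds (p := p) (Tp_sub (⊥ : Subgroup ℚˣ) 1 R p)
  · exact ⟨le_rfl, zero_le_one⟩

lemma GR_eq {R R0 : Finset ℕ} (hsub : R0 ⊆ R) {p : ℕ} (hp : p.Prime)
    (h : ∀ l ∈ R, l ∉ R0 → ¬ l ∣ p - 1) : GR R p = GR R0 p := by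
  classical
  have : Fact p.Prime := ⟨hp⟩
  have hp1 : p - 1 ≠ 0 := (LC_pos (p := p)).ne'
  have e1 : gd Q0 Set.univ (Subgroup.zpowers u2) 1 R p ↔
      gd Q0 Set.univ (Subgroup.zpowers u2) 1 R0 p := by
    unfold gd
    refine and_congr_right fun _ => ?_
    constructor
    · exact fun h1 l hl => h1 l (hsub hl)
    · intro h1 l hl hPW
      by_cases hl0 : l ∈ R0
      · exact h1 l hl0 hPW
      · apply h l hl hl0
        have := hPW.1
        rwa [ql_one] at this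
  have e2 : Tp (⊥ : Subgroup ℚˣ) 1 R p = Tp (⊥ : Subgroup ℚˣ) 1 R0 p := by
    unfold Tp
    ext l
    rw [mem_filter, mem_filter]
    refine and_congr_right fun hl => and_congr_left fun _ => ?_
    rw [mem_Sk hp1, ql_one] at hl
    constructor
    · exact fun h1 h2 => h1 (hsub h2)
    · intro h1 h2
      exact h l h2 h1 hl.2
  unfold GR
  rw [e2]
  by_cases hg : gd Q0 Set.univ (Subgroup.zpowers u2) 1 R p
  · rw [if_pos ⟨hp, hg⟩, if_pos ⟨hp, e1.1 hg⟩]
  · rw [if_neg (fun h => hg h.2), if_neg (fun h => hg (e1.2 h.2))]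

lemma GR_diff {R R0 : Finset ℕ} (hsub : R0 ⊆ R) (x : ℕ) :
    |sG (GR R) x - sG (GR R0) x| ≤
      ∑ l ∈ R \ R0, ((Pool.Agent.H386R2.Artin.SH.A x l).card : ℝ) := by
  classical
  unfold sG
  rw [← Finset.sum_sub_distrib]
  refine (Finset.abs_sum_le_sum_abs _ _).trans ?_
  have h1 : ∀ p ∈ PP x, |GR R p - GR R0 p| ≤ ∑ l ∈ R \ R0, (if l ∣ p - 1 then (1 : ℝ) else 0) := by
    intro p hp
    by_cases h : ∀ l ∈ R, l ∉ R0 → ¬ l ∣ p - 1
    · rw [GR_eq hsub (mem_PP.1 hp).2 h, sub_self, abs_zero]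
      exact Finset.sum_nonneg fun l _ => by split_ifs <;> norm_num
    · push Not at h
      obtain ⟨l, hl, hl0, hlp⟩ := h
      have h2 : (1 : ℝ) ≤ ∑ l ∈ R \ R0, (if l ∣ p - 1 then (1 : ℝ) else 0) := by
        have := Finset.single_le_sum (f := fun l : ℕ => (if l ∣ p - 1 then (1 : ℝ) else 0))
          (fun l _ => by split_ifs <;> norm_num) (Finset.mem_sdiff.2 ⟨hl, hl0⟩)
        simp only [if_pos hlp] at this
        exact this
      refine le_trans ?_ h2
      obtain ⟨a1, a2⟩ := GR_bounds R p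
      obtain ⟨b1, b2⟩ := GR_bounds R0 p
      rw [abs_le]
      constructor <;> linarith
  refine (Finset.sum_le_sum h1).trans ?_
  rw [Finset.sum_comm]
  refine le_of_eq (Finset.sum_congr rfl fun l _ => ?_)
  rw [← Finset.sum_filter, Finset.sum_const, nsmul_eq_mul, mul_one]
  rfl

theorem count_S : ∃ C1 : ℝ, 0 < C1 ∧ ∀ ε : ℝ, 0 < ε → ∃ x0 : ℕ, ∀ x : ℕ, x0 ≤ x →
    ∀ S : Finset ℕ, (∀ l ∈ S, l.Prime) → (#S : ℝ) ≤ (x : ℝ) ^ (1 / 4 : ℝ) →
      ∑ l ∈ S, ((Pool.Agent.H386R2.Artin.SH.A x l).card : ℝ) ≤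
        (C1 * ∑ l ∈ S, (1 / (l : ℝ)) + ε) * (Nat.primeCounting x : ℝ) := by
  classical
  obtain ⟨C, hC, hbt⟩ := Helper923.PPS.brun_titchmarsh
  refine ⟨8 * C, by linarith, fun ε hε => ?_⟩
  obtain ⟨y₀, hy3, hy⟩ := Pool.Agent.H386R2.Artin.pi_lower
  have e1 : ∀ᶠ x : ℝ in atTop, Real.log x ≤ ε / 2 * x ^ (1 / 4 : ℝ) := by
    have h := (isLittleO_log_rpow_atTop (r := 1 / 4) (by norm_num)).bound (c := ε / 2)
      (by positivity)
    filter_upwards [h, eventually_gt_atTop 1] with x h1 h2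
    rw [Real.norm_of_nonneg (Real.log_nonneg h2.le), Real.norm_of_nonneg (by positivity)] at h1
    exact h1
  obtain ⟨X1, hX1⟩ := eventually_atTop.1 ((tendsto_natCast_atTop_atTop (R := ℝ)).eventually e1)
  refine ⟨max X1 y₀ + 2, fun x hx S hS hSc => ?_⟩
  have k1 := hX1 x (by have := le_max_left X1 y₀; omega)
  have k2 := hy x (by have := le_max_right X1 y₀; omega)
  have hx2 : (2 : ℝ) ≤ x := by exact_mod_cast (by omega : 2 ≤ x)
  have hx0 : (0 : ℝ) < x := by linarith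
  have hlx : 0 < Real.log x := Real.log_pos (by linarith)
  have hP : (0 : ℝ) ≤ (Nat.primeCounting x : ℝ) := Nat.cast_nonneg _
  have hterm : ∀ l ∈ S, ((Pool.Agent.H386R2.Artin.SH.A x l).card : ℝ) ≤
      8 * C * (Nat.primeCounting x : ℝ) * (1 / (l : ℝ)) + (x : ℝ) ^ (1 / 2 : ℝ) := by
    intro l hl
    have hl0 : (0 : ℝ) < l := by exact_mod_cast (hS l hl).pos
    have hs : 0 ≤ (x : ℝ) ^ (1 / 2 : ℝ) := by positivity
    by_cases hlx2 : l ^ 2 ≤ x
    · have h1 := term_bt hC hbt (hS l hl) hlx2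
      have h2 : ((Pool.Agent.H386R2.Artin.SH.A x l).card : ℝ) ≤
          4 * C * (x / Real.log x) * (1 / (l : ℝ)) := by
        have h3 : ((Pool.Agent.H386R2.Artin.SH.A x l).card : ℝ) =
            ((Pool.Agent.H386R2.Artin.SH.A x l).card : ℝ) * (1 / (l : ℝ)) * l := by
          field_simp
        rw [h3]
        calc ((Pool.Agent.H386R2.Artin.SH.A x l).card : ℝ) * (1 / (l : ℝ)) * l
            ≤ 4 * C * (x / Real.log x) * (1 / (l : ℝ) ^ 2) * l := by gcongr
          _ = 4 * C * (x / Real.log x) * (1 / (l : ℝ)) := by field_simp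
      have h4 : (x : ℝ) / Real.log x ≤ 2 * (Nat.primeCounting x : ℝ) := by
        have : (x : ℝ) / Real.log x = 2 * (x / (2 * Real.log x)) := by field_simp
        rw [this]
        linarith
      have h5 : 4 * C * (x / Real.log x) * (1 / (l : ℝ)) ≤
          4 * C * (2 * (Nat.primeCounting x : ℝ)) * (1 / (l : ℝ)) := by gcongr
      have h6 : 4 * C * (2 * (Nat.primeCounting x : ℝ)) * (1 / (l : ℝ)) =
          8 * C * (Nat.primeCounting x : ℝ) * (1 / (l : ℝ)) := by ring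
      linarith
    · push Not at hlx2
      have h1 : ((Pool.Agent.H386R2.Artin.SH.A x l).card : ℝ) ≤ x / l := by
        refine le_trans ?_ (Nat.cast_div_le (m := x) (n := l))
        exact_mod_cast card_triv (hS l hl).pos
      have h2 : (x : ℝ) / l ≤ (x : ℝ) ^ (1 / 2 : ℝ) := by
        rw [div_le_iff₀ hl0]
        have h3 : (x : ℝ) < (l : ℝ) ^ 2 := by exact_mod_cast hlx2
        have h4 : (x : ℝ) ^ (1 / 2 : ℝ) ≤ l := by
          rw [← Real.sqrt_eq_rpow, Real.sqrt_le_left hl0.le]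
          exact h3.le
        calc (x : ℝ) = (x : ℝ) ^ (1 / 2 : ℝ) * (x : ℝ) ^ (1 / 2 : ℝ) := by
              rw [← Real.rpow_add hx0]; norm_num
          _ ≤ _ := by gcongr
      have h3 : 0 ≤ 8 * C * (Nat.primeCounting x : ℝ) * (1 / (l : ℝ)) := by
        have : 0 ≤ C := by linarith
        positivity
      linarith
  refine (Finset.sum_le_sum hterm).trans ?_
  rw [Finset.sum_add_distrib, ← Finset.mul_sum, Finset.sum_const, nsmul_eq_mul]
  have h7 : (#S : ℝ) * (x : ℝ) ^ (1 / 2 : ℝ) ≤ ε * (Nat.primeCounting x : ℝ) := by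
    calc (#S : ℝ) * (x : ℝ) ^ (1 / 2 : ℝ) ≤ (x : ℝ) ^ (1 / 4 : ℝ) * (x : ℝ) ^ (1 / 2 : ℝ) := by
          gcongr
      _ ≤ ε * ((x : ℝ) / (2 * Real.log x)) := by
          rw [← mul_div_assoc, le_div_iff₀ (by positivity)]
          calc (x : ℝ) ^ (1 / 4 : ℝ) * (x : ℝ) ^ (1 / 2 : ℝ) * (2 * Real.log x)
              ≤ (x : ℝ) ^ (1 / 4 : ℝ) * (x : ℝ) ^ (1 / 2 : ℝ) *
                (2 * (ε / 2 * (x : ℝ) ^ (1 / 4 : ℝ))) := by gcongr
            _ = ε * ((x : ℝ) ^ (1 / 4 : ℝ) * (x : ℝ) ^ (1 / 2 : ℝ) * (x : ℝ) ^ (1 / 4 : ℝ)) := by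
                ring
            _ = ε * x := by
                rw [← Real.rpow_add hx0, ← Real.rpow_add hx0]
                norm_num
      _ ≤ ε * (Nat.primeCounting x : ℝ) := by gcongr
  have h8 : 8 * C * (Nat.primeCounting x : ℝ) * ∑ l ∈ S, (1 / (l : ℝ)) =
      8 * C * (∑ l ∈ S, (1 / (l : ℝ))) * (Nat.primeCounting x : ℝ) := by ring
  rw [h8]
  linarith

open Classical in
/-- the mean of the local densities -/
theorem mean_U : ∃ C1 : ℝ, 0 < C1 ∧ ∀ (δ : ℝ) (L : ℕ) (ε : ℝ), 0 < ε → ∃ x0 : ℕ,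
    ∀ (N x : ℕ) (R : Finset ℕ), (∀ l ∈ R, l.Prime) → (#R : ℝ) ≤ (N : ℝ) ^ (1 / 4 : ℝ) →
      ∑ l ∈ R.filter (fun l => L < l), (1 / (l : ℝ)) ≤ δ → x0 ≤ x → N ≤ x →
      |sG (GR R) x - artinC * (Nat.primeCounting x : ℝ)| ≤
        (C1 * δ + ε) * (Nat.primeCounting x : ℝ) := by
  obtain ⟨C1, hC1, hcount⟩ := count_S
  refine ⟨C1, hC1, fun δ L ε hε => ?_⟩
  obtain ⟨x1, hx1⟩ := hcount (ε / 2) (by positivity)
  -- the finitely many small parts
  have hfin : ∀ R0 : Finset ℕ, ∃ x2 : ℕ, (∀ l ∈ R0, l.Prime) → ∀ x : ℕ, x2 ≤ x →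
      |sG (GR R0) x - artinC * (Nat.primeCounting x : ℝ)| ≤
        ε / 2 * (Nat.primeCounting x : ℝ) := by
    intro R0
    by_cases hR0 : ∀ l ∈ R0, l.Prime
    swap
    · exact ⟨0, fun h => absurd h hR0⟩
    have h1 := lim_two R0 hR0
    rw [Metric.tendsto_atTop] at h1
    obtain ⟨x2, hx2⟩ := h1 (ε / 2) (by positivity)
    have hπ : ∀ᶠ x : ℕ in atTop, (1 : ℝ) ≤ (Nat.primeCounting x : ℝ) :=
      (Filter.tendsto_atTop.mp (tendsto_natCast_atTop_atTop.comp Nat.tendsto_primeCounting) _)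
    obtain ⟨x3, hx3⟩ := eventually_atTop.1 hπ
    refine ⟨max x2 x3, fun _ x hx => ?_⟩
    have h4 := hx2 x ((le_max_left _ _).trans hx)
    have h5 := hx3 x ((le_max_right _ _).trans hx)
    have hP : (0 : ℝ) < (Nat.primeCounting x : ℝ) := lt_of_lt_of_le one_pos h5
    rw [Real.dist_eq, M_eq] at h4
    have e0 : (∑ p ∈ PP x, (if gd Q0 Set.univ (Subgroup.zpowers u2) 1 R0 p then
        gT 1 (Tp (⊥ : Subgroup ℚˣ) 1 R0 p) else 0)) = sG (GR R0) x := by
      unfold sG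
      refine Finset.sum_congr rfl fun p hp => ?_
      unfold GR
      simp only [(mem_PP.1 hp).2, true_and]
    rw [e0] at h4
    have h6 : sG (GR R0) x - artinC * (Nat.primeCounting x : ℝ) =
        (sG (GR R0) x / (Nat.primeCounting x : ℝ) - artinC) * (Nat.primeCounting x : ℝ) := by
      field_simp
    rw [h6, abs_mul, abs_of_pos hP]
    exact mul_le_mul_of_nonneg_right h4.le hP.le
  choose X hX using hfin
  refine ⟨max x1 ((PP L).powerset.sup X), fun N x R hR hRN hRδ hx hNx => ?_⟩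
  set R0 := R.filter (fun l => l ≤ L) with hR0
  have hsub : R0 ⊆ R := filter_subset _ _
  have hR0P : R0 ∈ (PP L).powerset := by
    rw [mem_powerset]
    intro l hl
    rw [hR0, mem_filter] at hl
    exact mem_PP.2 ⟨hl.2, hR l hl.1⟩
  have hx2 : X R0 ≤ x := (Finset.le_sup hR0P).trans ((le_max_right _ _).trans hx)
  have k1 := hX R0 (fun l hl => hR l (hsub hl)) x hx2
  have k2 := GR_diff hsub x
  have hS : R \ R0 = R.filter (fun l => L < l) := by
    ext l
    rw [Finset.mem_sdiff, hR0, mem_filter, mem_filter]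
    constructor
    · rintro ⟨h1, h2⟩
      exact ⟨h1, by
        by_contra hcon
        exact h2 ⟨h1, by omega⟩⟩
    · rintro ⟨h1, h2⟩
      exact ⟨h1, fun h3 => by omega⟩
  rw [hS] at k2
  have k3 := hx1 x ((le_max_left _ _).trans hx) (R.filter (fun l => L < l))
    (fun l hl => hR l (mem_filter.1 hl).1) (by
      have h1 : (#(R.filter (fun l => L < l)) : ℝ) ≤ #R := by
        exact_mod_cast card_le_card (filter_subset _ _)
      refine h1.trans (hRN.trans ?_)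
      have h2 : (N : ℝ) ≤ x := by exact_mod_cast hNx
      exact Real.rpow_le_rpow (Nat.cast_nonneg _) h2 (by norm_num))
  have hP : (0 : ℝ) ≤ (Nat.primeCounting x : ℝ) := Nat.cast_nonneg _
  have k4 : (C1 * ∑ l ∈ R.filter (fun l => L < l), (1 / (l : ℝ)) + ε / 2) *
      (Nat.primeCounting x : ℝ) ≤ (C1 * δ + ε / 2) * (Nat.primeCounting x : ℝ) := by
    gcongr
  calc |sG (GR R) x - artinC * (Nat.primeCounting x : ℝ)|
      ≤ |sG (GR R) x - sG (GR R0) x| + |sG (GR R0) x - artinC * (Nat.primeCounting x : ℝ)| :=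
        abs_sub_le _ _ _
    _ ≤ (C1 * δ + ε / 2) * (Nat.primeCounting x : ℝ) + ε / 2 * (Nat.primeCounting x : ℝ) := by
        linarith
    _ = (C1 * δ + ε) * (Nat.primeCounting x : ℝ) := by ring

end Pool.Agent.W171.LG
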