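import Pool.Agent.W171.LG.Close
import Pool.Agent.H730R2.AA.OneX

/-! # There are few non-generic integers -/

set_option autoImplicit false
set_option linter.unusedSectionVars false

namespace Pool.Agent.W171.LG

open Finset Filter Topology
open Pool.Agent.H730R2.AA (sum_divisors_card)

lemma sqf_dvd {t v : ℕ} (ht : Squarefree t) (h : ∀ p : ℕ, p.Prime → p ∣ t → p ∣ v) : t ∣ v := by
  rw [← Nat.prod_primeFactors_of_squarefree ht]
  refine Finset.prod_primes_dvd v (fun p hp => (Nat.prime_of_mem_primeFactors hp).prime)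
    fun p hp => h p (Nat.prime_of_mem_primeFactors hp) (Nat.dvd_of_mem_primeFactors hp)

lemma nongen_form {P n : ℕ} (hn : n ≠ 0) (h : ¬ Gen P n) : ∃ a v t : ℕ, a ∣ primorial P ∧
    t ∣ v ∧ n = a * t * v ^ 2 := by
  obtain ⟨u, v, huv, hsq⟩ := Nat.sq_mul_squarefree n
  have hu0 : u ≠ 0 := hsq.ne_zero
  obtain ⟨t, ht⟩ : Nat.gcd u (primorial P) ∣ u := Nat.gcd_dvd_left _ _
  refine ⟨Nat.gcd u (primorial P), v, t, Nat.gcd_dvd_right _ _, ?_, ?_⟩
  · have htu : t ∣ u := Dvd.intro_left _ ht.symm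
    refine sqf_dvd (hsq.squarefree_of_dvd htu) fun p hp hpt => ?_
    have hpu : p ∣ u := hpt.trans htu
    have hpP : P < p := by
      by_contra hcon
      push Not at hcon
      have h1 : p ∣ primorial P := by
        unfold primorial
        exact Finset.dvd_prod_of_mem _ (by
          rw [Finset.mem_filter, Finset.mem_range]
          exact ⟨by omega, hp⟩)
      have h2 : p ∣ Nat.gcd u (primorial P) := Nat.dvd_gcd hpu h1
      have h3 : p * p ∣ u := by
        rw [ht]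
        exact mul_dvd_mul h2 hpt
      exact hp.one_lt.ne' (Nat.isUnit_iff.1 (hsq p h3))
    have hpn : p ∣ n := by
      rw [← huv]
      exact hpu.mul_left _
    have hp2 : p ^ 2 ∣ n := by
      by_contra hcon
      exact h ⟨p, hp, hpP, hpn, hcon⟩
    by_contra hpv
    have hcop : Nat.Coprime (p ^ 2) (v ^ 2) :=
      Nat.Coprime.pow 2 2 ((Nat.Prime.coprime_iff_not_dvd hp).2 hpv)
    rw [← huv] at hp2
    have h4 := hcop.dvd_of_dvd_mul_left hp2
    rw [pow_two] at h4
    exact hp.one_lt.ne' (Nat.isUnit_iff.1 (hsq p h4))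
  · rw [← ht, ← huv, mul_comm]

open Classical in
/-- there are few non-generic integers -/
theorem few_nongen (P : ℕ) : ∃ K : ℝ, 0 ≤ K ∧ ∀ N : ℕ, 1 ≤ N →
    (#((Icc 1 N).filter (fun n => ¬ Gen P n)) : ℝ) ≤ K * (√(N : ℝ) * (1 + Real.log N)) := by
  refine ⟨((primorial P).divisors.card : ℝ), Nat.cast_nonneg _, fun N hN => ?_⟩
  set S : Finset (ℕ × (Σ _ : ℕ, ℕ)) :=
    (primorial P).divisors ×ˢ ((Icc 1 (Nat.sqrt N)).sigma (fun v => v.divisors)) with hS
  have hsub : (Icc 1 N).filter (fun n => ¬ Gen P n) ⊆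
      S.image (fun x => x.1 * x.2.2 * x.2.1 ^ 2) := by
    intro n hn
    rw [Finset.mem_filter, Finset.mem_Icc] at hn
    obtain ⟨⟨hn1, hnN⟩, hG⟩ := hn
    obtain ⟨a, v, t, ha, ht, hav⟩ := nongen_form (by omega) hG
    have hv0 : v ≠ 0 := by
      rintro rfl
      rw [hav] at hn1
      simp at hn1
    have ha0 : a * t ≠ 0 := by
      intro h
      rw [hav, h] at hn1
      simp at hn1
    rw [Finset.mem_image]
    refine ⟨(a, ⟨v, t⟩), ?_, hav.symm⟩
    rw [hS, Finset.mem_product, Finset.mem_sigma, Nat.mem_divisors, Finset.mem_Icc, Nat.mem_divisors]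
    refine ⟨⟨ha, (primorial_pos P).ne'⟩, ⟨by simp only; omega, ?_⟩, ht, hv0⟩
    simp only
    rw [Nat.le_sqrt']
    calc v ^ 2 ≤ (a * t) * v ^ 2 := Nat.le_mul_of_pos_left _ (Nat.pos_of_ne_zero ha0)
      _ = n := hav.symm
      _ ≤ N := hnN
  have h1 := (Finset.card_le_card hsub).trans Finset.card_image_le
  rw [hS, Finset.card_product, Finset.card_sigma] at h1
  have hs1 : 1 ≤ Nat.sqrt N := by
    rw [Nat.le_sqrt]
    omega
  have h2 := sum_divisors_card (Nat.sqrt N) hs1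
  have h3 : (#((Icc 1 N).filter (fun n => ¬ Gen P n)) : ℝ) ≤
      ((primorial P).divisors.card : ℝ) * ∑ v ∈ Icc 1 (Nat.sqrt N), (v.divisors.card : ℝ) := by
    exact_mod_cast h1
  refine h3.trans ?_
  refine mul_le_mul_of_nonneg_left (h2.trans ?_) (Nat.cast_nonneg _)
  have hs2 : (Nat.sqrt N : ℝ) ≤ √(N : ℝ) := Real.nat_sqrt_le_real_sqrt
  have hs3 : (1 : ℝ) ≤ (Nat.sqrt N : ℝ) := by exact_mod_cast hs1
  have hs4 : (Nat.sqrt N : ℝ) ≤ N := by exact_mod_cast Nat.sqrt_le_self N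
  have hlog : Real.log (Nat.sqrt N) ≤ Real.log N := Real.log_le_log (by linarith) hs4
  have hlog0 : 0 ≤ Real.log (Nat.sqrt N) := Real.log_nonneg hs3
  have : 0 ≤ 1 + Real.log (Nat.sqrt N) := by linarith
  gcongr

end Pool.Agent.W171.LG
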