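import Pool.Agent.W171.LG.Two
import Pool.Agent.W171.LG.MkDat

/-! # The bases `2 m ^ r` -/

set_option autoImplicit false
set_option linter.unusedSectionVars false

namespace Pool.Agent.W171.LG

open NumberField Filter Topology Finset
open Pool.Agent.W401.Cheb
open Pool.Agent.H386R2.Artin (PP Good hL LC_pos artinL artinC artinLim)
open Pool.Agent.H771R4.SE (Dat)
open Pool.Agent.H981R3.LN (ql Sk mem_Sk mem_PP Sk_dvd Sk_prime)

/-- the unit `2` -/
noncomputable def u2 : ℚˣ := Units.mk0 2 two_ne_zero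

/-- the rational numbers -/
noncomputable abbrev Q0 : IntermediateField ℚ QA := ⊥

instance : FiniteDimensional ℚ Q0 :=
  (inferInstance : @FiniteDimensional ℚ Q0 _ _ (@Algebra.toModule _ _ _ _ Q0.algebra'))

instance : NumberField Q0 := { to_charZero := inferInstance, to_finiteDimensional := inferInstance }

instance : IsGalois ℚ Q0 := (inferInstance : @IsGalois ℚ _ Q0 _ Q0.algebra')

lemma gal_triv (σ : Gal(Q0/ℚ)) : σ = 1 := by
  have h1 : Nat.card Gal(Q0/ℚ) = 1 := by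
    have h2 : Nat.card Gal(Q0/ℚ) = Module.finrank ℚ Q0 := IsGalois.card_aut_eq_finrank ℚ Q0
    rw [h2]
    exact IntermediateField.finrank_bot
  have := (Nat.card_eq_one_iff_unique.1 h1).1
  exact Subsingleton.elim _ _

lemma GF_triv : ∃ D : ℕ, 0 < D ∧ ∀ p : ℕ, p.Prime → ¬ p ∣ D → GF Q0 Set.univ p := by
  obtain ⟨D, hD, hT⟩ := torsor Q0
  refine ⟨D, hD, fun p hp hpD => ?_⟩
  have : Fact p.Prime := ⟨hp⟩
  rw [GF_iff _ hp]
  obtain ⟨φ⟩ := nonempty_hom (hT p hpD)
  obtain ⟨τ, hτ⟩ := exists_frob (hT p hpD) φ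
  exact ⟨this, φ, τ, hτ, Set.mem_univ _⟩

lemma cE_triv (E : IntermediateField ℚ QA) : cE Q0 Set.univ E = 1 := by
  unfold cE
  rw [Nat.card_eq_one_iff_unique]
  constructor
  · refine ⟨fun a b => Subtype.ext ?_⟩
    rw [gal_triv a.1, gal_triv b.1]
  · exact ⟨⟨1, Set.mem_univ _, fun y _ => rfl⟩⟩

lemma sqf_prod_primes (K : Finset ℕ) (hK : ∀ l ∈ K, l.Prime) : Squarefree (∏ l ∈ K, l) :=
  Pool.Agent.H771R4.AQ.sqf_prod K hK

lemma ql_one (l : ℕ) : ql 1 l = l := by
  unfold ql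
  simp

lemma dn_two (J K : Finset ℕ) (hJ : ∀ l ∈ J, l.Prime) (hK : ∀ l ∈ K, l.Prime)
    (hd : Disjoint J K) : dn Q0 Set.univ (Subgroup.zpowers u2) ⊥ 1 J K =
      (∏ l ∈ J, (1 / ((l : ℝ) * ((l : ℝ) - 1)))) * ∏ l ∈ K, (1 / ((l : ℝ) - 1)) := by
  have hsq : Squarefree ((∏ l ∈ J, l) * ∏ l ∈ K, l) := by
    rw [← Finset.prod_union hd]
    exact sqf_prod_primes _ fun l hl => by
      rw [mem_union] at hl
      exact hl.elim (hJ l) (hK l)
  have eJ : ∏ l ∈ J, ql 1 l = ∏ l ∈ J, l := Finset.prod_congr rfl fun l _ => ql_one l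
  have eK : ∏ l ∈ K, ql 1 l = ∏ l ∈ K, l := Finset.prod_congr rfl fun l _ => ql_one l
  have hdeg : Module.finrank ℚ (Kf Q0 (Subgroup.zpowers u2) ⊥ (∏ l ∈ J, ql 1 l) (∏ l ∈ K, ql 1 l)) =
      (∏ l ∈ J, l) * Nat.totient ((∏ l ∈ J, l) * ∏ l ∈ K, l) := by
    rw [eJ, eK]
    exact finrank_two u2 rfl hsq
  unfold dn
  rw [cE_triv, hdeg]
  have htot : ∀ S : Finset ℕ, (∀ l ∈ S, l.Prime) →
      ((Nat.totient (∏ l ∈ S, l) : ℕ) : ℝ) = ∏ l ∈ S, ((l : ℝ) - 1) := by
    intro S
    induction S using Finset.induction_on with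
    | empty => intro _; simp
    | insert l S hl ih =>
      intro h
      rw [Finset.prod_insert hl, Finset.prod_insert hl, Nat.totient_mul]
      · push_cast
        rw [ih fun x hx => h x (mem_insert_of_mem hx), Nat.totient_prime (h l (mem_insert_self _ _)),
          Nat.cast_sub (h l (mem_insert_self _ _)).one_lt.le]
        simp
      · apply Nat.Coprime.prod_right
        intro x hx
        rw [Nat.coprime_primes (h l (mem_insert_self _ _)) (h x (mem_insert_of_mem hx))]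
        rintro rfl
        exact hl hx
  rw [← Finset.prod_union hd]
  push_cast
  rw [htot (J ∪ K) (fun l hl => by
      rw [mem_union] at hl
      exact hl.elim (hJ l) (hK l)), Finset.prod_union hd, Finset.prod_div_distrib,
    Finset.prod_div_distrib, Finset.prod_const_one, Finset.prod_const_one, Finset.prod_mul_distrib]
  rw [div_mul_div_comm]
  ring_nf

open Classical in
/-- the truncated limit density is Artin's product -/
lemma dLr_two (R : Finset ℕ) (hR : ∀ l ∈ R, l.Prime) (L : ℕ) (hL : ∀ l ∈ R, l ≤ L) :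
    dLr Q0 Set.univ (Subgroup.zpowers u2) ⊥ 1 R L = artinL L := by
  unfold dLr artinL
  have hRL : R ⊆ PP L := fun l hl => mem_PP.2 ⟨hL l hl, hR l hl⟩
  have hset : (PP L).powerset.filter (fun K => Disjoint K R) = (PP L \ R).powerset := by
    ext K
    rw [mem_filter, mem_powerset, mem_powerset, Finset.subset_sdiff]
  rw [hset]
  have e1 : ∏ l ∈ PP L, (1 - 1 / ((l : ℝ) * ((l : ℝ) - 1))) =
      (∏ l ∈ PP L \ R, (-(1 / ((l : ℝ) * ((l : ℝ) - 1))) + 1)) *
        ∏ l ∈ R, (-(1 / ((l : ℝ) * ((l : ℝ) - 1))) + 1) := by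
    rw [← Finset.prod_sdiff hRL]
    congr 1 <;>
    · refine Finset.prod_congr rfl fun l _ => ?_
      ring
  rw [e1, Finset.prod_add, Finset.prod_add, Finset.sum_mul]
  refine Finset.sum_congr rfl fun K hK => ?_
  rw [mem_powerset, Finset.subset_sdiff] at hK
  rw [Finset.prod_const_one, mul_one, Finset.prod_neg, mul_assoc]
  rw [mul_assoc]
  congr 1
  rw [Finset.mul_sum, Finset.mul_sum]
  refine Finset.sum_congr rfl fun J hJ => ?_
  rw [mem_powerset] at hJ
  rw [Finset.prod_const_one, mul_one, Finset.prod_neg,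
    dn_two J K (fun l hl => hR l (hJ hl)) (fun l hl => (mem_PP.1 (hK.1 hl)).2)
      ((Finset.disjoint_of_subset_right hJ hK.2).symm)]
  simp only [ql_one]
  have e3 : ∏ l ∈ K, (1 / ((l : ℝ) * ((l : ℝ) - 1))) =
      (1 / ((∏ l ∈ K, l : ℕ) : ℝ)) * ∏ l ∈ K, (1 / ((l : ℝ) - 1)) := by
    push_cast
    rw [Finset.prod_div_distrib, Finset.prod_div_distrib, Finset.prod_const_one,
      Finset.prod_mul_distrib, div_mul_div_comm, one_mul]
  rw [e3]
  ring

/-- the limit for base two -/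
theorem lim_two (R : Finset ℕ) (hR : ∀ l ∈ R, l.Prime) : by
    classical
    exact Tendsto (M fun p => if gd Q0 Set.univ (Subgroup.zpowers u2) 1 R p then
      gT 1 (Tp (⊥ : Subgroup ℚˣ) 1 R p) else 0) atTop (𝓝 artinC) := by
  classical
  refine lim_of 1 _ _ (fun p _ => Tp_sub (⊥ : Subgroup ℚˣ) 1 R p)
    (dLr Q0 Set.univ (Subgroup.zpowers u2) ⊥ 1 R) artinC ?_ ?_
  · intro L
    exact avg_trunc Q0 Set.univ _ _ 1 R (fun _ _ _ => Set.mem_univ _)
      ⟨{u2}, by simp [Subgroup.zpowers_eq_closure]⟩ ⟨∅, by simp⟩ hR L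
  · refine artinLim.congr' ?_
    filter_upwards [eventually_ge_atTop (R.sup id)] with L hL
    exact (dLr_two R hR L fun l hl => (Finset.le_sup (f := id) hl).trans hL).symm

end Pool.Agent.W171.LG
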