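import Pool.Agent.W171.LG.PowTwo
import Pool.Agent.W171.LG.Rd

/-! # The counting problem for the bases `2 m ^ r` -/

set_option autoImplicit false
set_option linter.unusedSectionVars false

namespace Pool.Agent.W171.LG

open NumberField Filter Topology Finset
open Pool.Agent.W401.Cheb
open Pool.Agent.H386R2.Artin (PP Good hL LC_pos artinL artinC artinLim)
open Pool.Agent.H771R4.SE (Dat)
open Pool.Agent.H981R3.LN (ql Sk mem_Sk mem_PP Sk_dvd Sk_prime index_iff)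

section
variable {p : ℕ} [Fact p.Prime]

lemma order_iff (a : ZMod p) : orderOf a = p - 1 ↔
    a ≠ 0 ∧ ∀ l ∈ Sk 1 (p - 1), a ^ ((p - 1) / ql 1 l) ≠ 1 := by
  have hp1 : 0 < p - 1 := LC_pos
  rw [← index_iff one_ne_zero, Nat.dvd_one]
  constructor
  · intro h
    rw [h, Nat.div_self hp1]
  · intro h
    have ha : a ≠ 0 := by
      rintro rfl
      have h0 : orderOf (0 : ZMod p) = 0 := by
        rw [orderOf_eq_zero_iff']
        intro n hn h1
        rw [zero_pow hn.ne'] at h1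
        exact zero_ne_one h1
      rw [h0, Nat.div_zero] at h
      exact zero_ne_one h
    have hm : orderOf a ∣ p - 1 := orderOf_dvd_of_pow_eq_one (ZMod.pow_card_sub_one_eq_one ha)
    have := Nat.div_mul_cancel hm
    rw [h, one_mul] at this
    exact this

lemma two_ne (hp2 : p ≠ 2) : (2 : ZMod p) ≠ 0 := by
  intro h
  have h1 : ((2 : ℕ) : ZMod p) = 0 := by exact_mod_cast h
  rw [ZMod.natCast_eq_zero_iff] at h1
  exact hp2 ((Nat.prime_dvd_prime_iff_eq Fact.out Nat.prime_two).1 h1)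

lemma rd_two : rd p (u2 : ℚ) = 2 := by
  have h0 : (u2 : ℚ) = 2 := rfl
  have h1 : ((2 : ℚ).num) = 2 := rfl
  have h2 : ((2 : ℚ).den) = 1 := rfl
  unfold rd
  rw [h0, h1, h2]
  simp

lemma Un_two (hp2 : p ≠ 2) : Un p (u2 : ℚ) := by
  have h0 : (u2 : ℚ) = 2 := rfl
  have h1 : ((2 : ℚ).num) = 2 := rfl
  have h2 : ((2 : ℚ).den) = 1 := rfl
  unfold Un
  rw [h0, h1, h2]
  refine ⟨?_, by simp⟩
  push_cast
  exact two_ne hp2

lemma PW_u2 (hp2 : p ≠ 2) (q : ℕ) : PW (Subgroup.zpowers u2) q p ↔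
    q ∣ p - 1 ∧ (2 : ZMod p) ^ ((p - 1) / q) = 1 := by
  rw [Subgroup.zpowers_eq_closure, PW_closure]
  · simp only [Set.mem_singleton_iff, forall_eq, rd_two]
  · intro w hw
    rw [Set.mem_singleton_iff] at hw
    rw [hw]
    exact Un_two hp2

lemma pow_two_T (r : ℕ) (hr : 0 < r) (hp2 : p ≠ 2) :
    ∃ m : ZMod p, m ≠ 0 ∧ ∀ a : ZMod p, a ≠ 0 → ∀ l : ℕ, l.Prime → l ∣ p - 1 → ¬ l ∣ r →
      ((2 * a ^ r) ^ ((p - 1) / l) = 1 ↔ (m * a) ^ ((p - 1) / l) = 1) := by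
  have hp1 : 0 < p - 1 := LC_pos
  set M : ℕ := ∏ l ∈ (p - 1).primeFactors.filter (fun l => ¬ l ∣ r), l with hM
  have hcop : Nat.Coprime r M := by
    apply Nat.Coprime.prod_right
    intro l hl
    rw [mem_filter, Nat.mem_primeFactors] at hl
    rw [Nat.coprime_comm]
    exact (Nat.Prime.coprime_iff_not_dvd hl.1.1).2 hl.2
  have hM0 : 0 < M := Finset.prod_pos fun l hl => by
    rw [mem_filter, Nat.mem_primeFactors] at hl
    exact hl.1.1.pos
  set s : ℕ := r ^ (Nat.totient M - 1) with hs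
  have hrs : r * s = r ^ Nat.totient M := by
    rw [hs, ← pow_succ', Nat.sub_add_cancel (Nat.totient_pos.2 hM0)]
  have hrs1 : M ∣ r * s - 1 := by
    have h1 := Nat.ModEq.pow_totient hcop
    rw [← hrs] at h1
    exact (Nat.modEq_iff_dvd' (by rw [hrs]; exact Nat.one_le_pow _ _ hr)).1 h1.symm
  have hrs0 : 1 ≤ r * s := by rw [hrs]; exact Nat.one_le_pow _ _ hr
  refine ⟨2 ^ s, pow_ne_zero _ (two_ne hp2), fun a ha l hl hlp hlr => ?_⟩
  have hlM : l ∣ M := by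
    rw [hM]
    refine Finset.dvd_prod_of_mem _ ?_
    rw [mem_filter, Nat.mem_primeFactors]
    exact ⟨⟨hl, hlp, hp1.ne'⟩, hlr⟩
  have e1 : (2 * a ^ r) ^ ((p - 1) / l) = ((2 ^ s * a) ^ ((p - 1) / l)) ^ r := by
    obtain ⟨t, ht⟩ := hlM.trans hrs1
    obtain ⟨u, hu⟩ := hlp
    have hl0 : 0 < l := hl.pos
    have hu1 : (p - 1) / l = u := by rw [hu, Nat.mul_div_cancel_left _ hl0]
    rw [hu1]
    have h2 : r * s = l * t + 1 := by omega
    have h3 : (2 : ZMod p) ^ (s * (u * r)) = 2 ^ u := by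
      have : s * (u * r) = (p - 1) * t + u := by
        calc s * (u * r) = (r * s) * u := by ring
          _ = (l * t + 1) * u := by rw [h2]
          _ = (l * u) * t + u := by ring
          _ = _ := by rw [← hu]
      rw [this, pow_add, pow_mul, ZMod.pow_card_sub_one_eq_one (two_ne hp2), one_pow, one_mul]
    rw [mul_pow, mul_pow, mul_pow, ← pow_mul, ← pow_mul, ← pow_mul, ← pow_mul, h3, mul_comm r u]
  rw [e1]
  constructor
  · intro h
    have h2 : ((2 ^ s * a) ^ ((p - 1) / l)) ^ l = 1 := by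
      rw [← pow_mul, Nat.div_mul_cancel hlp]
      exact ZMod.pow_card_sub_one_eq_one (mul_ne_zero (pow_ne_zero _ (two_ne hp2)) ha)
    have h3 : orderOf ((2 ^ s * a) ^ ((p - 1) / l)) ∣ Nat.gcd l r :=
      Nat.dvd_gcd (orderOf_dvd_of_pow_eq_one h2) (orderOf_dvd_of_pow_eq_one h)
    rw [(Nat.Prime.coprime_iff_not_dvd hl).2 hlr, Nat.dvd_one, orderOf_eq_one_iff] at h3
    exact h3
  · intro h
    rw [h, one_pow]

lemma pow_two_R (r : ℕ) (a : ZMod p) (ha : a ≠ 0) {l : ℕ} (hlp : l ∣ p - 1)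
    (hlr : l ∣ r) : (2 * a ^ r) ^ ((p - 1) / l) = 2 ^ ((p - 1) / l) := by
  obtain ⟨t, rfl⟩ := hlr
  rw [mul_pow, ← pow_mul]
  have h2 : l * t * ((p - 1) / l) = (p - 1) * t := by
    calc l * t * ((p - 1) / l) = (l * ((p - 1) / l)) * t := by ring
      _ = _ := by rw [Nat.mul_div_cancel' hlp]
  rw [h2, pow_mul, ZMod.pow_card_sub_one_eq_one ha, one_pow, mul_one]

end

/-- the condition of the counting problem -/
theorem hQ_two : ∃ p0 : ℕ, ∀ r : ℕ, 0 < r → ∀ p : ℕ, p.Prime → p0 ≤ p →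
    ∃ m : ZMod p, m ≠ 0 ∧ ∀ a : ZMod p, a ≠ 0 →
      (orderOf (2 * a ^ r) = p - 1 ↔ gd Q0 Set.univ (Subgroup.zpowers u2) 1 r.primeFactors p ∧
        ∀ l ∈ Tp (⊥ : Subgroup ℚˣ) 1 r.primeFactors p, (m * a) ^ ((p - 1) / ql 1 l) ≠ 1) := by
  classical
  obtain ⟨D, hD, hDp⟩ := GF_triv
  refine ⟨D + 3, fun r hr p hp hp0 => ?_⟩
  have : Fact p.Prime := ⟨hp⟩
  have hp2 : p ≠ 2 := by omega
  have hGF : GF Q0 Set.univ p := hDp p hp fun h => by
    have := Nat.le_of_dvd hD h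
    omega
  have hp1 : p - 1 ≠ 0 := (LC_pos (p := p)).ne'
  obtain ⟨m, hm, h1⟩ := pow_two_T (p := p) r hr hp2
  refine ⟨m, hm, fun a ha => ?_⟩
  rw [order_iff]
  have hne : (2 : ZMod p) * a ^ r ≠ 0 := mul_ne_zero (two_ne hp2) (pow_ne_zero _ ha)
  constructor
  · rintro ⟨-, h⟩
    refine ⟨⟨hGF, fun l hl hPW => ?_⟩, fun l hl h2 => ?_⟩
    · rw [Nat.mem_primeFactors] at hl
      rw [PW_u2 hp2, ql_one] at hPW
      have hlS : l ∈ Sk 1 (p - 1) := by
        rw [mem_Sk hp1, ql_one]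
        exact ⟨hl.1, hPW.1⟩
      have h3 := h l hlS
      rw [ql_one, pow_two_R r a ha hPW.1 hl.2.1] at h3
      exact h3 hPW.2
    · have hl : l ∈ (Sk 1 (p - 1)).filter (fun l => l ∉ r.primeFactors ∧
          PW (⊥ : Subgroup ℚˣ) (ql 1 l) p) := by
        refine Eq.mp ?_ hl
        unfold Tp
        congr!
      rw [mem_filter] at hl
      have hlS := hl.1
      rw [mem_Sk hp1, ql_one] at hlS
      have hlr : ¬ l ∣ r := fun h4 => hl.2.1 (Nat.mem_primeFactors.2 ⟨hlS.1, h4, hr.ne'⟩)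
      have h3 := h l hl.1
      rw [ql_one] at h2 h3
      exact h3 ((h1 a ha l hlS.1 hlS.2 hlr).2 h2)
  · rintro ⟨⟨-, hR⟩, hT⟩
    refine ⟨hne, fun l hl h2 => ?_⟩
    have hlS := hl
    rw [mem_Sk hp1, ql_one] at hlS
    rw [ql_one] at h2
    by_cases hlr : l ∣ r
    · refine hR l (Nat.mem_primeFactors.2 ⟨hlS.1, hlr, hr.ne'⟩) ?_
      rw [PW_u2 hp2, ql_one]
      refine ⟨hlS.2, ?_⟩
      rw [pow_two_R r a ha hlS.2 hlr] at h2
      exact h2
    · refine hT l ?_ ?_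
      · have h5 : l ∈ (Sk 1 (p - 1)).filter (fun l => l ∉ r.primeFactors ∧
            PW (⊥ : Subgroup ℚˣ) (ql 1 l) p) := by
          rw [mem_filter, PW_bot, ql_one]
          exact ⟨hl, fun h4 => hlr (Nat.mem_primeFactors.1 h4).2.1, hlS.2⟩
        refine Eq.mp ?_ h5
        unfold Tp
        congr!
      · rw [ql_one]
        exact (h1 a ha l hlS.1 hlS.2 hlr).1 h2

/-- the counting problem for the bases `2 m ^ r` -/
noncomputable def datT (r : ℕ+) : Dat :=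
  mkDat Q0 Set.univ (Subgroup.zpowers u2) ⊥ 1 (r : ℕ).primeFactors artinC
    (lim_two (r : ℕ).primeFactors fun l hl => (Nat.mem_primeFactors.1 hl).1)
    (fun p a => orderOf (2 * a ^ (r : ℕ)) = p - 1) hQ_two.choose
    (hQ_two.choose_spec r r.pos)

open Classical in
/-- local densities -/
noncomputable def GR (R : Finset ℕ) (p : ℕ) : ℝ :=
  if p.Prime ∧ gd Q0 Set.univ (Subgroup.zpowers u2) 1 R p then
    gT 1 (Tp (⊥ : Subgroup ℚˣ) 1 R p) else 0

lemma datT_A (r : ℕ+) : (datT r).A = artinC := rfl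

lemma datT_p0 (r : ℕ+) : (datT r).p0 = hQ_two.choose := rfl

lemma datT_Q (r : ℕ+) (p : ℕ) (a : ZMod p) :
    (datT r).Q p a ↔ orderOf (2 * a ^ (r : ℕ)) = p - 1 := Iff.rfl

lemma datT_G (r : ℕ+) : (datT r).G = GR (r : ℕ).primeFactors := rfl

end Pool.Agent.W171.LG
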