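import Pool.Agent.W171.LG.Cyc
import Pool.Agent.W171.LG.Dens2

/-! # The degrees of the fields of roots of two -/

set_option autoImplicit false

namespace Pool.Agent.W171.LG

open IntermediateField NumberField

section
variable {K : Type} [Field K] [NumberField K]

/-- `2` is not a power in the cyclotomic fields of squarefree level -/
lemma cyc_no_root {n : ℕ} (hn : Squarefree n) [IsCyclotomicExtension {n} ℚ K] {r : ℕ}
    (hr : 1 < r) (b : K) : b ^ r ≠ ((2 : ℤ) : K) := by
  have h2 : Nat.Prime 2 := Nat.prime_two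
  have : Fact (Nat.Prime 2) := ⟨h2⟩
  obtain ⟨P, hP, hl⟩ := exists_over (K := K) h2
  have hn0 : n ≠ 0 := hn.ne_zero
  have hram : Ideal.ramificationIdx P ℤ = 1 := by
    rcases Nat.even_or_odd n with he | ho
    · obtain ⟨m, hm⟩ := he
      have hm' : n = 2 ^ (0 + 1) * m := by omega
      have hm2 : ¬ 2 ∣ m := by
        intro h
        obtain ⟨m', rfl⟩ := h
        have h3 := hn 2 ⟨m', by omega⟩
        exact absurd (Nat.isUnit_iff.1 h3) (by norm_num)
      have := IsCyclotomicExtension.Rat.ramificationIdx_eq n K P hm' hm2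
      simpa using this
    · have : NeZero n := ⟨hn0⟩
      exact IsCyclotomicExtension.Rat.ramificationIdx_eq_of_not_dvd 2 K P
        (m := n) (fun h => by
          rw [← even_iff_two_dvd] at h
          exact (Nat.not_even_iff_odd.2 ho) h)
  refine no_root (t := 1) h2 (by omega) P hram (by norm_num) (by norm_num) ?_ b
  intro h
  have := Nat.le_of_dvd one_pos h
  omega

end

/-- degrees of the fields of roots of `2` -/
theorem finrank_two (u : ℚˣ) (hu : (u : ℚ) = 2) {a b : ℕ} (hab : Squarefree (a * b)) :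
    Module.finrank ℚ (Kf (⊥ : IntermediateField ℚ QA) (Subgroup.zpowers u) ⊥ a b) =
      a * Nat.totient (a * b) := by
  have hn0 : a * b ≠ 0 := hab.ne_zero
  have ha : 0 < a := Nat.pos_of_ne_zero (left_ne_zero_of_mul hn0)
  have hb : 0 < b := Nat.pos_of_ne_zero (right_ne_zero_of_mul hn0)
  have hcop : Nat.Coprime a b := Nat.coprime_of_squarefree_mul hab
  have : NeZero (a * b) := ⟨hn0⟩
  obtain ⟨ζ, hζ⟩ := HasEnoughRootsOfUnity.exists_primitiveRoot QA (a * b)
  obtain ⟨α, hα⟩ := IsAlgClosed.exists_pow_nat_eq (algebraMap ℚ QA (u : ℚ)) ha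
  unfold Kf
  rw [bot_sup_eq, Lf_zpowers u ha hb hcop hζ hα]
  set K0 : IntermediateField ℚ QA := adjoin ℚ {ζ} with hK0
  have hint : IsIntegral ℚ ζ := by
    have h1 : IsIntegral ℤ ζ := hζ.isIntegral (Nat.pos_of_ne_zero hn0)
    exact h1.tower_top
  have hcyc : IsCyclotomicExtension {a * b} ℚ K0 :=
    (IntermediateField.isCyclotomicExtension_singleton_iff_eq_adjoin (a * b) ℚ QA K0 hζ).2 rfl
  have hfin : FiniteDimensional ℚ K0 := IsCyclotomicExtension.finite_of_singleton (a * b) ℚ K0
  have : NumberField K0 := { to_charZero := inferInstance, to_finiteDimensional := hfin }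
  have hdeg : Module.finrank ℚ K0 = Nat.totient (a * b) :=
    IsCyclotomicExtension.finrank (n := a * b) K0
      (Polynomial.cyclotomic.irreducible_rat (Nat.pos_of_ne_zero hn0))
  have hζ' : IsPrimitiveRoot (⟨ζ, mem_adjoin_simple_self ℚ ζ⟩ : K0) (a * b) := by
    refine IsPrimitiveRoot.of_map_of_injective (f := K0.val) ?_ K0.val.injective
    exact hζ
  have hζa : IsPrimitiveRoot ((⟨ζ, mem_adjoin_simple_self ℚ ζ⟩ : K0) ^ b) a :=
    hζ'.pow (Nat.pos_of_ne_zero hn0) (mul_comm a b)
  have key := finrank_radical K0 ha hζa u.ne_zero hα (fun r hr _ c hc => by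
    refine cyc_no_root (K := K0) hab hr.one_lt c ?_
    rw [hc, hu]
    simp)
  rw [key, mul_comm]
  congr 1

end Pool.Agent.W171.LG
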